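import Mathlib

set_option autoImplicit false
set_option linter.all false

namespace Pool.Agent.Hhelper5.Roots

noncomputable section

open Subgroup

variable {H : Type} [Group H] [Fintype H]

/-- idempotent attached to a subgroup and a linear character of it. -/
def idem (K : Subgroup H) (θ : H → ℂ) : MonoidAlgebra ℂ H := by
  classical
  exact ∑ y : H, if y ∈ K then MonoidAlgebra.single y (θ y⁻¹ / (Nat.card K : ℂ)) else 0

/-- `θ` is multiplicative on `K`. -/
def IsChar (K : Subgroup H) (θ : H → ℂ) : Prop :=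
  θ 1 = 1 ∧ ∀ y y', y ∈ K → y' ∈ K → θ (y * y') = θ y * θ y'

theorem idem_coeff (K : Subgroup H) (θ : H → ℂ) [DecidablePred (· ∈ K)] (g : H) :
    (idem K θ).coeff g = if g ∈ K then θ g⁻¹ / (Nat.card K : ℂ) else 0 := by
  classical
  rw [idem, MonoidAlgebra.coeff_sum, Finsupp.finset_sum_apply]
  rw [Finset.sum_eq_single g]
  · split_ifs <;> simp_all
  · intro b _ hb
    split_ifs
    · simp [Finsupp.single_apply, hb]
    · simp
  · simp

theorem single_mul_idem {K : Subgroup H} {θ : H → ℂ} (hθ : IsChar K θ) {y : H} (hy : y ∈ K) :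
    MonoidAlgebra.single y (1 : ℂ) * idem K θ = θ y • idem K θ := by
  classical
  ext g
  rw [MonoidAlgebra.coeff_single_mul_eq_mul_coeff (y⁻¹ * g)]
  · rw [MonoidAlgebra.coeff_smul_apply, idem_coeff, idem_coeff]
    have h1 : y⁻¹ * g ∈ K ↔ g ∈ K := K.mul_mem_cancel_left (K.inv_mem hy)
    by_cases hg : g ∈ K
    · rw [if_pos hg, if_pos (h1.2 hg), mul_inv_rev, inv_inv, hθ.2 _ _ (K.inv_mem hg) hy]
      rw [smul_eq_mul]; ring
    · rw [if_neg hg, if_neg (fun h => hg (h1.1 h))]
      simp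
  · intro m' _
    constructor
    · rintro rfl; group
    · rintro rfl; group

theorem idem_mul_single {K : Subgroup H} {θ : H → ℂ} (hθ : IsChar K θ) {y : H} (hy : y ∈ K) :
    idem K θ * MonoidAlgebra.single y (1 : ℂ) = θ y • idem K θ := by
  classical
  ext g
  rw [MonoidAlgebra.coeff_mul_single_eq_coeff_mul (g * y⁻¹)]
  · rw [MonoidAlgebra.coeff_smul_apply, idem_coeff, idem_coeff]
    have h1 : g * y⁻¹ ∈ K ↔ g ∈ K := K.mul_mem_cancel_right (K.inv_mem hy)
    by_cases hg : g ∈ K
    · rw [if_pos hg, if_pos (h1.2 hg), mul_inv_rev, inv_inv, hθ.2 _ _ hy (K.inv_mem hg)]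
      rw [smul_eq_mul]; ring
    · rw [if_neg hg, if_neg (fun h => hg (h1.1 h))]
      simp
  · intro m' _
    constructor
    · rintro rfl; group
    · rintro rfl; group

theorem IsChar.inv_mul {K : Subgroup H} {θ : H → ℂ} (hθ : IsChar K θ) {y : H} (hy : y ∈ K) :
    θ y⁻¹ * θ y = 1 := by
  rw [← hθ.2 _ _ (K.inv_mem hy) hy, inv_mul_cancel, hθ.1]

/-- expansion of a product with `idem` on the left. -/
theorem idem_mul_of {K : Subgroup H} {θ : H → ℂ} (hθ : IsChar K θ) (v : MonoidAlgebra ℂ H)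
    (hv : ∀ y ∈ K, MonoidAlgebra.single y (1 : ℂ) * v = θ y • v) :
    idem K θ * v = v := by
  classical
  rw [idem, Finset.sum_mul]
  have h1 : ∀ y : H, (if y ∈ K then MonoidAlgebra.single y (θ y⁻¹ / (Nat.card K : ℂ)) else 0) * v
      = if y ∈ K then ((Nat.card K : ℂ)⁻¹) • v else 0 := by
    intro y
    split_ifs with hy
    · have : MonoidAlgebra.single y (θ y⁻¹ / (Nat.card K : ℂ)) =
          (θ y⁻¹ / (Nat.card K : ℂ)) • MonoidAlgebra.single y (1 : ℂ) := by
        simp
      rw [this, smul_mul_assoc, hv y hy, smul_smul, div_mul_eq_mul_div, hθ.inv_mul hy, one_div]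
    · simp
  simp_rw [h1]
  rw [← Finset.sum_filter, Finset.sum_const, ← Nat.cast_smul_eq_nsmul ℂ, smul_smul]
  have h2 : (Finset.univ.filter (fun y => y ∈ K)).card = Nat.card K := by
    rw [Nat.card_eq_fintype_card, Fintype.card_subtype]
  rw [h2, mul_inv_cancel₀, one_smul]
  exact_mod_cast (Nat.card_pos (α := K)).ne'

theorem mul_idem_of {K : Subgroup H} {θ : H → ℂ} (hθ : IsChar K θ) (v : MonoidAlgebra ℂ H)
    (hv : ∀ y ∈ K, v * MonoidAlgebra.single y (1 : ℂ) = θ y • v) :
    v * idem K θ = v := by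
  classical
  rw [idem, Finset.mul_sum]
  have h1 : ∀ y : H, v * (if y ∈ K then MonoidAlgebra.single y (θ y⁻¹ / (Nat.card K : ℂ)) else 0)
      = if y ∈ K then ((Nat.card K : ℂ)⁻¹) • v else 0 := by
    intro y
    split_ifs with hy
    · have : MonoidAlgebra.single y (θ y⁻¹ / (Nat.card K : ℂ)) =
          (θ y⁻¹ / (Nat.card K : ℂ)) • MonoidAlgebra.single y (1 : ℂ) := by
        simp
      rw [this, mul_smul_comm, hv y hy, smul_smul, div_mul_eq_mul_div, hθ.inv_mul hy, one_div]
    · simp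
  simp_rw [h1]
  rw [← Finset.sum_filter, Finset.sum_const, ← Nat.cast_smul_eq_nsmul ℂ, smul_smul]
  have h2 : (Finset.univ.filter (fun y => y ∈ K)).card = Nat.card K := by
    rw [Nat.card_eq_fintype_card, Fintype.card_subtype]
  rw [h2, mul_inv_cancel₀, one_smul]
  exact_mod_cast (Nat.card_pos (α := K)).ne'

theorem idem_mul_idem {K : Subgroup H} {θ : H → ℂ} (hθ : IsChar K θ) :
    idem K θ * idem K θ = idem K θ :=
  idem_mul_of hθ _ fun y hy => single_mul_idem hθ hy

/-- idempotent matrices have natural trace; trace zero only for zero. -/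
theorem trace_idem {m : ℕ} (M : Matrix (Fin m) (Fin m) ℂ) (h : M * M = M) :
    ∃ k : ℕ, M.trace = k ∧ (k = 0 → M = 0) := by
  have hidem : IsIdempotentElem (Matrix.toLin' M) := by
    rw [IsIdempotentElem, Module.End.mul_eq_comp, ← Matrix.toLin'_mul, h]
  refine ⟨Module.finrank ℂ (LinearMap.range (Matrix.toLin' M)), ?_, ?_⟩
  · rw [← (LinearMap.IsIdempotentElem.isProj_range _ hidem).trace, Matrix.trace_toLin'_eq]
  · intro h0
    have h1 : LinearMap.trace ℂ _ (Matrix.toLin' M) = 0 := by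
      rw [(LinearMap.IsIdempotentElem.isProj_range _ hidem).trace, h0]; simp
    have h2 := (LinearMap.IsIdempotentElem.trace_eq_zero_iff hidem).1 h1
    exact (LinearEquiv.map_eq_zero_iff Matrix.toLin').1 h2

end

end Pool.Agent.Hhelper5.Roots
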