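import Mathlib

set_option autoImplicit false
set_option linter.all false

namespace Pool.Agent.Hhelper5.Roots

noncomputable section

open Subgroup

variable {H : Type} [Group H] (p : ℕ) (x : H)

/-- discrete logarithm to base `x`. -/
def dlog (g : H) : ZMod p := by
  classical
  exact if h : ∃ k : ℕ, x ^ k = g then (h.choose : ZMod p) else 0

variable {p x}

theorem dlog_pow (hx : orderOf x = p) (k : ℕ) : dlog p x (x ^ k) = k := by
  have h : ∃ j : ℕ, x ^ j = x ^ k := ⟨k, rfl⟩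
  rw [dlog, dif_pos h]
  have h2 := h.choose_spec
  rw [pow_eq_pow_iff_modEq, hx] at h2
  exact (ZMod.natCast_eq_natCast_iff _ _ _).2 h2

theorem pow_dlog [NeZero p] (hx : orderOf x = p) {g : H} (hg : g ∈ zpowers x) :
    x ^ (dlog p x g).val = g := by
  have hfin : IsOfFinOrder x := by
    rw [← orderOf_pos_iff, hx]; exact NeZero.pos p
  obtain ⟨k, rfl⟩ := (Submonoid.mem_powers_iff _ _).1 (hfin.mem_powers_iff_mem_zpowers.2 hg)
  rw [dlog_pow hx, pow_eq_pow_iff_modEq, hx]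
  rw [← ZMod.natCast_eq_natCast_iff]
  simp

theorem dlog_mul [NeZero p] (hx : orderOf x = p) {g g' : H} (hg : g ∈ zpowers x)
    (hg' : g' ∈ zpowers x) : dlog p x (g * g') = dlog p x g + dlog p x g' := by
  conv_lhs => rw [← pow_dlog hx hg, ← pow_dlog hx hg', ← pow_add, dlog_pow hx]
  simp

theorem dlog_one (hx : orderOf x = p) : dlog p x 1 = 0 := by
  have := dlog_pow hx 0
  simpa using this

theorem dlog_eq_zero [NeZero p] (hx : orderOf x = p) {g : H} (hg : g ∈ zpowers x)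
    (h0 : dlog p x g = 0) : g = 1 := by
  rw [← pow_dlog hx hg, h0]
  simp

theorem dlog_x [Fact p.Prime] (hx : orderOf x = p) : dlog p x x = 1 := by
  have := dlog_pow hx 1
  simpa using this

variable (x) in
/-- the centralizer of `x` -/
def CC : Subgroup H := centralizer {x}

theorem mem_CC {y : H} : y ∈ CC x ↔ y * x = x * y := by
  rw [CC, mem_centralizer_singleton_iff]

theorem zpowers_le_CC : zpowers x ≤ CC x := by
  rw [zpowers_le, mem_CC]

theorem CC_comm {y g : H} (hy : y ∈ CC x) (hg : g ∈ zpowers x) : y * g = g * y := by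
  obtain ⟨k, rfl⟩ := mem_zpowers_iff.1 hg
  rw [mem_CC] at hy
  exact ((show Commute y x from hy).zpow_right k).eq

variable (x) in
/-- index of `⟨x⟩` in its centralizer -/
def cidx : ℕ := ((zpowers x).subgroupOf (CC x)).index

theorem card_CC [Finite H] (hx : orderOf x = p) : Nat.card (CC x) = p * cidx x := by
  have h1 := Subgroup.card_mul_index ((zpowers x).subgroupOf (CC x))
  rw [← h1, cidx]
  congr 1
  rw [← hx, ← Nat.card_zpowers]
  exact Nat.card_congr (Subgroup.subgroupOfEquivOfLe zpowers_le_CC).toEquiv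

/-- the log homomorphism on `⟨x⟩`. -/
def dlogHom [NeZero p] (hx : orderOf x = p) :
    (zpowers x).subgroupOf (CC x) →* Multiplicative (ZMod p) where
  toFun g := Multiplicative.ofAdd (dlog p x ((g : CC x) : H))
  map_one' := by
    simp [dlog_one hx]
  map_mul' g g' := by
    simp only [Subgroup.coe_mul]
    rw [dlog_mul hx (mem_subgroupOf.1 g.2) (mem_subgroupOf.1 g'.2)]
    rfl

theorem pow_cidx_mem [NeZero p] [Finite H] (hx : orderOf x = p) {y : H} (hy : y ∈ CC x) :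
    y ^ cidx x ∈ zpowers x := by
  have key : ∀ (k : ℕ) (g₀ : CC x), g₀⁻¹ * (⟨y, hy⟩ : CC x) ^ k * g₀ ∈
      (zpowers x).subgroupOf (CC x) → g₀⁻¹ * (⟨y, hy⟩ : CC x) ^ k * g₀ = (⟨y, hy⟩ : CC x) ^ k := by
    intro k g₀ hk
    rw [mem_subgroupOf] at hk
    have h2 := CC_comm g₀.2 hk
    apply Subtype.ext
    simp only [Subgroup.coe_mul, Subgroup.coe_inv, Subgroup.coe_pow] at h2 ⊢
    have h3 : (g₀ : H) * ((g₀ : H)⁻¹ * y ^ k * (g₀ : H)) = y ^ k * g₀ := by group
    rw [h3] at h2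
    exact mul_right_cancel h2.symm
  have := MonoidHom.transfer_eq_pow_aux (H := (zpowers x).subgroupOf (CC x)) ⟨y, hy⟩ key
  rw [mem_subgroupOf] at this
  exact this

/-- `Llog y = log_x (y ^ c)`. -/
def Llog (p : ℕ) (x : H) (y : H) : ZMod p := dlog p x (y ^ cidx x)

theorem Llog_mul [NeZero p] [Finite H] (hx : orderOf x = p) {y y' : H} (hy : y ∈ CC x)
    (hy' : y' ∈ CC x) : Llog p x (y * y') = Llog p x y + Llog p x y' := by
  have key : ∀ (z : CC x) (k : ℕ) (g₀ : CC x), g₀⁻¹ * z ^ k * g₀ ∈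
      (zpowers x).subgroupOf (CC x) → g₀⁻¹ * z ^ k * g₀ = z ^ k := by
    intro z k g₀ hk
    rw [mem_subgroupOf] at hk
    have h2 := CC_comm g₀.2 hk
    apply Subtype.ext
    simp only [Subgroup.coe_mul, Subgroup.coe_inv, Subgroup.coe_pow] at h2 ⊢
    have h3 : (g₀ : H) * ((g₀ : H)⁻¹ * (z : H) ^ k * (g₀ : H)) = (z : H) ^ k * g₀ := by group
    rw [h3] at h2
    exact mul_right_cancel h2.symm
  have h1 : ∀ z : CC x, MonoidHom.transfer (dlogHom hx) z =
      Multiplicative.ofAdd (Llog p x (z : H)) := by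
    intro z
    rw [MonoidHom.transfer_eq_pow (dlogHom hx) z (key z)]
    rfl
  have h2 := map_mul (MonoidHom.transfer (dlogHom hx)) ⟨y, hy⟩ ⟨y', hy'⟩
  rw [h1, h1, h1] at h2
  exact Multiplicative.ofAdd.injective h2

theorem Llog_of_pow_eq_one (hx : orderOf x = p) {y : H} (h : y ^ cidx x = 1) :
    Llog p x y = 0 := by
  rw [Llog, h, dlog_one hx]

theorem pow_eq_one_of_Llog [NeZero p] [Finite H] (hx : orderOf x = p) {y : H} (hy : y ∈ CC x)
    (h : Llog p x y = 0) : y ^ cidx x = 1 :=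
  dlog_eq_zero hx (pow_cidx_mem hx hy) h

theorem Llog_pow_x (hx : orderOf x = p) (k : ℕ) :
    Llog p x (x ^ k) = k * (cidx x : ZMod p) := by
  rw [Llog, ← pow_mul, dlog_pow hx]
  simp

/-- `h` normalizes `⟨x⟩`. -/
def InN (x h : H) : Prop := h⁻¹ * x * h ∈ zpowers x

/-- exponent of the conjugation by `h`. -/
def nlog (p : ℕ) (x h : H) : ZMod p := dlog p x (h⁻¹ * x * h)

theorem conj_pow_eq (h : H) (g : H) (j : ℕ) : h⁻¹ * g ^ j * h = (h⁻¹ * g * h) ^ j := by
  induction j with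
  | zero => simp
  | succ j ih => rw [pow_succ, pow_succ, ← ih]; group

theorem conj_x [NeZero p] (hx : orderOf x = p) {h : H} (hh : InN x h) :
    h⁻¹ * x * h = x ^ (nlog p x h).val := (pow_dlog hx hh).symm

theorem conj_zpowers {h g : H} (hh : InN x h) (hg : g ∈ zpowers x) :
    h⁻¹ * g * h ∈ zpowers x := by
  obtain ⟨k, rfl⟩ := mem_zpowers_iff.1 hg
  have : h⁻¹ * x ^ k * h = (h⁻¹ * x * h) ^ k := by
    have := conj_zpow (i := k) (a := h⁻¹) (b := x)
    simpa using this.symm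
  rw [this]
  exact zpow_mem hh k

theorem dlog_conj [NeZero p] (hx : orderOf x = p) {h g : H} (hh : InN x h) (hg : g ∈ zpowers x) :
    dlog p x (h⁻¹ * g * h) = nlog p x h * dlog p x g := by
  conv_lhs => rw [← pow_dlog hx hg, conj_pow_eq, conj_x hx hh, ← pow_mul, dlog_pow hx]
  simp

theorem nlog_ne_zero [Fact p.Prime] (hx : orderOf x = p) {h : H} (hh : InN x h) :
    nlog p x h ≠ 0 := by
  intro h0
  have h1 := conj_x hx hh
  rw [h0, ZMod.val_zero, pow_zero] at h1
  have h2 : x = 1 := by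
    have : x = h * (h⁻¹ * x * h) * h⁻¹ := by group
    rw [this, h1]; group
  rw [h2, orderOf_one] at hx
  exact (Fact.out : p.Prime).ne_one hx.symm

/-- any nontrivial element of `⟨x⟩` generates it. -/
theorem gen_of_ne_one [Fact p.Prime] (hx : orderOf x = p) {g : H} (hg : g ∈ zpowers x)
    (h1 : g ≠ 1) : x ∈ zpowers g := by
  have hd : dlog p x g ≠ 0 := fun h0 => h1 (dlog_eq_zero hx hg h0)
  have : g ^ ((dlog p x g)⁻¹).val = x := by
    obtain ⟨e, he⟩ : ∃ e, e = dlog p x g := ⟨_, rfl⟩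
    have hg2 : g = x ^ e.val := by rw [he, pow_dlog hx hg]
    rw [← he] at hd ⊢
    rw [hg2, ← pow_mul]
    have h2 : x ^ (e.val * (e⁻¹).val) = x ^ 1 := by
      rw [pow_eq_pow_iff_modEq, hx, ← ZMod.natCast_eq_natCast_iff]
      simp [hd]
    rw [h2, pow_one]
  rw [← this]
  exact pow_mem (mem_zpowers g) _

theorem InN_one : InN x (1 : H) := by
  simp [InN]

theorem InN_of_CC {h : H} (hh : h ∈ CC x) : InN x h := by
  rw [mem_CC] at hh
  have : h⁻¹ * x * h = x := by rw [mul_assoc, ← hh]; group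
  rw [InN, this]
  exact mem_zpowers x

theorem nlog_of_CC [Fact p.Prime] (hx : orderOf x = p) {h : H} (hh : h ∈ CC x) :
    nlog p x h = 1 := by
  rw [mem_CC] at hh
  have : h⁻¹ * x * h = x := by rw [mul_assoc, ← hh]; group
  rw [nlog, this, dlog_x hx]

theorem CC_of_nlog [Fact p.Prime] (hx : orderOf x = p) {h : H} (hh : InN x h)
    (h1 : nlog p x h = 1) : h ∈ CC x := by
  have h2 := conj_x hx hh
  rw [h1, ZMod.val_one, pow_one] at h2
  rw [mem_CC]
  have : h * (h⁻¹ * x * h) = x * h := by group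
  rw [h2] at this
  exact this

theorem InN_mul {h h' : H} (hh : InN x h) (hh' : InN x h') : InN x (h * h') := by
  have := conj_zpowers hh' hh
  have h2 : (h * h')⁻¹ * x * (h * h') = h'⁻¹ * (h⁻¹ * x * h) * h' := by group
  rw [InN, h2]
  exact this

theorem nlog_mul [NeZero p] (hx : orderOf x = p) {h h' : H} (hh : InN x h) (hh' : InN x h') :
    nlog p x (h * h') = nlog p x h' * nlog p x h := by
  have h2 : (h * h')⁻¹ * x * (h * h') = h'⁻¹ * (h⁻¹ * x * h) * h' := by group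
  rw [nlog, h2, dlog_conj hx hh' hh]
  rfl

theorem InN_inv [Fact p.Prime] (hx : orderOf x = p) {h : H} (hh : InN x h) : InN x h⁻¹ := by
  have h1 : h⁻¹ * x * h ≠ 1 := by
    intro h0
    have : x = h * (h⁻¹ * x * h) * h⁻¹ := by group
    rw [h0] at this
    have h2 : x = 1 := by rw [this]; group
    rw [h2, orderOf_one] at hx
    exact (Fact.out : p.Prime).ne_one hx.symm
  obtain ⟨k, hk⟩ := mem_zpowers_iff.1 (gen_of_ne_one hx hh h1)
  have h3 : (h⁻¹ * x * h) ^ k = h⁻¹ * x ^ k * h := by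
    have := conj_zpow (i := k) (a := h⁻¹) (b := x)
    simpa using this
  rw [InN]
  have h4 : (h⁻¹)⁻¹ * x * h⁻¹ = x ^ k := by
    rw [h3] at hk
    conv_lhs => rw [← hk]
    group
  rw [h4]
  exact zpow_mem (mem_zpowers x) k

theorem nlog_inv [Fact p.Prime] (hx : orderOf x = p) {h : H} (hh : InN x h) :
    nlog p x h⁻¹ = (nlog p x h)⁻¹ := by
  have h1 := nlog_mul hx hh (InN_inv hx hh)
  rw [mul_inv_cancel, nlog_of_CC hx (one_mem _)] at h1
  exact eq_inv_of_mul_eq_one_left h1.symm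

theorem conj_CC [Fact p.Prime] (hx : orderOf x = p) {h g : H} (hh : InN x h) (hg : g ∈ CC x) :
    h⁻¹ * g * h ∈ CC x := by
  have h1 : (h⁻¹)⁻¹ * x * h⁻¹ ∈ zpowers x := InN_inv hx hh
  have h2 := CC_comm hg h1
  rw [mem_CC]
  have h3 : h⁻¹ * g * h * x = h⁻¹ * (g * ((h⁻¹)⁻¹ * x * h⁻¹)) * h := by group
  have h4 : x * (h⁻¹ * g * h) = h⁻¹ * (((h⁻¹)⁻¹ * x * h⁻¹) * g) * h := by group
  rw [h3, h4, h2]

theorem Llog_conj [Fact p.Prime] [Finite H] (hx : orderOf x = p) {h g : H} (hh : InN x h)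
    (hg : g ∈ CC x) : Llog p x (h⁻¹ * g * h) = nlog p x h * Llog p x g := by
  rw [Llog, ← conj_pow_eq, dlog_conj hx hh (pow_cidx_mem hx hg)]
  rfl

/-- outside the normalizer, elements of `C ∩ hCh⁻¹` have trivial log. -/
theorem Llog_out [Fact p.Prime] [Finite H] (hx : orderOf x = p) {h g : H} (hh : ¬ InN x h)
    (hg : g ∈ CC x) (hg' : h⁻¹ * g * h ∈ CC x) :
    Llog p x g = 0 ∧ Llog p x (h⁻¹ * g * h) = 0 := by
  have h1 := pow_cidx_mem hx hg
  have h2 := pow_cidx_mem hx hg'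
  rw [← conj_pow_eq] at h2
  have h3 : g ^ cidx x = 1 := by
    by_contra hne
    apply hh
    obtain ⟨k, hk⟩ := mem_zpowers_iff.1 (gen_of_ne_one hx h1 hne)
    have h4 : h⁻¹ * x * h = (h⁻¹ * g ^ cidx x * h) ^ k := by
      have := conj_zpow (i := k) (a := h⁻¹) (b := g ^ cidx x)
      rw [hk] at this
      simpa using this.symm
    rw [InN, h4]
    exact zpow_mem h2 k
  refine ⟨Llog_of_pow_eq_one hx h3, Llog_of_pow_eq_one hx ?_⟩
  rw [← conj_pow_eq, h3]
  group

end

end Pool.Agent.Hhelper5.Roots
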