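import Mathlib

set_option autoImplicit false
set_option linter.all false

namespace Pool.Agent.Hhelper5.Roots

open Module

noncomputable section

/-- Wedderburn decomposition of the complex group algebra of a finite group. -/
theorem exists_wedd (H : Type) [Group H] [Finite H] :
    ∃ (n : ℕ) (d : Fin n → ℕ), (∀ i, NeZero (d i)) ∧
      Nonempty (MonoidAlgebra ℂ H ≃ₐ[ℂ] Π i, Matrix (Fin (d i)) (Fin (d i)) ℂ) := by
  haveI : NeZero (Nat.card H : ℂ) := ⟨by
    exact_mod_cast (Nat.card_pos (α := H)).ne'⟩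
  haveI : IsSemisimpleRing (MonoidAlgebra ℂ H) := inferInstance
  haveI : FiniteDimensional ℂ (MonoidAlgebra ℂ H) :=
    Module.Finite.of_basis (MonoidAlgebra.basis H ℂ)
  exact IsSemisimpleRing.exists_algEquiv_pi_matrix_of_isAlgClosed ℂ (MonoidAlgebra ℂ H)

theorem coeff_mul_group {H : Type} [Group H] [Fintype H] (u v : MonoidAlgebra ℂ H) (m : H) :
    (u * v).coeff m = ∑ g : H, u.coeff g * v.coeff (g⁻¹ * m) := by
  classical
  rw [MonoidAlgebra.coeff_mul_antidiag u v m
    (Finset.univ.image (fun g : H => (g, g⁻¹ * m))) (by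
      rintro ⟨a, b⟩
      simp only [Finset.mem_image, Finset.mem_univ, true_and, Prod.mk.injEq]
      constructor
      · rintro ⟨g, rfl, rfl⟩
        simp
      · rintro h
        exact ⟨a, rfl, by rw [← h]; simp⟩)]
  rw [Finset.sum_image]
  intro a _ b _ hab
  exact (Prod.mk.inj hab).1

/-- trace of `a ↦ u * a * v` on the group algebra -/
theorem trace_group (H : Type) [Group H] [Fintype H] (u v : MonoidAlgebra ℂ H) :
    LinearMap.trace ℂ (MonoidAlgebra ℂ H)
      (LinearMap.mulLeft ℂ u ∘ₗ LinearMap.mulRight ℂ v) =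
      ∑ h : H, ∑ g : H, u.coeff g * v.coeff (h⁻¹ * g⁻¹ * h) := by
  classical
  rw [LinearMap.trace_eq_matrix_trace ℂ (MonoidAlgebra.basis H ℂ)]
  rw [Matrix.trace]
  refine Finset.sum_congr rfl fun h _ => ?_
  rw [Matrix.diag_apply, LinearMap.toMatrix_apply]
  have key : ((MonoidAlgebra.basis H ℂ).repr
      ((LinearMap.mulLeft ℂ u ∘ₗ LinearMap.mulRight ℂ v) ((MonoidAlgebra.basis H ℂ) h))) h
      = (u * (MonoidAlgebra.single h 1 * v)).coeff h := rfl
  rw [key, coeff_mul_group]
  refine Finset.sum_congr rfl fun g _ => ?_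
  congr 1
  rw [MonoidAlgebra.coeff_single_mul_eq_mul_coeff (h⁻¹ * (g⁻¹ * h))]
  · simp [mul_assoc]
  · intro m' _
    constructor
    · intro hm
      rw [← hm]; group
    · intro hm
      rw [hm]; group

/-- trace of `a ↦ u * a * v` on a product of matrix algebras -/
theorem trace_pi_matrix {n : ℕ} (d : Fin n → ℕ) (U V : Π i, Matrix (Fin (d i)) (Fin (d i)) ℂ) :
    LinearMap.trace ℂ (Π i, Matrix (Fin (d i)) (Fin (d i)) ℂ)
      (LinearMap.mulLeft ℂ U ∘ₗ LinearMap.mulRight ℂ V) =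
      ∑ i, (U i).trace * (V i).trace := by
  classical
  rw [LinearMap.trace_eq_matrix_trace ℂ (Pi.basis fun i => Matrix.stdBasis ℂ (Fin (d i)) (Fin (d i)))]
  rw [Matrix.trace, Fintype.sum_sigma]
  refine Finset.sum_congr rfl fun i _ => ?_
  rw [Fintype.sum_prod_type, Matrix.trace, Matrix.trace, Finset.sum_mul_sum]
  refine Finset.sum_congr rfl fun a _ => ?_
  refine Finset.sum_congr rfl fun b _ => ?_
  rw [Matrix.diag_apply, LinearMap.toMatrix_apply]
  rw [Pi.basis_apply, Pi.basis_repr]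
  simp only [LinearMap.comp_apply, LinearMap.mulLeft_apply, LinearMap.mulRight_apply, Pi.mul_apply,
    Pi.single_eq_same]
  rw [Matrix.stdBasis_eq_single]
  have : ∀ M : Matrix (Fin (d i)) (Fin (d i)) ℂ,
      (Matrix.stdBasis ℂ (Fin (d i)) (Fin (d i))).repr M (a, b) = M a b := by
    intro M
    rfl
  rw [this]
  rw [Matrix.mul_apply]
  rw [Finset.sum_eq_single a]
  · rw [Matrix.mul_apply, Finset.sum_eq_single b]
    · simp
    · intro c _ hc
      simp [Matrix.single_apply, hc.symm]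
    · simp
  · intro c _ hc
    rw [Matrix.mul_apply]
    simp [Matrix.single_apply, hc.symm]
  · simp

/-- The fundamental trace identity. -/
theorem trace_identity (H : Type) [Group H] [Fintype H] {n : ℕ} {d : Fin n → ℕ}
    (Φ : MonoidAlgebra ℂ H ≃ₐ[ℂ] Π i, Matrix (Fin (d i)) (Fin (d i)) ℂ)
    (u v : MonoidAlgebra ℂ H) :
    ∑ i, (Φ u i).trace * (Φ v i).trace =
      ∑ h : H, ∑ g : H, u.coeff g * v.coeff (h⁻¹ * g⁻¹ * h) := by
  rw [← trace_group, ← trace_pi_matrix d (Φ u) (Φ v)]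
  rw [← LinearMap.trace_conj' _ Φ.toLinearEquiv]
  congr 1
  refine LinearMap.ext fun M => ?_
  simp [LinearEquiv.conj_apply, map_mul]

end

end Pool.Agent.Hhelper5.Roots
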