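import Mathlib
import Pool.Agent.Hhelper5.Roots.TraceId
import Pool.Agent.Hhelper5.Roots.Idem
import Pool.Agent.Hhelper5.Roots.Setup

set_option autoImplicit false
set_option linter.all false

namespace Pool.Agent.Hhelper5.Roots

noncomputable section

open Subgroup

variable {H : Type} [Group H] [Fintype H] {p : ℕ} [Fact p.Prime] {x : H}

/-- The linear character `y ↦ ψ(k L(y))`. -/
def th (x : H) (k : ZMod p) : H → ℂ := fun y => ZMod.stdAddChar (k * Llog p x y)

theorem isChar_CC (hx : orderOf x = p) (k : ZMod p) : IsChar (CC x) (th x k) := by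
  constructor
  · have : Llog p x 1 = 0 := by
      have := Llog_pow_x hx 0
      simpa using this
    simp [th, this]
  · intro y y' hy hy'
    simp only [th]
    rw [Llog_mul hx hy hy', mul_add, AddChar.map_add_eq_mul]

theorem IsChar.mono {K K' : Subgroup H} {θ : H → ℂ} (h : IsChar K θ) (hK : K' ≤ K) :
    IsChar K' θ := ⟨h.1, fun y y' hy hy' => h.2 y y' (hK hy) (hK hy')⟩

theorem isChar_P (hx : orderOf x = p) (k : ZMod p) : IsChar (zpowers x) (th x k) :=
  (isChar_CC hx k).mono zpowers_le_CC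

/-- The idempotents. -/
def eC (x : H) (k : ZMod p) : MonoidAlgebra ℂ H := idem (CC x) (th x k)
def eP (x : H) (k : ZMod p) : MonoidAlgebra ℂ H := idem (zpowers x) (th x k)

theorem stdAddChar_ne_one {t : ZMod p} (ht : t ≠ 0) : (ZMod.stdAddChar t : ℂ) ≠ 1 := by
  intro h
  apply ht
  apply ZMod.injective_stdAddChar
  rw [h, AddChar.map_zero_eq_one]

/-- `p ∤ c`. -/
def Good (p : ℕ) (x : H) : Prop := (cidx x : ZMod p) ≠ 0

theorem good_of (hx : orderOf x = p) (hp2 : ¬ p ^ 2 ∣ Nat.card H) : Good p x := by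
  intro h0
  apply hp2
  rw [ZMod.natCast_eq_zero_iff] at h0
  have h1 : Nat.card (CC x) ∣ Nat.card H := Subgroup.card_subgroup_dvd_card _
  rw [card_CC hx] at h1
  refine dvd_trans ?_ h1
  rw [pow_two]
  exact mul_dvd_mul_left p h0

theorem Llog_x (hx : orderOf x = p) : Llog p x x = (cidx x : ZMod p) := by
  have := Llog_pow_x hx 1
  simpa using this

open Classical in
theorem sum_char (hx : orderOf x = p) (hg : Good p x) (K : Subgroup H) (hK : K ≤ CC x)
    (hxK : x ∈ K) (t : ZMod p) :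
    ∑ g : H, (if g ∈ K then (ZMod.stdAddChar (t * Llog p x g) : ℂ) else 0) =
      if t = 0 then (Nat.card K : ℂ) else 0 := by
  split_ifs with ht
  · subst ht
    simp only [zero_mul, AddChar.map_zero_eq_one]
    rw [← Finset.sum_filter, Finset.sum_const, nsmul_eq_mul, mul_one]
    congr 1
    rw [Nat.card_eq_fintype_card, Fintype.card_subtype]
  · set S := ∑ g : H, (if g ∈ K then (ZMod.stdAddChar (t * Llog p x g) : ℂ) else 0) with hS
    have h1 : S = (ZMod.stdAddChar (t * (cidx x : ZMod p)) : ℂ) * S := by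
      have h0 : ∑ g : H, (if x * g ∈ K then (ZMod.stdAddChar (t * Llog p x (x * g)) : ℂ) else 0)
          = S := Equiv.sum_comp (Equiv.mulLeft x)
            (fun g => if g ∈ K then (ZMod.stdAddChar (t * Llog p x g) : ℂ) else 0)
      conv_lhs => rw [← h0]
      rw [hS, Finset.mul_sum]
      refine Finset.sum_congr rfl fun g _ => ?_
      have h2 : x * g ∈ K ↔ g ∈ K := K.mul_mem_cancel_left hxK
      by_cases hgK : g ∈ K
      · rw [if_pos hgK, if_pos (h2.2 hgK), Llog_mul hx (hK hxK) (hK hgK), Llog_x hx, mul_add,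
          AddChar.map_add_eq_mul]
      · rw [if_neg hgK, if_neg (fun h => hgK (h2.1 h)), mul_zero]
    have h3 : (ZMod.stdAddChar (t * (cidx x : ZMod p)) : ℂ) ≠ 1 :=
      stdAddChar_ne_one (mul_ne_zero ht hg)
    have h4 : (1 - (ZMod.stdAddChar (t * (cidx x : ZMod p)) : ℂ)) * S = 0 := by
      rw [sub_mul, one_mul, ← h1, sub_self]
    rcases mul_eq_zero.1 h4 with h5 | h5
    · exact absurd (sub_eq_zero.1 h5).symm h3
    · exact h5

theorem Llog_inv (hx : orderOf x = p) {g : H} (hg : g ∈ CC x) :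
    Llog p x g⁻¹ = - Llog p x g := by
  have h1 := Llog_mul hx hg (inv_mem hg)
  rw [mul_inv_cancel] at h1
  have : Llog p x 1 = 0 := by
    have := Llog_pow_x hx 0
    simpa using this
  rw [this] at h1
  exact (neg_eq_of_add_eq_zero_right h1.symm).symm

variable {n : ℕ} {d : Fin n → ℕ}
  (Φ : MonoidAlgebra ℂ H ≃ₐ[ℂ] Π i, Matrix (Fin (d i)) (Fin (d i)) ℂ)

open Classical in
/-- general evaluation of the trace form on two of the idempotents. -/
theorem trace_idem_idem (hx : orderOf x = p) (hg : Good p x)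
    (K K' : Subgroup H) (hKK' : K ≤ K') (hK' : K' ≤ CC x) (hxK : x ∈ K)
    (hN : ∀ h g, InN x h → g ∈ K → h⁻¹ * g * h ∈ K')
    (k l : ZMod p) :
    ∑ i, (Φ (idem K (th x k)) i).trace * (Φ (idem K' (th x l)) i).trace =
      ((Finset.univ.filter (fun q : H × H => ¬ InN x q.1 ∧ q.2 ∈ K ∧
        q.1⁻¹ * q.2 * q.1 ∈ K')).card : ℂ) / ((Nat.card K : ℂ) * (Nat.card K' : ℂ)) +
      ((Finset.univ.filter (fun h : H => InN x h ∧ l * nlog p x h = k)).card : ℂ)
        / (Nat.card K' : ℂ) := by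
  have hK0 : (Nat.card K : ℂ) ≠ 0 := by exact_mod_cast (Nat.card_pos (α := K)).ne'
  have hK0' : (Nat.card K' : ℂ) ≠ 0 := by exact_mod_cast (Nat.card_pos (α := K')).ne'
  rw [trace_identity]
  have h1 : ∀ h : H, ∑ g : H, (idem K (th x k)).coeff g * (idem K' (th x l)).coeff (h⁻¹ * g⁻¹ * h)
      = (∑ g : H, if g ∈ K ∧ h⁻¹ * g * h ∈ K' then th x k g⁻¹ * th x l (h⁻¹ * g * h) else 0) /
        ((Nat.card K : ℂ) * (Nat.card K' : ℂ)) := by
    intro h
    rw [Finset.sum_div]
    refine Finset.sum_congr rfl fun g _ => ?_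
    rw [idem_coeff, idem_coeff]
    have h2 : h⁻¹ * g⁻¹ * h = (h⁻¹ * g * h)⁻¹ := by group
    rw [h2, inv_mem_iff, inv_inv]
    by_cases hgK : g ∈ K
    · by_cases hgK' : h⁻¹ * g * h ∈ K'
      · rw [if_pos hgK, if_pos hgK', if_pos ⟨hgK, hgK'⟩]
        field_simp
      · have hn : ¬ (g ∈ K ∧ h⁻¹ * g * h ∈ K') := fun h' => hgK' h'.2
        rw [if_neg hgK', if_neg hn]
        simp
    · have hn : ¬ (g ∈ K ∧ h⁻¹ * g * h ∈ K') := fun h' => hgK h'.1
      rw [if_neg hgK, if_neg hn]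
      simp
  simp_rw [h1]
  rw [← Finset.sum_div]
  have h2 : ∀ h : H, (∑ g : H, if g ∈ K ∧ h⁻¹ * g * h ∈ K' then
        th x k g⁻¹ * th x l (h⁻¹ * g * h) else (0 : ℂ)) =
      (∑ g : H, if ¬ InN x h ∧ g ∈ K ∧ h⁻¹ * g * h ∈ K' then (1 : ℂ) else 0) +
      (if InN x h ∧ l * nlog p x h = k then (Nat.card K : ℂ) else 0) := by
    intro h
    by_cases hh : InN x h
    · have h3 : (∑ g : H, if ¬ InN x h ∧ g ∈ K ∧ h⁻¹ * g * h ∈ K' then (1 : ℂ) else 0) = 0 := by
        apply Finset.sum_eq_zero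
        intro g _
        rw [if_neg (fun h' => h'.1 hh)]
      rw [h3, zero_add]
      have h4 := sum_char hx hg K (hKK'.trans hK') hxK (l * nlog p x h - k)
      have h5 : (if InN x h ∧ l * nlog p x h = k then (Nat.card K : ℂ) else 0) =
          if l * nlog p x h - k = 0 then (Nat.card K : ℂ) else 0 := by
        simp only [hh, true_and, sub_eq_zero]
      rw [h5, ← h4]
      refine Finset.sum_congr rfl fun g _ => ?_
      by_cases hgK : g ∈ K
      · have hgC : g ∈ CC x := hK' (hKK' hgK)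
        rw [if_pos ⟨hgK, hN h g hh hgK⟩, if_pos hgK]
        simp only [th]
        rw [Llog_conj hx hh hgC, Llog_inv hx hgC, ← AddChar.map_add_eq_mul]
        congr 1
        ring
      · have hn : ¬ (g ∈ K ∧ h⁻¹ * g * h ∈ K') := fun h' => hgK h'.1
        rw [if_neg hgK, if_neg hn]
    · rw [if_neg (fun h' => hh h'.1), add_zero]
      refine Finset.sum_congr rfl fun g _ => ?_
      by_cases hgK : g ∈ K ∧ h⁻¹ * g * h ∈ K'
      · rw [if_pos hgK, if_pos ⟨hh, hgK⟩]
        have hgC : g ∈ CC x := hK' (hKK' hgK.1)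
        have hgC' : h⁻¹ * g * h ∈ CC x := hK' hgK.2
        obtain ⟨e1, e2⟩ := Llog_out hx hh hgC hgC'
        simp only [th]
        rw [Llog_inv hx hgC, e1, e2]
        simp
      · have hn : ¬ (¬ InN x h ∧ g ∈ K ∧ h⁻¹ * g * h ∈ K') := fun h' => hgK h'.2
        rw [if_neg hgK, if_neg hn]
  simp_rw [h2]
  rw [Finset.sum_add_distrib, add_div]
  congr 1
  · congr 1
    rw [← Finset.sum_product', Finset.univ_product_univ, ← Finset.sum_filter, Finset.sum_const,
      nsmul_eq_mul, mul_one]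
  · rw [← Finset.sum_filter, Finset.sum_const, nsmul_eq_mul]
    field_simp

end

end Pool.Agent.Hhelper5.Roots
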