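import Mathlib
import Pool.Agent.Hhelper5.Roots.Sums

set_option autoImplicit false
set_option linter.all false

namespace Pool.Agent.Hhelper5.Roots

noncomputable section

open Subgroup

variable {H : Type} [Group H] [Fintype H] {p : ℕ} [Fact p.Prime] {x : H}

/-- the normalizer of `⟨x⟩` as a subgroup. -/
def NN (hx : orderOf x = p) : Subgroup H where
  carrier := {h | InN x h}
  mul_mem' := fun h h' => InN_mul h h'
  one_mem' := InN_one
  inv_mem' := fun h => InN_inv hx h

theorem mem_NN (hx : orderOf x = p) {h : H} : h ∈ NN hx ↔ InN x h := Iff.rfl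

theorem NN_eq (hx : orderOf x = p) : NN hx = normalizer (zpowers x : Set H) := by
  ext h
  rw [mem_NN]
  constructor
  · intro hh
    rw [mem_normalizer_iff']
    have key : ∀ g : H, InN x h → ∀ n, n * h ∈ zpowers x → h * n ∈ zpowers x := by
      intro g hh n hn
      have := conj_zpowers (InN_inv hx hh) hn
      have h2 : (h⁻¹)⁻¹ * (n * h) * h⁻¹ = h * n := by group
      rwa [h2] at this
    have key' : ∀ g : H, InN x h → ∀ n, h * n ∈ zpowers x → n * h ∈ zpowers x := by
      intro g hh n hn
      have := conj_zpowers hh hn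
      have h2 : h⁻¹ * (h * n) * h = n * h := by group
      rwa [h2] at this
    intro n
    first
      | exact ⟨key' 1 hh n, key 1 hh n⟩
      | exact ⟨key 1 hh n, key' 1 hh n⟩
  · intro hh
    rw [mem_normalizer_iff''] at hh
    have := (hh x).1 (mem_zpowers x)
    exact this

theorem NN_card_mul_lt (hx : orderOf x = p) (hp2 : ¬ p ^ 2 ∣ Nat.card H)
    (h0 : H) (hh0 : ¬ InN x h0) : Nat.card (NN hx) * p < Nat.card H := by
  have hcard : Nat.card (zpowers x) = p := by rw [Nat.card_zpowers, hx]
  have hfac : (Nat.card H).factorization p = 1 := by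
    have h1 : p ∣ Nat.card H := by
      rw [← hx]; exact orderOf_dvd_natCard x
    have h2 := (Nat.Prime.dvd_iff_one_le_factorization (Fact.out : p.Prime)
      (Nat.card_pos (α := H)).ne').1 h1
    have h3 : ¬ 2 ≤ (Nat.card H).factorization p := by
      intro h
      exact hp2 ((Nat.Prime.pow_dvd_iff_le_factorization (Fact.out : p.Prime)
        (Nat.card_pos (α := H)).ne').2 h)
    omega
  let P : Sylow p H := Sylow.ofCard (zpowers x) (by rw [hcard, hfac, pow_one])
  have hP : (P : Set H) = (zpowers x : Set H) := rfl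
  have h1 := card_sylow_modEq_one p H
  rw [P.card_eq_index_normalizer, hP, ← NN_eq hx] at h1
  have h2 : (NN hx).index ≠ 1 := by
    rw [Ne, index_eq_one]
    intro h
    apply hh0
    rw [← mem_NN hx, h]
    exact mem_top _
  have h3 : (NN hx).index ≠ 0 := index_ne_zero_of_finite
  have h4 : p < (NN hx).index := by
    have h5 : p ∣ (NN hx).index - 1 := (Nat.modEq_iff_dvd' (by omega)).1 h1.symm
    have h6 := Nat.le_of_dvd (by omega) h5
    omega
  have h7 := (NN hx).card_mul_index
  have h8 : 0 < Nat.card (NN hx) := Nat.card_pos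
  rw [← h7]
  exact Nat.mul_lt_mul_of_pos_left h4 h8

/-- conjugacy relation on exponents. -/
def Rel (x : H) (k l : ZMod p) : Prop := ∃ h, InN x h ∧ l * nlog p x h = k

theorem Rel_refl (hx : orderOf x = p) (k : ZMod p) : Rel x k k :=
  ⟨1, InN_one, by rw [nlog_of_CC hx (one_mem _), mul_one]⟩

theorem Rel_symm (hx : orderOf x = p) {k l : ZMod p} (h : Rel x k l) : Rel x l k := by
  obtain ⟨h, hh, e⟩ := h
  refine ⟨h⁻¹, InN_inv hx hh, ?_⟩
  rw [nlog_inv hx hh, ← e, mul_assoc, mul_inv_cancel₀ (nlog_ne_zero hx hh), mul_one]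

theorem Rel_trans (hx : orderOf x = p) {k l m : ZMod p} (h : Rel x k l) (h' : Rel x l m) :
    Rel x k m := by
  obtain ⟨h, hh, e⟩ := h
  obtain ⟨h', hh', e'⟩ := h'
  refine ⟨h * h', InN_mul hh hh', ?_⟩
  rw [nlog_mul hx hh hh', ← e, ← e']
  ring

theorem Rel_zero (hx : orderOf x = p) {l : ZMod p} (h : Rel x 0 l) : l = 0 := by
  obtain ⟨h, hh, e⟩ := h
  exact (mul_eq_zero.1 e).resolve_right (nlog_ne_zero hx hh)

open Classical in
theorem count_rel (hx : orderOf x = p) {k l : ZMod p} (hl : l ≠ 0) :
    (Finset.univ.filter (fun h : H => InN x h ∧ l * nlog p x h = k)).card =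
      if Rel x k l then Nat.card (CC x) else 0 := by
  split_ifs with h
  · obtain ⟨h0, hh0, e0⟩ := h
    have h2 : Nat.card (CC x) = (Finset.univ.filter (fun y => y ∈ CC x)).card := by
      rw [Nat.card_eq_fintype_card, Fintype.card_subtype]
    rw [h2]
    symm
    apply Finset.card_bij (fun c _ => c * h0)
    · intro c hc
      rw [Finset.mem_filter] at hc ⊢
      refine ⟨Finset.mem_univ _, InN_mul (InN_of_CC hc.2) hh0, ?_⟩
      rw [nlog_mul hx (InN_of_CC hc.2) hh0, nlog_of_CC hx hc.2, mul_one, e0]
    · intro c _ c' _ hcc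
      exact mul_right_cancel hcc
    · intro h hh
      rw [Finset.mem_filter] at hh
      refine ⟨h * h0⁻¹, ?_, by group⟩
      rw [Finset.mem_filter]
      refine ⟨Finset.mem_univ _, ?_⟩
      have e : nlog p x h = nlog p x h0 := by
        have := hh.2.2
        rw [← e0] at this
        exact mul_left_cancel₀ hl this
      apply CC_of_nlog hx (InN_mul hh.2.1 (InN_inv hx hh0))
      rw [nlog_mul hx hh.2.1 (InN_inv hx hh0), nlog_inv hx hh0, e,
        inv_mul_cancel₀ (nlog_ne_zero hx hh0)]
  · rw [Finset.card_eq_zero, Finset.filter_eq_empty_iff]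
    intro h' _ hh'
    exact h ⟨h', hh'⟩

/-- number of exponents realised by the normalizer. -/
def ff (p : ℕ) [Fact p.Prime] (x : H) : ℕ := by
  classical
  exact ((Finset.univ.filter (fun h : H => InN x h)).image (nlog p x)).card

open Classical in
theorem ff_mul_le (hx : orderOf x = p) : ff p x * p ≤ Nat.card (NN hx) := by
  have h2 : Nat.card (NN hx) = (Finset.univ.filter (fun h : H => InN x h)).card := by
    rw [Nat.card_eq_fintype_card, ← Fintype.card_subtype]
    rfl
  rw [h2, ff, mul_comm]
  have h3 : (Finset.univ.filter (fun h : H => InN x h)).card =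
      ∑ b ∈ (Finset.univ.filter (fun h : H => InN x h)).image (nlog p x),
        ((Finset.univ.filter (fun h : H => InN x h)).filter (fun h => nlog p x h = b)).card :=
    Finset.card_eq_sum_card_image _ _
  rw [h3]
  have h4 : ∀ b ∈ (Finset.univ.filter (fun h : H => InN x h)).image (nlog p x),
      p ≤ ((Finset.univ.filter (fun h : H => InN x h)).filter (fun h => nlog p x h = b)).card := by
    intro b hb
    obtain ⟨h0, hh0, rfl⟩ := Finset.mem_image.1 hb
    rw [Finset.mem_filter] at hh0
    have h5 := count_rel hx (k := nlog p x h0) (l := 1) one_ne_zero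
    rw [if_pos ⟨h0, hh0.2, by rw [one_mul]⟩] at h5
    have h6 : (Finset.univ.filter (fun h : H => InN x h)).filter
        (fun h => nlog p x h = nlog p x h0) =
        Finset.univ.filter (fun h : H => InN x h ∧ 1 * nlog p x h = nlog p x h0) := by
      ext h; simp
    rw [h6, h5, card_CC hx]
    apply Nat.le_mul_of_pos_right
    have : 0 < Nat.card (CC x) := Nat.card_pos
    rw [card_CC hx] at this
    exact Nat.pos_of_mul_pos_left this
  calc p * _ = ∑ b ∈ (Finset.univ.filter (fun h : H => InN x h)).image (nlog p x), p := by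
        rw [Finset.sum_const, smul_eq_mul, mul_comm]
    _ ≤ _ := Finset.sum_le_sum h4

open Classical in
theorem class_card_le (hx : orderOf x = p) (k : ZMod p) :
    (Finset.univ.filter (fun l : ZMod p => Rel x k l)).card ≤ ff p x := by
  rw [ff]
  have h1 : Finset.univ.filter (fun l : ZMod p => Rel x k l) ⊆
      ((Finset.univ.filter (fun h : H => InN x h)).image (nlog p x)).image (fun u => k * u) := by
    intro l hl
    rw [Finset.mem_filter] at hl
    obtain ⟨h, hh, e⟩ := Rel_symm hx hl.2
    rw [Finset.mem_image]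
    exact ⟨nlog p x h, Finset.mem_image.2 ⟨h, by simpa using hh, rfl⟩, e⟩
  exact (Finset.card_le_card h1).trans Finset.card_image_le

end

end Pool.Agent.Hhelper5.Roots
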