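import Mathlib

set_option autoImplicit false
set_option linter.all false

namespace Pool.Agent.Hhelper5.Roots

/-- An integer vector of squared norm two, orthogonal to a positive weight, is a difference of
two distinct unit vectors. -/
theorem diff_two {I : Type} [Fintype I] [DecidableEq I] (w : I → ℤ) (hw : ∀ i, 0 < w i)
    (D : I → ℤ) (h2 : ∑ i, D i * D i = 2) (h0 : ∑ i, w i * D i = 0) :
    ∃ s t, s ≠ t ∧ D s = 1 ∧ D t = -1 ∧ ∀ i, i ≠ s → i ≠ t → D i = 0 := by
  have hne : ∃ i, D i ≠ 0 := by
    by_contra hcon
    push Not at hcon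
    simp [hcon] at h2
  have hbd : ∀ i, D i ≤ 1 ∧ -1 ≤ D i := by
    intro i
    have h1 : D i * D i ≤ 2 := by
      rw [← h2]
      exact Finset.single_le_sum (f := fun i => D i * D i) (fun j _ => mul_self_nonneg _)
        (Finset.mem_univ i)
    constructor <;> nlinarith
  obtain ⟨s, hs⟩ : ∃ i, 0 < D i := by
    by_contra hcon
    push Not at hcon
    obtain ⟨i, hi⟩ := hne
    have : ∑ i, w i * D i < 0 := by
      apply Finset.sum_neg' 
      · intro j _
        exact mul_nonpos_of_nonneg_of_nonpos (hw j).le (hcon j)
      · exact ⟨i, Finset.mem_univ i, mul_neg_of_pos_of_neg (hw i) (lt_of_le_of_ne (hcon i) hi)⟩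
    omega
  obtain ⟨t, ht⟩ : ∃ i, D i < 0 := by
    by_contra hcon
    push Not at hcon
    have : 0 < ∑ i, w i * D i := by
      apply Finset.sum_pos'
      · intro j _
        exact mul_nonneg (hw j).le (hcon j)
      · exact ⟨s, Finset.mem_univ s, mul_pos (hw s) hs⟩
    omega
  have hs1 : D s = 1 := by have := (hbd s).1; omega
  have ht1 : D t = -1 := by have := (hbd t).2; omega
  have hst : s ≠ t := by rintro rfl; omega
  refine ⟨s, t, hst, hs1, ht1, ?_⟩
  intro i his hit
  by_contra hi
  have h3 : ∑ j ∈ ({s, t, i} : Finset I), D j * D j ≤ 2 := by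
    rw [← h2]
    exact Finset.sum_le_univ_sum_of_nonneg fun j => mul_self_nonneg _
  rw [Finset.sum_insert (by simp [hst, his.symm]), Finset.sum_insert (by simp [hit.symm]),
    Finset.sum_singleton, hs1, ht1] at h3
  have : 0 < D i * D i := mul_self_pos.2 hi
  omega

/-- The coherence lemma. -/
theorem coherence {I L : Type} [Fintype I] [DecidableEq I] [Fintype L] [DecidableEq L]
    [Nonempty L]
    (r : L → L → Prop) [∀ k l, Decidable (r k l)] (hr : Equivalence r)
    (f : ℕ) (hf : ∀ k, (Finset.univ.filter (fun l => r k l)).card ≤ f)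
    (w : I → ℤ) (hw : ∀ i, 0 < w i) (a : L → I → ℤ) (ha : ∀ k i, 0 ≤ a k i) (R : ℤ)
    (h1 : ∀ k l, ∑ i, a k i * a l i = R + if r k l then 1 else 0)
    (h2 : ∀ k l, ∑ i, w i * a k i = ∑ i, w i * a l i)
    (h3 : (f : ℤ) * (R + 2) < Fintype.card L) :
    ∃ (χ : L → I) (b : I → ℤ), (∀ i, 0 ≤ b i) ∧
      (∀ k i, a k i = b i + if i = χ k then 1 else 0) ∧
      (∀ k l, χ k = χ l → r k l) ∧ (∀ k l, r k l → a k = a l) := by
  classical
  obtain ⟨k0⟩ := (inferInstance : Nonempty L)
  have hnorm : ∀ k, ∑ i, a k i * a k i = R + 1 := by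
    intro k; rw [h1, if_pos (hr.refl k)]
  have hdist : ∀ k l, ∑ i, (a k i - a l i) * (a k i - a l i) =
      2 - if r k l then 2 else 0 := by
    intro k l
    have : ∑ i, (a k i - a l i) * (a k i - a l i) =
        ∑ i, a k i * a k i + ∑ i, a l i * a l i - 2 * ∑ i, a k i * a l i := by
      rw [Finset.mul_sum, ← Finset.sum_add_distrib, ← Finset.sum_sub_distrib]
      exact Finset.sum_congr rfl fun i _ => by ring
    rw [this, hnorm, hnorm, h1]
    split_ifs <;> ring
  have heq : ∀ k l, r k l → a k = a l := by
    intro k l hkl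
    have h := hdist k l
    rw [if_pos hkl, sub_self] at h
    funext i
    have h' := (Finset.sum_eq_zero_iff_of_nonneg (fun i _ => mul_self_nonneg _)).1 h i
      (Finset.mem_univ i)
    have := mul_self_eq_zero.1 h'
    omega
  have heq' : ∀ k l, a k = a l → r k l := by
    intro k l hkl
    by_contra hn
    have h := h1 k l
    rw [if_neg hn, hkl, hnorm] at h
    omega
  have hR : -1 ≤ R := by
    have : 0 ≤ ∑ i, a k0 i * a k0 i := Finset.sum_nonneg fun i _ => mul_self_nonneg _
    rw [hnorm] at this
    omega
  have hD : ∀ k l, ¬ r k l → ∃ s t, s ≠ t ∧ a k s - a l s = 1 ∧ a k t - a l t = -1 ∧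
      ∀ i, i ≠ s → i ≠ t → a k i - a l i = 0 := by
    intro k l hkl
    apply diff_two w hw (fun i => a k i - a l i)
    · rw [hdist, if_neg hkl]; rfl
    · have : ∑ i, w i * (a k i - a l i) = ∑ i, w i * a k i - ∑ i, w i * a l i := by
        rw [← Finset.sum_sub_distrib]
        exact Finset.sum_congr rfl fun i _ => by ring
      rw [this, h2 k l, sub_self]
  have hD0 : ∀ l, ∃ s t, ¬ r k0 l → (s ≠ t ∧ a k0 s - a l s = 1 ∧ a k0 t - a l t = -1 ∧
      ∀ i, i ≠ s → i ≠ t → a k0 i - a l i = 0) := by
    intro l
    by_cases h : r k0 l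
    · have hI : Nonempty I := by
        by_contra hI
        rw [not_nonempty_iff] at hI
        have h4 := hnorm k0
        simp at h4
        have h5 : (Finset.univ : Finset L).card ≤ f := by
          refine le_trans (Finset.card_le_card ?_) (hf k0)
          intro l _
          simp only [Finset.mem_filter, Finset.mem_univ, true_and]
          exact heq' _ _ (Subsingleton.elim _ _)
        rw [Finset.card_univ] at h5
        have h6 : R + 2 = 1 := by omega
        rw [h6, mul_one] at h3
        omega
      obtain ⟨i⟩ := hI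
      exact ⟨i, i, fun hn => absurd h hn⟩
    · obtain ⟨s, t, hst⟩ := hD k0 l h
      exact ⟨s, t, fun _ => hst⟩
  choose s t hst using hD0
  have hclass : ((Finset.univ.filter (fun l => r k0 l)).card : ℤ) ≤ f := by
    exact_mod_cast hf k0
  have hsplit : ((Finset.univ.filter (fun l => r k0 l)).card : ℤ) +
      ((Finset.univ.filter (fun l => ¬ r k0 l)).card : ℤ) = Fintype.card L := by
    exact_mod_cast Finset.card_filter_add_card_filter_not (s := (Finset.univ : Finset L)) (fun l => r k0 l)
  have hpos : ∀ l, ¬ r k0 l → 1 ≤ a k0 (s l) := by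
    intro l hl
    have h4 := (hst l hl).2.1
    have h5 := ha l (s l)
    omega
  -- key claim
  have hkey : ∀ l l', ¬ r k0 l → ¬ r k0 l' → s l ≠ s l' → t l = t l' := by
    intro l l' hl hl' hs
    obtain ⟨e1, e2, e3, e4⟩ := hst l hl
    obtain ⟨e1', e2', e3', e4'⟩ := hst l' hl'
    have hll' : ¬ r l l' := by
      intro h
      apply hs
      have h5 := heq l l' h
      by_contra hne
      by_cases h6 : s l = t l'
      · rw [h5, h6] at e2
        omega
      · have := e4' (s l) hne h6
        rw [h5] at e2
        omega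
    obtain ⟨s', t', f1, f2, f3, f4⟩ := hD l l' hll'
    by_contra htt
    -- evaluate at `s l`
    have g1 : a l (s l) - a l' (s l) ≤ -1 := by
      by_cases h6 : s l = t l'
      · have := e3'
        rw [← h6] at this
        omega
      · have := e4' (s l) hs h6
        omega
    have g2 : a l (t l') - a l' (t l') ≤ -1 := by
      by_cases h6 : t l' = s l
      · have := e2
        rw [← h6] at this
        omega
      · have := e4 (t l') h6 (Ne.symm htt)
        omega
    have k1 : s l = t' := by
      by_contra h7
      by_cases h8 : s l = s'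
      · rw [h8] at g1; omega
      · have := f4 (s l) h8 h7; omega
    have k2 : t l' = t' := by
      by_contra h7
      by_cases h8 : t l' = s'
      · rw [h8] at g2; omega
      · have := f4 (t l') h8 h7; omega
    have k3 : s l = t l' := by rw [k1, k2]
    have := e3'
    rw [← k3] at this
    rw [← k1] at f3
    omega
  -- `s` is constant
  have hconst : ∀ l l', ¬ r k0 l → ¬ r k0 l' → s l = s l' := by
    intro l1 l2 hl1 hl2
    by_contra hne
    have ht12 := hkey l1 l2 hl1 hl2 hne
    have htc : ∀ l, ¬ r k0 l → t l = t l1 := by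
      intro l hl
      by_cases h : s l = s l1
      · rw [ht12]
        apply hkey l l2 hl hl2
        rw [h]; exact hne
      · exact hkey l l1 hl hl1 h
    -- fibres of `s`
    have hfib : ∀ l l', ¬ r k0 l → ¬ r k0 l' → s l = s l' → r l l' := by
      intro l l' hl hl' hs
      apply heq'
      obtain ⟨e1, e2, e3, e4⟩ := hst l hl
      obtain ⟨e1', e2', e3', e4'⟩ := hst l' hl'
      have ht : t l = t l' := by rw [htc l hl, htc l' hl']
      funext i
      by_cases h5 : i = s l
      · have h6 : i = s l' := by rw [h5, hs]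
        rw [← h5] at e2; rw [← h6] at e2'; omega
      · by_cases h7 : i = t l
        · have h8 : i = t l' := by rw [h7, ht]
          rw [← h7] at e3; rw [← h8] at e3'; omega
        · have := e4 i h5 h7
          have := e4' i (by rw [← hs]; exact h5) (by rw [← ht]; exact h7)
          omega
    have hcard1 : (Finset.univ.filter (fun l => ¬ r k0 l)).card ≤
        f * ((Finset.univ.filter (fun l => ¬ r k0 l)).image s).card := by
      apply Finset.card_le_mul_card_image
      intro i hi
      obtain ⟨l, hl, rfl⟩ := Finset.mem_image.1 hi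
      rw [Finset.mem_filter] at hl
      refine le_trans (Finset.card_le_card ?_) (hf l)
      intro l' hl'
      rw [Finset.mem_filter, Finset.mem_filter] at hl'
      rw [Finset.mem_filter]
      exact ⟨Finset.mem_univ _, hfib l l' hl.2 hl'.1.2 hl'.2.symm⟩
    have hcard2 : ((((Finset.univ.filter (fun l => ¬ r k0 l)).image s).card : ℕ) : ℤ) ≤ R + 1 := by
      rw [← hnorm k0]
      calc ((((Finset.univ.filter (fun l => ¬ r k0 l)).image s).card : ℕ) : ℤ)
          = ∑ i ∈ (Finset.univ.filter (fun l => ¬ r k0 l)).image s, (1 : ℤ) := by simp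
        _ ≤ ∑ i ∈ (Finset.univ.filter (fun l => ¬ r k0 l)).image s, a k0 i * a k0 i := by
            apply Finset.sum_le_sum
            intro i hi
            obtain ⟨l, hl, rfl⟩ := Finset.mem_image.1 hi
            rw [Finset.mem_filter] at hl
            have := hpos l hl.2
            nlinarith
        _ ≤ ∑ i, a k0 i * a k0 i :=
            Finset.sum_le_univ_sum_of_nonneg fun j => mul_self_nonneg _
    have hcard3 : (((Finset.univ.filter (fun l => ¬ r k0 l)).card : ℕ) : ℤ) ≤ f * (R + 1) := by
      calc (((Finset.univ.filter (fun l => ¬ r k0 l)).card : ℕ) : ℤ)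
          ≤ f * ((((Finset.univ.filter (fun l => ¬ r k0 l)).image s).card : ℕ) : ℤ) := by
            exact_mod_cast hcard1
        _ ≤ f * (R + 1) := by
            apply mul_le_mul_of_nonneg_left hcard2
            positivity
    nlinarith
  -- there is some label outside the class of `k0`
  obtain ⟨l1, hl1⟩ : ∃ l, ¬ r k0 l := by
    by_contra hcon
    push Not at hcon
    have : (Finset.univ.filter (fun l => ¬ r k0 l)) = ∅ := by
      ext l; simp [hcon l]
    rw [this] at hsplit
    simp only [Finset.card_empty, Nat.cast_zero, add_zero] at hsplit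
    have hf0 : (0 : ℤ) ≤ f := by positivity
    nlinarith
  suffices hmain : ∀ l i, a l i = (a k0 i - if i = s l1 then 1 else 0) +
      if i = (if r k0 l then s l1 else t l) then 1 else 0 by
    refine ⟨fun l => if r k0 l then s l1 else t l, fun i => a k0 i - if i = s l1 then 1 else 0,
      ?_, hmain, ?_, heq⟩
    · intro i
      dsimp only
      split_ifs with h
      · rw [h]; have := hpos l1 hl1; omega
      · have := ha k0 i; omega
    · intro k l hkl
      apply heq'
      funext i
      rw [hmain k i, hmain l i]
      simp only at hkl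
      rw [hkl]
  intro l i
  · by_cases hl : r k0 l
    · simp only [if_pos hl, ← heq k0 l hl]
      ring
    · simp only [if_neg hl]
      obtain ⟨e1, e2, e3, e4⟩ := hst l hl
      have hs := hconst l l1 hl hl1
      by_cases h5 : i = s l
      · rw [if_pos (by rw [h5, hs]), if_neg (by rw [h5]; exact e1), h5]
        omega
      · rw [if_neg (by rw [← hs]; exact h5)]
        by_cases h7 : i = t l
        · rw [if_pos h7, h7]; omega
        · rw [if_neg h7]
          have := e4 i h5 h7
          omega

end Pool.Agent.Hhelper5.Roots
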