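import Mathlib
import Pool.Agent.Hhelper5.Roots.Bounds
import Pool.Agent.Hhelper5.Roots.Comb

set_option autoImplicit false
set_option linter.all false

namespace Pool.Agent.Hhelper5.Roots

noncomputable section

open Subgroup

variable {H : Type} [Group H] [Fintype H] {p : ℕ} [Fact p.Prime] {x : H}

theorem eC_idem (hx : orderOf x = p) (k : ZMod p) : eC x k * eC x k = eC x k :=
  idem_mul_idem (isChar_CC hx k)

theorem eP_idem (hx : orderOf x = p) (k : ZMod p) : eP x k * eP x k = eP x k :=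
  idem_mul_idem (isChar_P hx k)

theorem eP_eC (hx : orderOf x = p) (k : ZMod p) : eP x k * eC x k = eC x k :=
  idem_mul_of (isChar_P hx k) _ fun y hy => single_mul_idem (isChar_CC hx k) (zpowers_le_CC hy)

theorem eC_eP (hx : orderOf x = p) (k : ZMod p) : eC x k * eP x k = eC x k :=
  mul_idem_of (isChar_P hx k) _ fun y hy => idem_mul_single (isChar_CC hx k) (zpowers_le_CC hy)

theorem th_of_zero (k : ZMod p) {y : H} (hy : Llog p x y = 0) : th x k y = 1 := by
  simp [th, hy]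

theorem sum_eP (hx : orderOf x = p) (hg : Good p x) : ∑ k : ZMod p, eP x k = 1 := by
  classical
  ext g
  rw [MonoidAlgebra.coeff_sum, Finsupp.finset_sum_apply]
  simp_rw [eP, idem_coeff]
  have hcard : Nat.card (zpowers x) = p := by rw [Nat.card_zpowers, hx]
  have hp0 : (p : ℂ) ≠ 0 := by exact_mod_cast (Fact.out : p.Prime).ne_zero
  rw [MonoidAlgebra.one_def, MonoidAlgebra.coeff_single]
  by_cases hgK : g ∈ zpowers x
  · simp only [if_pos hgK, hcard]
    rw [← Finset.sum_div]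
    have h1 : ∑ k : ZMod p, th x k g⁻¹ = if Llog p x g⁻¹ = 0 then (p : ℂ) else 0 := by
      simp only [th]
      have := AddChar.sum_mulShift (Llog p x g⁻¹) (ZMod.isPrimitive_stdAddChar p)
      simpa using this
    rw [h1]
    by_cases h2 : g = 1
    · subst h2
      have : Llog p x (1 : H)⁻¹ = 0 := by
        have := Llog_pow_x hx 0
        simpa using this
      rw [if_pos this]
      simp [hp0]
    · have h3 : Llog p x g⁻¹ ≠ 0 := by
        intro h4
        apply h2
        have h5 := pow_dlog hx hgK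
        rw [Llog_inv hx (zpowers_le_CC hgK), neg_eq_zero, ← h5, Llog_pow_x hx] at h4
        rcases mul_eq_zero.1 h4 with h6 | h6
        · rw [← h5]
          simp only [ZMod.natCast_val, ZMod.cast_id', id_eq] at h6
          rw [h6]; simp
        · exact absurd h6 hg
      rw [if_neg h3]
      simp [Finsupp.single_apply, Ne.symm h2]
  · simp only [if_neg hgK]
    have h2 : g ≠ 1 := by rintro rfl; exact hgK (one_mem _)
    simp [Finsupp.single_apply, Ne.symm h2]

variable {n : ℕ} {d : Fin n → ℕ}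
  (Φ : MonoidAlgebra ℂ H ≃ₐ[ℂ] Π i, Matrix (Fin (d i)) (Fin (d i)) ℂ)

theorem block_idem {e : MonoidAlgebra ℂ H} (he : e * e = e) (i : Fin n) :
    Φ e i * Φ e i = Φ e i := by
  rw [← Pi.mul_apply, ← map_mul, he]

/-- rank of the image of an idempotent in block `i`. -/
def rk (e : MonoidAlgebra ℂ H) (i : Fin n) : ℕ := by
  classical
  exact if he : e * e = e then (trace_idem (Φ e i) (block_idem Φ he i)).choose else 0

theorem rk_spec {e : MonoidAlgebra ℂ H} (he : e * e = e) (i : Fin n) :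
    (Φ e i).trace = (rk Φ e i : ℂ) := by
  rw [rk, dif_pos he]
  exact (trace_idem (Φ e i) (block_idem Φ he i)).choose_spec.1

theorem rk_zero {e : MonoidAlgebra ℂ H} (he : e * e = e) (i : Fin n) (h : rk Φ e i = 0) :
    Φ e i = 0 := by
  rw [rk, dif_pos he] at h
  exact (trace_idem (Φ e i) (block_idem Φ he i)).choose_spec.2 h

theorem rk_sub {e e' : MonoidAlgebra ℂ H} (he : e * e = e) (he' : e' * e' = e')
    (h1 : e * e' = e') (h2 : e' * e = e') (i : Fin n) :
    rk Φ (e - e') i + rk Φ e' i = rk Φ e i := by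
  have h3 : (e - e') * (e - e') = e - e' := by
    rw [sub_mul, mul_sub, mul_sub, he, h1, h2, he']
    simp
  have h4 := rk_spec Φ h3 i
  have h5 := rk_spec Φ he i
  have h6 := rk_spec Φ he' i
  rw [map_sub, Pi.sub_apply, Matrix.trace_sub, h5, h6] at h4
  have : ((rk Φ (e - e') i + rk Φ e' i : ℕ) : ℂ) = (rk Φ e i : ℂ) := by
    push_cast
    rw [← h4]; ring
  exact_mod_cast this

theorem sub_idem {e e' : MonoidAlgebra ℂ H} (he : e * e = e) (he' : e' * e' = e')
    (h1 : e * e' = e') (h2 : e' * e = e') : (e - e') * (e - e') = e - e' := by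
  rw [sub_mul, mul_sub, mul_sub, he, h1, h2, he']
  simp

/-- (F1) -/
theorem F1 (hx : orderOf x = p) (hg : Good p x) :
    ∃ R : ℤ, ∀ k l : ZMod p, l ≠ 0 →
      ∑ i, (rk Φ (eC x k) i : ℤ) * (rk Φ (eC x l) i : ℤ) = R + by
        classical exact if Rel x k l then 1 else 0 := by
  classical
  have key : ∀ k l : ZMod p, l ≠ 0 →
      ∑ i, (rk Φ (eC x k) i : ℂ) * (rk Φ (eC x l) i : ℂ) =
      ((Finset.univ.filter (fun q : H × H => ¬ InN x q.1 ∧ q.2 ∈ CC x ∧
        q.1⁻¹ * q.2 * q.1 ∈ CC x)).card : ℂ) / ((Nat.card (CC x) : ℂ) * (Nat.card (CC x) : ℂ)) +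
        if Rel x k l then 1 else 0 := by
    intro k l hl
    have h1 := trace_idem_idem Φ hx hg (CC x) (CC x) le_rfl le_rfl (zpowers_le_CC (mem_zpowers x))
      (fun h g hh hg => conj_CC hx hh hg) k l
    have h2 : ∑ i, (rk Φ (eC x k) i : ℂ) * (rk Φ (eC x l) i : ℂ) =
        ∑ i, (Φ (idem (CC x) (th x k)) i).trace * (Φ (idem (CC x) (th x l)) i).trace := by
      refine Finset.sum_congr rfl fun i _ => ?_
      rw [← rk_spec Φ (eC_idem hx k), ← rk_spec Φ (eC_idem hx l)]
      rfl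
    rw [h2, h1, count_rel hx hl]
    have hC0 : (Nat.card (CC x) : ℂ) ≠ 0 := by exact_mod_cast (Nat.card_pos (α := CC x)).ne'
    congr 1
    split_ifs
    · exact div_self hC0
    · simp
  refine ⟨∑ i, (rk Φ (eC x (1 : ZMod p)) i : ℤ) * (rk Φ (eC x (1 : ZMod p)) i : ℤ) - 1, ?_⟩
  intro k l hl
  have h1 := key k l hl
  have h2 := key 1 1 one_ne_zero
  rw [if_pos (Rel_refl hx 1)] at h2
  have h3 : (((∑ i, (rk Φ (eC x k) i : ℤ) * (rk Φ (eC x l) i : ℤ) : ℤ)) : ℂ) =
      ((∑ i, (rk Φ (eC x (1 : ZMod p)) i : ℤ) * (rk Φ (eC x (1 : ZMod p)) i : ℤ) - 1 +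
        (if Rel x k l then 1 else 0) : ℤ) : ℂ) := by
    push_cast
    rw [h1, h2]
    ring
  exact_mod_cast h3

/-- (F2) -/
theorem F2 (hx : orderOf x = p) (hg : Good p x) :
    ∃ R : ℤ, ∀ k l : ZMod p, l ≠ 0 →
      ∑ i, (rk Φ (eP x k) i : ℤ) * (rk Φ (eC x l) i : ℤ) = R + by
        classical exact if Rel x k l then 1 else 0 := by
  classical
  have key : ∀ k l : ZMod p, l ≠ 0 →
      ∑ i, (rk Φ (eP x k) i : ℂ) * (rk Φ (eC x l) i : ℂ) =
      ((Finset.univ.filter (fun q : H × H => ¬ InN x q.1 ∧ q.2 ∈ zpowers x ∧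
        q.1⁻¹ * q.2 * q.1 ∈ CC x)).card : ℂ) / ((Nat.card (zpowers x) : ℂ) * (Nat.card (CC x) : ℂ)) +
        if Rel x k l then 1 else 0 := by
    intro k l hl
    have h1 := trace_idem_idem Φ hx hg (zpowers x) (CC x) zpowers_le_CC le_rfl
      (mem_zpowers x)
      (fun h g hh hg => conj_CC hx hh (zpowers_le_CC hg)) k l
    have h2 : ∑ i, (rk Φ (eP x k) i : ℂ) * (rk Φ (eC x l) i : ℂ) =
        ∑ i, (Φ (idem (zpowers x) (th x k)) i).trace * (Φ (idem (CC x) (th x l)) i).trace := by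
      refine Finset.sum_congr rfl fun i _ => ?_
      rw [← rk_spec Φ (eP_idem hx k), ← rk_spec Φ (eC_idem hx l)]
      rfl
    rw [h2, h1, count_rel hx hl]
    have hC0 : (Nat.card (CC x) : ℂ) ≠ 0 := by exact_mod_cast (Nat.card_pos (α := CC x)).ne'
    congr 1
    split_ifs
    · exact div_self hC0
    · simp
  refine ⟨∑ i, (rk Φ (eP x (1 : ZMod p)) i : ℤ) * (rk Φ (eC x (1 : ZMod p)) i : ℤ) - 1, ?_⟩
  intro k l hl
  have h1 := key k l hl
  have h2 := key 1 1 one_ne_zero
  rw [if_pos (Rel_refl hx 1)] at h2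
  have h3 : (((∑ i, (rk Φ (eP x k) i : ℤ) * (rk Φ (eC x l) i : ℤ) : ℤ)) : ℂ) =
      ((∑ i, (rk Φ (eP x (1 : ZMod p)) i : ℤ) * (rk Φ (eC x (1 : ZMod p)) i : ℤ) - 1 +
        (if Rel x k l then 1 else 0) : ℤ) : ℂ) := by
    push_cast
    rw [h1, h2]
    ring
  exact_mod_cast h3

/-- (F3) -/
theorem F3 (hx : orderOf x = p) (hg : Good p x) (k : ZMod p) :
    (∑ i, rk Φ (eP x k) i * rk Φ (eP x k) i) * p ^ 2 ≤ Nat.card H + Nat.card (NN hx) * p := by
  classical
  have hcard : Nat.card (zpowers x) = p := by rw [Nat.card_zpowers, hx]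
  have h1 := trace_idem_idem Φ hx hg (zpowers x) (zpowers x) le_rfl zpowers_le_CC
      (mem_zpowers x) (fun h g hh hg => conj_zpowers hh hg) k k
  have h2 : ∑ i, (rk Φ (eP x k) i : ℂ) * (rk Φ (eP x k) i : ℂ) =
      ∑ i, (Φ (idem (zpowers x) (th x k)) i).trace * (Φ (idem (zpowers x) (th x k)) i).trace := by
    refine Finset.sum_congr rfl fun i _ => ?_
    rw [← rk_spec Φ (eP_idem hx k)]
    rfl
  rw [← h2, hcard] at h1
  have hp0 : (p : ℂ) ≠ 0 := by exact_mod_cast (Fact.out : p.Prime).ne_zero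
  have h3 : ((∑ i, rk Φ (eP x k) i * rk Φ (eP x k) i) * p ^ 2 : ℕ) =
    (Finset.univ.filter (fun q : H × H => ¬ InN x q.1 ∧ q.2 ∈ zpowers x ∧
        q.1⁻¹ * q.2 * q.1 ∈ zpowers x)).card +
      (Finset.univ.filter (fun h : H => InN x h ∧ k * nlog p x h = k)).card * p := by
    have : (((∑ i, rk Φ (eP x k) i * rk Φ (eP x k) i) * p ^ 2 : ℕ) : ℂ) =
      (((Finset.univ.filter (fun q : H × H => ¬ InN x q.1 ∧ q.2 ∈ zpowers x ∧
        q.1⁻¹ * q.2 * q.1 ∈ zpowers x)).card +
      (Finset.univ.filter (fun h : H => InN x h ∧ k * nlog p x h = k)).card * p : ℕ) : ℂ) := by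
      push_cast
      rw [h1]
      field_simp
    exact_mod_cast this
  rw [h3]
  apply add_le_add
  · rw [Nat.card_eq_fintype_card, ← Finset.card_univ]
    apply Finset.card_le_card_of_injOn (fun q => q.1)
    · intro q _; exact Finset.mem_coe.2 (Finset.mem_univ _)
    · have hone : ∀ q : H × H, ¬ InN x q.1 → q.2 ∈ zpowers x →
          q.1⁻¹ * q.2 * q.1 ∈ zpowers x → q.2 = 1 := by
        intro q hq1 hq2 hq3
        by_contra hne
        apply hq1
        obtain ⟨j, hj⟩ := mem_zpowers_iff.1 (gen_of_ne_one hx hq2 hne)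
        have h4 : q.1⁻¹ * x * q.1 = (q.1⁻¹ * q.2 * q.1) ^ j := by
          have := conj_zpow (i := j) (a := q.1⁻¹) (b := q.2)
          rw [hj] at this
          simpa using this.symm
        rw [InN, h4]
        exact zpow_mem hq3 j
      intro q hq q' hq' hqq
      have hq1 := (Finset.mem_filter.1 (Finset.mem_coe.1 hq)).2
      have hq1' := (Finset.mem_filter.1 (Finset.mem_coe.1 hq')).2
      have e1 := hone q hq1.1 hq1.2.1 hq1.2.2
      have e2 := hone q' hq1'.1 hq1'.2.1 hq1'.2.2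
      exact Prod.ext hqq (by rw [e1, e2])
  · apply Nat.mul_le_mul_right
    have h5 : Nat.card (NN hx) = (Finset.univ.filter (fun h : H => InN x h)).card := by
      rw [Nat.card_eq_fintype_card, ← Fintype.card_subtype]
      rfl
    rw [h5]
    apply Finset.card_le_card
    intro h hh
    rw [Finset.mem_filter] at hh ⊢
    exact ⟨hh.1, hh.2.1⟩

/-- (F0) -/
theorem F0 (hx : orderOf x = p) (k l : ZMod p) :
    ∑ i, (d i : ℤ) * (rk Φ (eC x k) i : ℤ) = ∑ i, (d i : ℤ) * (rk Φ (eC x l) i : ℤ) := by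
  classical
  have key : ∀ k : ZMod p, ∑ i, (d i : ℂ) * (rk Φ (eC x k) i : ℂ) =
      (Nat.card H : ℂ) / (Nat.card (CC x) : ℂ) := by
    intro k
    have h1 := trace_identity H Φ 1 (eC x k)
    have h2 : ∑ i, (Φ 1 i).trace * (Φ (eC x k) i).trace =
        ∑ i, (d i : ℂ) * (rk Φ (eC x k) i : ℂ) := by
      refine Finset.sum_congr rfl fun i _ => ?_
      rw [rk_spec Φ (eC_idem hx k), map_one, Pi.one_apply, Matrix.trace_one, Fintype.card_fin]
    rw [← h2, h1]
    have h3 : ∀ h : H, ∑ g : H, (1 : MonoidAlgebra ℂ H).coeff g * (eC x k).coeff (h⁻¹ * g⁻¹ * h)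
        = 1 / (Nat.card (CC x) : ℂ) := by
      intro h
      rw [Finset.sum_eq_single 1]
      · rw [MonoidAlgebra.one_def]
        have : (h⁻¹ * (1 : H)⁻¹ * h) = 1 := by group
        rw [this, eC, idem_coeff, if_pos (one_mem _), inv_one, (isChar_CC hx k).1]
        simp
      · intro b _ hb
        rw [MonoidAlgebra.one_def]
        simp [Finsupp.single_apply, Ne.symm hb]
      · simp
    simp_rw [h3]
    rw [Finset.sum_const, Finset.card_univ, nsmul_eq_mul, Nat.card_eq_fintype_card (α := H)]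
    ring
  have h1 := (key k).trans (key l).symm
  exact_mod_cast h1

end

end Pool.Agent.Hhelper5.Roots
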