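import Mathlib
import Pool.Agent.Hhelper5.Roots.Exc

set_option autoImplicit false
set_option linter.all false

namespace Pool.Agent.Hhelper5.Roots

noncomputable section

open Subgroup

variable {H : Type} [Group H] [Fintype H] {p : ℕ} [Fact p.Prime] {x : H}

variable {n : ℕ} {d : Fin n → ℕ}
  (Φ : MonoidAlgebra ℂ H ≃ₐ[ℂ] Π i, Matrix (Fin (d i)) (Fin (d i)) ℂ)

theorem sum_rk_eP (hx : orderOf x = p) (hg : Good p x) (i : Fin n) :
    ∑ k : ZMod p, rk Φ (eP x k) i = d i := by
  have h1 : ∑ k : ZMod p, (Φ (eP x k) i).trace = (d i : ℂ) := by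
    rw [← Matrix.trace_sum]
    have : ∑ k : ZMod p, Φ (eP x k) i = (Φ (∑ k : ZMod p, eP x k)) i := by
      rw [map_sum, Finset.sum_apply]
    rw [this, sum_eP hx hg, map_one, Pi.one_apply, Matrix.trace_one, Fintype.card_fin]
  have h2 : ((∑ k : ZMod p, rk Φ (eP x k) i : ℕ) : ℂ) = (d i : ℂ) := by
    push_cast
    rw [← h1]
    exact Finset.sum_congr rfl fun k _ => (rk_spec Φ (eP_idem hx k) i).symm
  exact_mod_cast h2

theorem rk_eC_le (hx : orderOf x = p) (k : ZMod p) (i : Fin n) :
    rk Φ (eC x k) i ≤ rk Φ (eP x k) i := by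
  have := rk_sub Φ (eP_idem hx k) (eC_idem hx k) (eP_eC hx k) (eC_eP hx k) i
  omega

theorem eq_of_rk_eq (hx : orderOf x = p) (k : ZMod p) (i : Fin n)
    (h : rk Φ (eC x k) i = rk Φ (eP x k) i) : Φ (eC x k) i = Φ (eP x k) i := by
  have h1 := rk_sub Φ (eP_idem hx k) (eC_idem hx k) (eP_eC hx k) (eC_eP hx k) i
  have h2 : rk Φ (eP x k - eC x k) i = 0 := by omega
  have h3 := rk_zero Φ (sub_idem (eP_idem hx k) (eC_idem hx k) (eP_eC hx k) (eC_eP hx k)) i h2
  rw [map_sub, Pi.sub_apply, sub_eq_zero] at h3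
  exact h3.symm

theorem single_eC (hx : orderOf x = p) (k : ZMod p) {y : H} (hy : y ∈ CC x) :
    MonoidAlgebra.single y (1 : ℂ) * eC x k = th x k y • eC x k :=
  single_mul_idem (isChar_CC hx k) hy

theorem single_eP (hx : orderOf x = p) (k : ZMod p) {y : H} (hy : y ∈ zpowers x) :
    MonoidAlgebra.single y (1 : ℂ) * eP x k = th x k y • eP x k :=
  single_mul_idem (isChar_P hx k) hy

/-- every element of the centralizer is `x^j z` with `z` of trivial log. -/
theorem CC_decomp (hx : orderOf x = p) (hg : Good p x) {y : H} (hy : y ∈ CC x) :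
    ∃ j : ℕ, Llog p x ((x ^ j)⁻¹ * y) = 0 ∧ (x ^ j)⁻¹ * y ∈ CC x := by
  refine ⟨(Llog p x y * (cidx x : ZMod p)⁻¹).val, ?_, ?_⟩
  · have h1 : ∀ j : ℕ, x ^ j ∈ CC x := fun j => pow_mem (zpowers_le_CC (mem_zpowers x)) j
    rw [Llog_mul hx (inv_mem (h1 _)) hy, Llog_inv hx (h1 _), Llog_pow_x hx]
    have hg' : (cidx x : ZMod p) ≠ 0 := hg
    simp [hg']
  · exact mul_mem (inv_mem (pow_mem (zpowers_le_CC (mem_zpowers x)) _)) hy

/-- The exceptional block. -/
theorem exceptional (hx : orderOf x = p) (hg : Good p x) (B : ℕ)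
    (hB : Nat.card H < B * p ^ 2) (hNB : Nat.card (NN hx) < B * p)
    (hpB : 2 * B ^ 2 < p) (hd : ∀ i, 0 < d i) :
    ∃ i0 : Fin n, d i0 < B ∧ Φ (eP x (0 : ZMod p)) i0 = 0 ∧
      (∀ z ∈ CC x, Llog p x z = 0 → Φ (MonoidAlgebra.single z 1) i0 = 1) ∧
      (∀ i, Φ (eP x (0 : ZMod p)) i ≠ 0 → (∀ z ∈ CC x, Llog p x z = 0 → Φ (MonoidAlgebra.single z 1) i = 1) →
        d i < p → Φ (MonoidAlgebra.single x 1) i = 1) := by
  classical
  have hp : p.Prime := Fact.out
  have hBpos : 0 < B := by
    rcases Nat.eq_zero_or_pos B with h | h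
    · rw [h] at hNB; simp at hNB
    · exact h
  -- bounds
  have hff : ff p x < B := by
    have h1 := ff_mul_le hx
    have h2 : ff p x * p < B * p := lt_of_le_of_lt h1 hNB
    exact Nat.lt_of_mul_lt_mul_right h2
  have hF3 : ∀ k : ZMod p, ∑ i, rk Φ (eP x k) i * rk Φ (eP x k) i < 2 * B := by
    intro k
    have h1 := F3 Φ hx hg k
    have h2 : (∑ i, rk Φ (eP x k) i * rk Φ (eP x k) i) * p ^ 2 < 2 * B * p ^ 2 := by
      calc _ ≤ _ := h1
        _ < B * p ^ 2 + B * p * p := by
          apply add_lt_add hB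
          exact Nat.mul_lt_mul_of_pos_right hNB hp.pos
        _ = 2 * B * p ^ 2 := by ring
    exact Nat.lt_of_mul_lt_mul_right h2
  obtain ⟨R, hR⟩ := F1 Φ hx hg
  obtain ⟨R2, hR2⟩ := F2 Φ hx hg
  -- labels
  let L := {k : ZMod p // k ≠ 0}
  haveI : Nonempty L := ⟨⟨1, one_ne_zero⟩⟩
  have hcardL : Fintype.card L = p - 1 := by
    rw [Fintype.card_subtype_compl, ZMod.card]
    simp
  let r : L → L → Prop := fun k l => Rel x k.1 l.1
  have hr : Equivalence r := ⟨fun k => Rel_refl hx k.1, fun h => Rel_symm hx h,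
    fun h h' => Rel_trans hx h h'⟩
  have hclass : ∀ k : ZMod p, (Finset.univ.filter (fun l : L => Rel x k l.1)).card ≤ ff p x := by
    intro k
    refine le_trans ?_ (class_card_le hx k)
    apply Finset.card_le_card_of_injOn (fun l => l.1)
    · intro l hl
      have := (Finset.mem_filter.1 (Finset.mem_coe.1 hl)).2
      exact Finset.mem_coe.2 (Finset.mem_filter.2 ⟨Finset.mem_univ _, this⟩)
    · intro l _ l' _ h
      exact Subtype.ext h
  have hRle : R + 1 < 2 * B := by
    have h1 := hR 1 1 one_ne_zero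
    rw [if_pos (Rel_refl hx 1)] at h1
    rw [← h1]
    have h2 : ∑ i, (rk Φ (eC x (1 : ZMod p)) i : ℤ) * (rk Φ (eC x (1 : ZMod p)) i : ℤ) ≤
        ∑ i, (rk Φ (eP x (1 : ZMod p)) i : ℤ) * (rk Φ (eP x (1 : ZMod p)) i : ℤ) := by
      apply Finset.sum_le_sum
      intro i _
      have := rk_eC_le Φ hx 1 i
      exact_mod_cast Nat.mul_le_mul this this
    refine lt_of_le_of_lt h2 ?_
    exact_mod_cast hF3 1
  have hcoh := coherence r hr (ff p x) (fun k => hclass k.1) (fun i => (d i : ℤ))
    (fun i => by exact_mod_cast hd i) (fun (k : L) i => (rk Φ (eC x k.1) i : ℤ))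
    (fun k i => by positivity) R
    (fun k l => hR k.1 l.1 l.2) (fun k l => F0 Φ hx k.1 l.1) (by
      rw [hcardL]
      have h1 : (ff p x : ℤ) ≤ B - 1 := by
        have : (ff p x : ℤ) < B := by exact_mod_cast hff
        omega
      have h2 : R + 2 ≤ 2 * B := by omega
      have h3 : 0 ≤ R + 1 := by
        have h1 := hR 1 1 one_ne_zero
        rw [if_pos (Rel_refl hx 1)] at h1
        rw [← h1]
        exact Finset.sum_nonneg fun i _ => mul_self_nonneg _
      have h4 : ((p - 1 : ℕ) : ℤ) = (p : ℤ) - 1 := by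
        have := hp.one_lt
        push_cast [Nat.cast_sub this.le]
        ring
      rw [h4]
      have h5 : (2 * (B : ℤ) ^ 2) < p := by exact_mod_cast hpB
      have h6 : (0 : ℤ) ≤ ff p x := by positivity
      have h7 : (1 : ℤ) ≤ B := by exact_mod_cast hBpos
      nlinarith)
  obtain ⟨χ, b, hb0, hab, hχr, hra⟩ := hcoh
  have hra' : ∀ k l : L, r k l → ∀ i, rk Φ (eC x k.1) i = rk Φ (eC x l.1) i := by
    intro k l h i
    have := congrFun (hra k l h) i
    exact_mod_cast this
  -- fibres of χ
  have hfib : ∀ i : Fin n, (Finset.univ.filter (fun l : L => χ l = i)).card ≤ ff p x := by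
    intro i
    by_cases hi : ∃ l0, χ l0 = i
    · obtain ⟨l0, hl0⟩ := hi
      refine le_trans (Finset.card_le_card ?_) (hclass l0.1)
      intro l hl
      rw [Finset.mem_filter] at hl ⊢
      exact ⟨Finset.mem_univ _, hχr l0 l (by rw [hl0, hl.2])⟩
    · push Not at hi
      have : (Finset.univ.filter (fun l : L => χ l = i)) = ∅ := by
        rw [Finset.filter_eq_empty_iff]
        intro l _
        exact hi l
      rw [this]; simp
  -- F2'
  have hF2' : ∀ (k : ZMod p) (l : L), (rk Φ (eP x k) (χ l) : ℤ) = if Rel x k l.1 then 1 else 0 := by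
    intro k
    obtain ⟨κ, hκ⟩ : ∃ κ : ℤ, ∀ l : L, (rk Φ (eP x k) (χ l) : ℤ) =
        κ + if Rel x k l.1 then 1 else 0 := by
      refine ⟨R2 - ∑ i, (rk Φ (eP x k) i : ℤ) * b i, ?_⟩
      intro l
      have h1 := hR2 k l.1 l.2
      have h2 : ∑ i, (rk Φ (eP x k) i : ℤ) * (rk Φ (eC x l.1) i : ℤ) =
          ∑ i, (rk Φ (eP x k) i : ℤ) * b i + (rk Φ (eP x k) (χ l) : ℤ) := by
        have h3 : ∀ i, (rk Φ (eP x k) i : ℤ) * (rk Φ (eC x l.1) i : ℤ) =
            (rk Φ (eP x k) i : ℤ) * b i + if i = χ l then (rk Φ (eP x k) i : ℤ) else 0 := by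
          intro i
          rw [hab l i, mul_add]
          split_ifs <;> simp
        simp_rw [h3]
        rw [Finset.sum_add_distrib, Finset.sum_ite_eq' Finset.univ (χ l)]
        simp
      rw [h2] at h1
      linarith
    have hκ0 : κ = 0 := by
      rcases lt_trichotomy κ 0 with hneg | h0 | hpos
      · exfalso
        -- some label not related to k
        obtain ⟨l, hl⟩ : ∃ l : L, ¬ Rel x k l.1 := by
          by_contra hcon
          push Not at hcon
          have h1 : (Finset.univ.filter (fun l : L => Rel x k l.1)) = Finset.univ := by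
            rw [Finset.filter_true_of_mem]
            intro l _; exact hcon l
          have h2 := hclass k
          rw [h1, Finset.card_univ, hcardL] at h2
          have : 2 * B ^ 2 ≥ B := by nlinarith
          omega
        have h1 := hκ l
        rw [if_neg hl] at h1
        have : (0 : ℤ) ≤ (rk Φ (eP x k) (χ l) : ℤ) := by positivity
        omega
      · exact h0
      · exfalso
        have h1 : ∀ l : L, 1 ≤ rk Φ (eP x k) (χ l) := by
          intro l
          have h2 := hκ l
          have h3 : (0 : ℤ) ≤ if Rel x k l.1 then 1 else 0 := by split_ifs <;> norm_num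
          have h4 : (1 : ℤ) ≤ (rk Φ (eP x k) (χ l) : ℤ) := by omega
          exact_mod_cast h4
        have h2 : (Finset.univ : Finset L).card ≤ ff p x * ((Finset.univ : Finset L).image χ).card := by
          apply Finset.card_le_mul_card_image
          intro i _
          exact hfib i
        have h3 : ((Finset.univ : Finset L).image χ).card ≤
            ∑ i, rk Φ (eP x k) i * rk Φ (eP x k) i := by
          calc ((Finset.univ : Finset L).image χ).card
              = ∑ i ∈ (Finset.univ : Finset L).image χ, 1 := by simp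
            _ ≤ ∑ i ∈ (Finset.univ : Finset L).image χ, rk Φ (eP x k) i * rk Φ (eP x k) i := by
                apply Finset.sum_le_sum
                intro i hi
                obtain ⟨l, _, rfl⟩ := Finset.mem_image.1 hi
                have := h1 l
                nlinarith
            _ ≤ ∑ i, rk Φ (eP x k) i * rk Φ (eP x k) i :=
                Finset.sum_le_univ_sum_of_nonneg fun j => Nat.zero_le _
        have h4 := hF3 k
        rw [Finset.card_univ, hcardL] at h2
        have h5 : ff p x * ((Finset.univ : Finset L).image χ).card ≤ (B - 1) * (2 * B - 1) := by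
          apply Nat.mul_le_mul
          · omega
          · omega
        have h6 : (B - 1) * (2 * B - 1) + 1 ≤ 2 * B ^ 2 := by
          obtain ⟨c, rfl⟩ : ∃ c, B = c + 1 := ⟨B - 1, by omega⟩
          have : 2 * (c + 1) - 1 = 2 * c + 1 := by omega
          rw [this]
          simp only [Nat.add_sub_cancel]
          nlinarith
        omega
    intro l
    rw [hκ l, hκ0, zero_add]
  have hF2'0 : ∀ l : L, rk Φ (eP x (0 : ZMod p)) (χ l) = 0 := by
    intro l
    have h1 := hF2' 0 l
    rw [if_neg (fun h => l.2 (Rel_zero hx h))] at h1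
    exact_mod_cast h1
  -- the chosen block
  let l1 : L := ⟨1, one_ne_zero⟩
  refine ⟨χ l1, ?_, ?_, ?_, ?_⟩
  · -- dimension
    refine lt_of_le_of_lt ?_ hff
    rw [← sum_rk_eP Φ hx hg]
    refine le_trans (le_of_eq ?_) (class_card_le hx (1 : ZMod p))
    rw [Finset.card_filter]
    refine Finset.sum_congr rfl fun k _ => ?_
    have h1 := hF2' k l1
    have h2 : Rel x k l1.1 ↔ Rel x 1 k := ⟨fun h => Rel_symm hx h, fun h => Rel_symm hx h⟩
    by_cases h3 : Rel x 1 k
    · rw [if_pos (h2.2 h3)] at h1
      rw [if_pos h3]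
      exact_mod_cast h1
    · rw [if_neg (fun h => h3 (h2.1 h))] at h1
      rw [if_neg h3]
      exact_mod_cast h1
  · exact rk_zero Φ (eP_idem hx 0) _ (hF2'0 l1)
  · intro z hz hz0
    have hall : ∀ k : ZMod p, Φ (eC x k) (χ l1) = Φ (eP x k) (χ l1) := by
      intro k
      apply eq_of_rk_eq Φ hx
      have h1 := hF2' k l1
      have h2 := rk_eC_le Φ hx k (χ l1)
      by_cases h3 : Rel x k l1.1
      · rw [if_pos h3] at h1
        have h4 : rk Φ (eP x k) (χ l1) = 1 := by exact_mod_cast h1
        have hk0 : k ≠ 0 := by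
          rintro rfl
          exact l1.2 (Rel_zero hx h3)
        have h5 := hra' ⟨k, hk0⟩ l1 h3 (χ l1)
        have h6 := hab l1 (χ l1)
        rw [if_pos rfl] at h6
        have h7 := hb0 (χ l1)
        have h8 : 1 ≤ rk Φ (eC x l1.1) (χ l1) := by
          have : (1 : ℤ) ≤ (rk Φ (eC x l1.1) (χ l1) : ℤ) := by omega
          exact_mod_cast this
        simp only at h5
        omega
      · rw [if_neg h3] at h1
        have h4 : rk Φ (eP x k) (χ l1) = 0 := by exact_mod_cast h1
        omega
    have h1 : Φ (MonoidAlgebra.single z 1) (χ l1) =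
        ∑ k : ZMod p, Φ (MonoidAlgebra.single z 1) (χ l1) * Φ (eP x k) (χ l1) := by
      rw [← Finset.mul_sum]
      have : ∑ k : ZMod p, Φ (eP x k) (χ l1) = (Φ (∑ k : ZMod p, eP x k)) (χ l1) := by
        rw [map_sum, Finset.sum_apply]
      rw [this, sum_eP hx hg, map_one, Pi.one_apply, mul_one]
    rw [h1]
    have h2 : ∀ k : ZMod p, Φ (MonoidAlgebra.single z 1) (χ l1) * Φ (eP x k) (χ l1) =
        Φ (eP x k) (χ l1) := by
      intro k
      rw [← hall k, ← Pi.mul_apply, ← map_mul, single_eC hx k hz, th_of_zero k hz0, one_smul]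
    simp_rw [h2]
    have : ∑ k : ZMod p, Φ (eP x k) (χ l1) = (Φ (∑ k : ZMod p, eP x k)) (χ l1) := by
      rw [map_sum, Finset.sum_apply]
    rw [this, sum_eP hx hg, map_one, Pi.one_apply]
  · intro i hi0 hiZ hdi
    have hrk0 : 1 ≤ rk Φ (eP x (0 : ZMod p)) i := by
      by_contra hcon
      exact hi0 (rk_zero Φ (eP_idem hx 0) i (by omega))
    have hiχ : ∀ l : L, i ≠ χ l := by
      intro l hl
      have := hF2'0 l
      rw [← hl] at this
      omega
    -- `Φ(e_k)_i = Φ(ε_k)_i`
    have hall : ∀ k : ZMod p, Φ (eC x k) i = Φ (eP x k) i := by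
      intro k
      have h1 : Φ (eC x k) i * Φ (eP x k) i = Φ (eP x k) i := by
        -- every element of `C` acts by the character on the image of `ε_k`
        have h2 : ∀ y ∈ CC x, Φ (MonoidAlgebra.single y 1) i * Φ (eP x k) i =
            th x k y • Φ (eP x k) i := by
          intro y hy
          obtain ⟨j, hj0, hjC⟩ := CC_decomp hx hg hy
          have h3 : y = ((x ^ j)⁻¹ * y) * x ^ j := by
            have hcomm : y * x ^ j = x ^ j * y := CC_comm hy (pow_mem (mem_zpowers x) j)
            rw [mul_assoc, hcomm]; group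
          have h4 : (MonoidAlgebra.single y (1 : ℂ) : MonoidAlgebra ℂ H) =
              MonoidAlgebra.single ((x ^ j)⁻¹ * y) 1 * MonoidAlgebra.single (x ^ j) 1 := by
            rw [MonoidAlgebra.single_mul_single, ← h3, mul_one]
          rw [h4, map_mul, Pi.mul_apply, hiZ _ hjC hj0, one_mul, ← Pi.mul_apply, ← map_mul,
            single_eP hx k (pow_mem (mem_zpowers x) j), map_smul, Pi.smul_apply]
          congr 1
          have h5 : th x k y = th x k ((x ^ j)⁻¹ * y) * th x k (x ^ j) := by
            rw [← (isChar_CC hx k).2 _ _ hjC (zpowers_le_CC (pow_mem (mem_zpowers x) j)), ← h3]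
          rw [h5, th_of_zero k hj0, one_mul]
        have h6 : Φ (eC x k) i = ∑ y : H, if y ∈ CC x then
            (th x k y⁻¹ / (Nat.card (CC x) : ℂ)) • Φ (MonoidAlgebra.single y 1) i else 0 := by
          rw [eC, idem, map_sum, Finset.sum_apply]
          refine Finset.sum_congr rfl fun y _ => ?_
          split_ifs
          · have : (MonoidAlgebra.single y (th x k y⁻¹ / (Nat.card (CC x) : ℂ)) :
                MonoidAlgebra ℂ H) =
                (th x k y⁻¹ / (Nat.card (CC x) : ℂ)) • MonoidAlgebra.single y (1 : ℂ) := by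
              simp
            rw [this, map_smul, Pi.smul_apply]
          · simp
        rw [h6, Finset.sum_mul]
        have h7 : ∀ y : H, (if y ∈ CC x then (th x k y⁻¹ / (Nat.card (CC x) : ℂ)) •
            Φ (MonoidAlgebra.single y 1) i else 0) * Φ (eP x k) i =
            if y ∈ CC x then ((Nat.card (CC x) : ℂ)⁻¹) • Φ (eP x k) i else 0 := by
          intro y
          split_ifs with hy
          · rw [smul_mul_assoc, h2 y hy, smul_smul, div_mul_eq_mul_div,
              (isChar_CC hx k).inv_mul hy, one_div]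
          · simp
        simp_rw [h7]
        rw [← Finset.sum_filter, Finset.sum_const, ← Nat.cast_smul_eq_nsmul ℂ, smul_smul]
        have h8 : (Finset.univ.filter (fun y => y ∈ CC x)).card = Nat.card (CC x) := by
          rw [Nat.card_eq_fintype_card, Fintype.card_subtype]
        rw [h8, mul_inv_cancel₀, one_smul]
        exact_mod_cast (Nat.card_pos (α := CC x)).ne'
      rw [← Pi.mul_apply, ← map_mul, eC_eP hx] at h1
      exact h1
    have hrkeq : ∀ k : ZMod p, rk Φ (eC x k) i = rk Φ (eP x k) i := by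
      intro k
      have h1 := rk_spec Φ (eC_idem hx k) i
      have h2 := rk_spec Φ (eP_idem hx k) i
      rw [hall k, h2] at h1
      exact_mod_cast h1.symm
    have hrkb : ∀ l : L, (rk Φ (eP x l.1) i : ℤ) = b i := by
      intro l
      rw [← hrkeq, hab l i, if_neg (hiχ l), add_zero]
    have hb : b i = 0 := by
      by_contra hne
      have hb1 : 1 ≤ b i := by have := hb0 i; omega
      have h1 := sum_rk_eP Φ hx hg i
      have h2 : (Finset.univ : Finset (ZMod p)).card ≤ ∑ k : ZMod p, rk Φ (eP x k) i := by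
        rw [Finset.card_eq_sum_ones]
        apply Finset.sum_le_sum
        intro k _
        by_cases hk : k = 0
        · rw [hk]; exact hrk0
        · have := hrkb ⟨k, hk⟩
          simp only at this
          omega
      rw [Finset.card_univ, ZMod.card, h1] at h2
      omega
    have hzero : ∀ k : ZMod p, k ≠ 0 → Φ (eP x k) i = 0 := by
      intro k hk
      apply rk_zero Φ (eP_idem hx k)
      have := hrkb ⟨k, hk⟩
      rw [hb] at this
      exact_mod_cast this
    have h1 : Φ (eP x (0 : ZMod p)) i = 1 := by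
      have : ∑ k : ZMod p, Φ (eP x k) i = (Φ (∑ k : ZMod p, eP x k)) i := by
        rw [map_sum, Finset.sum_apply]
      rw [sum_eP hx hg, map_one, Pi.one_apply] at this
      rw [← this, Finset.sum_eq_single 0]
      · intro k _ hk; exact hzero k hk
      · simp
    have h2 : Φ (MonoidAlgebra.single x 1) i * Φ (eP x (0 : ZMod p)) i = Φ (eP x (0 : ZMod p)) i := by
      rw [← Pi.mul_apply, ← map_mul, single_eP hx 0 (mem_zpowers x)]
      have : th x (0 : ZMod p) x = 1 := by simp [th]
      rw [this, one_smul]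
    rw [h1, mul_one] at h2
    exact h2

end

end Pool.Agent.Hhelper5.Roots
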