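import Mathlib
import Pool.Agent.Hhelper5.Roots.Exc2

set_option autoImplicit false
set_option linter.all false

namespace Pool.Agent.Hhelper5.Roots

noncomputable section

open Subgroup

variable {H : Type} [Group H] [Fintype H] {p : ℕ} [Fact p.Prime] {x : H}

variable {n : ℕ} {d : Fin n → ℕ}
  (Φ : MonoidAlgebra ℂ H ≃ₐ[ℂ] Π i, Matrix (Fin (d i)) (Fin (d i)) ℂ)

/-- the representation on block `i0`. -/
def rho (i0 : Fin n) : H →* Matrix (Fin (d i0)) (Fin (d i0)) ℂ where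
  toFun g := Φ (MonoidAlgebra.single g 1) i0
  map_one' := by
    rw [← MonoidAlgebra.one_def, map_one, Pi.one_apply]
  map_mul' g g' := by
    rw [← Pi.mul_apply, ← map_mul, MonoidAlgebra.single_mul_single, mul_one]

/-- conjugation action on matrices -/
def AdH (i0 : Fin n) : H →* Module.End ℂ (Matrix (Fin (d i0)) (Fin (d i0)) ℂ) where
  toFun h := LinearMap.mulLeft ℂ (rho Φ i0 h) ∘ₗ LinearMap.mulRight ℂ (rho Φ i0 h⁻¹)
  map_one' := by
    ext1 M
    simp
  map_mul' g g' := by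
    apply LinearMap.ext
    intro M
    simp [mul_assoc]

/-- extension to the group algebra -/
def Ad (i0 : Fin n) : MonoidAlgebra ℂ H →ₐ[ℂ] Module.End ℂ (Matrix (Fin (d i0)) (Fin (d i0)) ℂ) :=
  MonoidAlgebra.lift ℂ _ H (AdH Φ i0)

theorem Ad_single (i0 : Fin n) (h : H) : Ad Φ i0 (MonoidAlgebra.single h 1) = AdH Φ i0 h := by
  simp [Ad]

/-- the restriction of `Ad` to block `i`. -/
def JJ (i0 i : Fin n) : Matrix (Fin (d i)) (Fin (d i)) ℂ →ₗ[ℂ]
    Module.End ℂ (Matrix (Fin (d i0)) (Fin (d i0)) ℂ) :=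
  (Ad Φ i0).toLinearMap ∘ₗ Φ.symm.toLinearMap ∘ₗ
    LinearMap.single ℂ (fun i => Matrix (Fin (d i)) (Fin (d i)) ℂ) i

theorem JJ_apply (i0 i : Fin n) (M : Matrix (Fin (d i)) (Fin (d i)) ℂ) :
    JJ Φ i0 i M = Ad Φ i0 (Φ.symm (Pi.single i M)) := rfl

theorem JJ_mul (i0 i : Fin n) (M M' : Matrix (Fin (d i)) (Fin (d i)) ℂ) :
    JJ Φ i0 i (M * M') = JJ Φ i0 i M * JJ Φ i0 i M' := by
  rw [JJ_apply, JJ_apply, JJ_apply, ← map_mul, ← map_mul]
  congr 2
  funext j
  by_cases hj : j = i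
  · subst hj; simp
  · simp [Pi.single_eq_of_ne hj]

theorem JJ_block (i0 i : Fin n) (u : MonoidAlgebra ℂ H) :
    JJ Φ i0 i (Φ u i) = Ad Φ i0 u * JJ Φ i0 i 1 := by
  rw [JJ_apply, JJ_apply, ← map_mul]
  congr 1
  apply Φ.injective
  rw [map_mul, AlgEquiv.apply_symm_apply, AlgEquiv.apply_symm_apply]
  funext j
  by_cases hj : j = i
  · subst hj; simp
  · simp [Pi.single_eq_of_ne hj]

theorem JJ_inj (i0 i : Fin n) (h1 : JJ Φ i0 i 1 ≠ 0) {M : Matrix (Fin (d i)) (Fin (d i)) ℂ}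
    (hM : JJ Φ i0 i M = 0) : M = 0 := by
  classical
  by_contra hne
  obtain ⟨a, b, hab⟩ : ∃ a b, M a b ≠ 0 := by
    by_contra hcon
    push Not at hcon
    exact hne (by ext a b; exact hcon a b)
  apply h1
  have h2 : ∀ c, JJ Φ i0 i (Matrix.single c c (1 : ℂ)) = 0 := by
    intro c
    have h3 : Matrix.single c c (1 : ℂ) =
        (M a b)⁻¹ • (Matrix.single c a (1 : ℂ) * M * Matrix.single b c (1 : ℂ)) := by
      ext e f
      rw [Matrix.smul_apply, Matrix.single_mul_mul_single]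
      simp [Matrix.single_apply, hab]
    rw [h3, map_smul, JJ_mul, JJ_mul, hM]
    simp
  have h4 : (1 : Matrix (Fin (d i)) (Fin (d i)) ℂ) = ∑ c, Matrix.single c c (1 : ℂ) := by
    ext e f
    rw [Matrix.sum_apply, Finset.sum_eq_single e]
    · simp [Matrix.one_apply, Matrix.single_apply]
    · intro c _ hc
      simp [Matrix.single_apply, hc]
    · simp
  rw [h4, map_sum]
  exact Finset.sum_eq_zero fun c _ => h2 c

theorem JJ_dim (i0 i : Fin n) (h1 : JJ Φ i0 i 1 ≠ 0) : d i ≤ d i0 ^ 2 := by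
  have hinj : Function.Injective (JJ Φ i0 i) := by
    rw [← LinearMap.ker_eq_bot, LinearMap.ker_eq_bot']
    intro M hM
    exact JJ_inj Φ i0 i h1 hM
  have h2 := LinearMap.finrank_le_finrank_of_injective hinj
  rw [Module.finrank_linearMap, Module.finrank_matrix, Module.finrank_matrix] at h2
  simp only [Fintype.card_fin, Module.finrank_self, mul_one] at h2
  have h3 : d i ^ 2 ≤ (d i0 ^ 2) ^ 2 := by
    calc d i ^ 2 = d i * d i := by ring
      _ ≤ _ := h2
      _ = (d i0 ^ 2) ^ 2 := by ring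
  exact (Nat.pow_le_pow_iff_left (by norm_num)).1 h3

theorem sum_E (i0 : Fin n) : ∑ i, JJ Φ i0 i 1 = 1 := by
  simp_rw [JJ_apply]
  rw [← map_sum, ← map_sum, ← map_one (Ad Φ i0), ← map_one Φ.symm]
  congr 2
  funext j
  rw [Finset.sum_apply]
  rw [Finset.sum_eq_single j]
  · simp
  · intro b _ hb
    simp [Pi.single_eq_of_ne (Ne.symm hb)]
  · simp

theorem block_dich (hx : orderOf x = p) (hg : Good p x) (B : ℕ) (i0 : Fin n)
    (hpB : 2 * B ^ 2 < p) (hdB : d i0 < B)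
    (hZ : ∀ z ∈ CC x, Llog p x z = 0 → Φ (MonoidAlgebra.single z 1) i0 = 1)
    (hstar : ∀ i, Φ (eP x (0 : ZMod p)) i ≠ 0 →
      (∀ z ∈ CC x, Llog p x z = 0 → Φ (MonoidAlgebra.single z 1) i = 1) →
        d i < p → Φ (MonoidAlgebra.single x 1) i = 1) (i : Fin n) :
    JJ Φ i0 i (Φ (eP x (0 : ZMod p)) i) = 0 ∨
      JJ Φ i0 i (Φ (MonoidAlgebra.single x 1) i) = JJ Φ i0 i 1 := by
  by_cases ha : JJ Φ i0 i (Φ (eP x (0 : ZMod p)) i) = 0
  · exact Or.inl ha
  · right
    have h1 : JJ Φ i0 i 1 ≠ 0 := by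
      intro h0
      apply ha
      rw [JJ_block, h0, mul_zero]
    have h2 : Φ (eP x (0 : ZMod p)) i ≠ 0 := by
      intro h0
      apply ha
      rw [h0, map_zero]
    have h3 : ∀ z ∈ CC x, Llog p x z = 0 → Φ (MonoidAlgebra.single z 1) i = 1 := by
      intro z hz hz0
      have hz1 : rho Φ i0 z = 1 := hZ z hz hz0
      have hz2 : rho Φ i0 z⁻¹ = 1 := by
        have h4 : rho Φ i0 (z * z⁻¹) = 1 := by rw [mul_inv_cancel, map_one]
        rw [map_mul, hz1, one_mul] at h4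
        exact h4
      have h5 : AdH Φ i0 z = 1 := by
        apply LinearMap.ext
        intro M
        change rho Φ i0 z * (M * rho Φ i0 z⁻¹) = M
        rw [hz1, hz2]; simp
      have h6 : JJ Φ i0 i (Φ (MonoidAlgebra.single z 1) i - 1) = 0 := by
        rw [map_sub, JJ_block, Ad_single, h5, one_mul, sub_self]
      exact sub_eq_zero.1 (JJ_inj Φ i0 i h1 h6)
    have h4 : d i < p := by
      have h5 := JJ_dim Φ i0 i h1
      have h6 : d i0 ^ 2 ≤ B ^ 2 := Nat.pow_le_pow_left hdB.le 2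
      omega
    rw [hstar i h2 h3 h4]

theorem commute_main (hx : orderOf x = p) (hg : Good p x) (B : ℕ) (i0 : Fin n)
    (hpB : 2 * B ^ 2 < p) (hdB : d i0 < B)
    (hZ : ∀ z ∈ CC x, Llog p x z = 0 → Φ (MonoidAlgebra.single z 1) i0 = 1)
    (hstar : ∀ i, Φ (eP x (0 : ZMod p)) i ≠ 0 →
      (∀ z ∈ CC x, Llog p x z = 0 → Φ (MonoidAlgebra.single z 1) i = 1) →
        d i < p → Φ (MonoidAlgebra.single x 1) i = 1) (h : H) :
    rho Φ i0 (x * (h * x * h⁻¹)) = rho Φ i0 ((h * x * h⁻¹) * x) := by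
  classical
  have hdich := block_dich Φ hx hg B i0 hpB hdB hZ hstar
  have key : Ad Φ i0 (MonoidAlgebra.single x 1 * (MonoidAlgebra.single h 1 * eP x (0 : ZMod p))) =
      Ad Φ i0 (MonoidAlgebra.single h 1 * eP x (0 : ZMod p)) := by
    have h1 : ∀ u : MonoidAlgebra ℂ H, Ad Φ i0 u = ∑ i, JJ Φ i0 i (Φ u i) := by
      intro u
      simp_rw [JJ_block]
      rw [← Finset.mul_sum, sum_E, mul_one]
    rw [h1, h1]
    refine Finset.sum_congr rfl fun i _ => ?_
    rw [map_mul, map_mul, Pi.mul_apply, Pi.mul_apply, JJ_mul, JJ_mul]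
    rcases hdich i with h2 | h2
    · rw [h2]; simp
    · rw [h2, ← mul_assoc, ← JJ_mul, one_mul]
  have hfix : Ad Φ i0 (eP x (0 : ZMod p)) (rho Φ i0 x) = rho Φ i0 x := by
    rw [eP, idem, map_sum, LinearMap.sum_apply]
    have h1 : ∀ y : H, (Ad Φ i0 (if y ∈ zpowers x then
        MonoidAlgebra.single y (th x (0 : ZMod p) y⁻¹ / (Nat.card (zpowers x) : ℂ)) else 0))
        (rho Φ i0 x) = if y ∈ zpowers x then
          ((Nat.card (zpowers x) : ℂ)⁻¹) • rho Φ i0 x else 0 := by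
      intro y
      split_ifs with hy
      · have : (MonoidAlgebra.single y (th x (0 : ZMod p) y⁻¹ / (Nat.card (zpowers x) : ℂ)) :
                MonoidAlgebra ℂ H) =
                ((Nat.card (zpowers x) : ℂ)⁻¹) • MonoidAlgebra.single y (1 : ℂ) := by
          simp [th]
        rw [this, map_smul, Ad_single, LinearMap.smul_apply]
        congr 1
        change rho Φ i0 y * (rho Φ i0 x * rho Φ i0 y⁻¹) = rho Φ i0 x
        rw [← map_mul, ← map_mul]
        congr 1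
        have := CC_comm (y := x) (zpowers_le_CC (mem_zpowers x)) (inv_mem hy)
        rw [this]; group
      · simp
    simp_rw [h1]
    rw [← Finset.sum_filter, Finset.sum_const, ← Nat.cast_smul_eq_nsmul ℂ, smul_smul]
    have h8 : (Finset.univ.filter (fun y => y ∈ zpowers x)).card = Nat.card (zpowers x) := by
      rw [Nat.card_eq_fintype_card, Fintype.card_subtype]
    rw [h8, mul_inv_cancel₀, one_smul]
    exact_mod_cast (Nat.card_pos (α := zpowers x)).ne'
  have h1 := congrArg (fun T => T (rho Φ i0 x)) key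
  simp only [map_mul, Module.End.mul_apply, hfix, Ad_single] at h1
  have h2 : AdH Φ i0 h (rho Φ i0 x) = rho Φ i0 (h * x * h⁻¹) := by
    change rho Φ i0 h * (rho Φ i0 x * rho Φ i0 h⁻¹) = _
    rw [← map_mul, ← map_mul, mul_assoc]
  rw [h2] at h1
  have h3 : AdH Φ i0 x (rho Φ i0 (h * x * h⁻¹)) = rho Φ i0 (x * (h * x * h⁻¹) * x⁻¹) := by
    change rho Φ i0 x * (rho Φ i0 (h * x * h⁻¹) * rho Φ i0 x⁻¹) = _
    rw [← map_mul, ← map_mul]
    congr 1
    group
  rw [h3] at h1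
  calc rho Φ i0 (x * (h * x * h⁻¹)) = rho Φ i0 (x * (h * x * h⁻¹) * x⁻¹) * rho Φ i0 x := by
        rw [← map_mul]; congr 1; group
    _ = rho Φ i0 (h * x * h⁻¹) * rho Φ i0 x := by rw [h1]
    _ = _ := by rw [← map_mul]

end

end Pool.Agent.Hhelper5.Roots
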