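import Mathlib

set_option autoImplicit false
set_option linter.all false

namespace Pool.Agent.Hhelper5.Roots

open Subgroup

/-- The Klein four-group generated by two commuting involutions. -/
def VV {Q : Type} [Group Q] (r s : Q) (hr : r * r = 1) (hs : s * s = 1) (hrs : r * s = s * r) :
    Subgroup Q where
  carrier := {g | g = 1 ∨ g = r ∨ g = s ∨ g = s * r}
  one_mem' := Or.inl rfl
  mul_mem' := by
    have h1 : r * (s * r) = s := by rw [← mul_assoc, hrs, mul_assoc, hr, mul_one]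
    have h2 : s * (s * r) = r := by rw [← mul_assoc, hs, one_mul]
    have h3 : s * r * r = s := by rw [mul_assoc, hr, mul_one]
    have h4 : s * r * s = r := by rw [mul_assoc, hrs, ← mul_assoc, hs, one_mul]
    have h5 : s * r * (s * r) = 1 := by rw [← mul_assoc, h4, hr]
    rintro a b (rfl | rfl | rfl | rfl) (rfl | rfl | rfl | rfl) <;>
      simp [hr, hs, hrs, h1, h2, h3, h4, h5]
  inv_mem' := by
    have h1 : r⁻¹ = r := inv_eq_of_mul_eq_one_left hr
    have h2 : s⁻¹ = s := inv_eq_of_mul_eq_one_left hs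
    rintro a (rfl | rfl | rfl | rfl)
    · simp
    · simp [h1]
    · simp [h2]
    · simp [h1, h2, hrs]

theorem mem_VV {Q : Type} [Group Q] {r s : Q} {hr : r * r = 1} {hs : s * s = 1}
    {hrs : r * s = s * r} {g : Q} :
    g ∈ VV r s hr hs hrs ↔ g = 1 ∨ g = r ∨ g = s ∨ g = s * r := Iff.rfl

theorem card_VV {Q : Type} [Group Q] {r s : Q} {hr : r * r = 1} {hs : s * s = 1}
    {hrs : r * s = s * r} (hr1 : r ≠ 1) (hs1 : s ≠ 1) (hsr1 : s * r ≠ 1) :
    Nat.card (VV r s hr hs hrs) = 4 := by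
  classical
  have h1 : ((VV r s hr hs hrs : Subgroup Q) : Set Q) = (({1, r, s, s * r} : Finset Q) : Set Q) := by
    ext g
    simp only [SetLike.mem_coe, mem_VV, Finset.coe_insert, Finset.coe_singleton,
      Set.mem_insert_iff, Set.mem_singleton_iff]
  have h2 : Nat.card (VV r s hr hs hrs) = Nat.card (({1, r, s, s * r} : Finset Q)) := by
    exact Nat.card_congr (Equiv.setCongr h1)
  rw [h2, Nat.card_eq_fintype_card, Fintype.card_coe]
  have hrs' : r ≠ s := by
    rintro rfl; exact hsr1 hr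
  rw [Finset.card_insert_of_notMem, Finset.card_insert_of_notMem, Finset.card_insert_of_notMem,
    Finset.card_singleton]
  · simp [hr1]
  · simp only [Finset.mem_insert, Finset.mem_singleton, not_or]
    refine ⟨hrs', ?_⟩
    intro h
    exact hs1 (by
      have : s * r = 1 * r := by rw [one_mul]; exact h.symm
      exact mul_right_cancel this)
  · simp only [Finset.mem_insert, Finset.mem_singleton, not_or]
    exact ⟨Ne.symm hr1, Ne.symm hs1, Ne.symm hsr1⟩

/-- index bounds from distinct cosets -/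
theorem three_le_index {Q : Type} [Group Q] [Finite Q] (V : Subgroup Q) (a b : Q)
    (ha : a ∉ V) (hb : b ∉ V) (hab : a⁻¹ * b ∉ V) : 3 ≤ V.index := by
  classical
  let f : Fin 3 → Q ⧸ V := ![(1 : Q), a, b]
  have hf : Function.Injective f := by
    have h1 : ((1 : Q) : Q ⧸ V) ≠ (a : Q ⧸ V) := by
      intro h; exact ha (by simpa using QuotientGroup.eq.1 h)
    have h2 : ((1 : Q) : Q ⧸ V) ≠ (b : Q ⧸ V) := by
      intro h; exact hb (by simpa using QuotientGroup.eq.1 h)
    have h3 : (a : Q ⧸ V) ≠ (b : Q ⧸ V) := by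
      intro h; exact hab (by simpa using QuotientGroup.eq.1 h)
    intro i j hij
    fin_cases i <;> fin_cases j <;> simp_all [f]
    all_goals first
      | exact absurd hij.symm h1
      | exact absurd hij.symm h2
      | exact absurd hij.symm h3
  have := Nat.card_le_card_of_injective f hf
  rw [Nat.card_eq_fintype_card, Fintype.card_fin] at this
  rw [index]
  exact this

theorem four_le_index {Q : Type} [Group Q] [Finite Q] (V : Subgroup Q) (a b c : Q)
    (ha : a ∉ V) (hb : b ∉ V) (hc : c ∉ V) (hab : a⁻¹ * b ∉ V) (hac : a⁻¹ * c ∉ V)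
    (hbc : b⁻¹ * c ∉ V) : 4 ≤ V.index := by
  classical
  let f : Fin 4 → Q ⧸ V := ![(1 : Q), a, b, c]
  have hf : Function.Injective f := by
    have h1 : ((1 : Q) : Q ⧸ V) ≠ (a : Q ⧸ V) := by
      intro h; exact ha (by simpa using QuotientGroup.eq.1 h)
    have h2 : ((1 : Q) : Q ⧸ V) ≠ (b : Q ⧸ V) := by
      intro h; exact hb (by simpa using QuotientGroup.eq.1 h)
    have h3 : (a : Q ⧸ V) ≠ (b : Q ⧸ V) := by
      intro h; exact hab (by simpa using QuotientGroup.eq.1 h)
    have h4 : ((1 : Q) : Q ⧸ V) ≠ (c : Q ⧸ V) := by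
      intro h; exact hc (by simpa using QuotientGroup.eq.1 h)
    have h5 : (a : Q ⧸ V) ≠ (c : Q ⧸ V) := by
      intro h; exact hac (by simpa using QuotientGroup.eq.1 h)
    have h6 : (b : Q ⧸ V) ≠ (c : Q ⧸ V) := by
      intro h; exact hbc (by simpa using QuotientGroup.eq.1 h)
    intro i j hij
    fin_cases i <;> fin_cases j <;> simp_all [f]
    all_goals first
      | exact absurd hij.symm h1
      | exact absurd hij.symm h2
      | exact absurd hij.symm h3
      | exact absurd hij.symm h4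
      | exact absurd hij.symm h5
      | exact absurd hij.symm h6
  have := Nat.card_le_card_of_injective f hf
  rw [Nat.card_eq_fintype_card, Fintype.card_fin] at this
  rw [index]
  exact this

section

variable {Q : Type} [Group Q] {r s : Q} {hr : r * r = 1} {hs : s * s = 1} {hrs : r * s = s * r}

theorem VV_sq {v : Q} (hv : v ∈ VV r s hr hs hrs) : v * v = 1 := by
  rcases hv with rfl | rfl | rfl | rfl
  · simp
  · exact hr
  · exact hs
  · have h4 : s * r * s = r := by rw [mul_assoc, hrs, ← mul_assoc, hs, one_mul]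
    rw [← mul_assoc, h4, hr]

theorem VV_comm (hrc : ∀ g, g * r = r * g) (hsc : ∀ g, g * s = s * g) {v : Q}
    (hv : v ∈ VV r s hr hs hrs) (g : Q) : g * v = v * g := by
  rcases hv with rfl | rfl | rfl | rfl
  · simp
  · exact hrc g
  · exact hsc g
  · rw [← mul_assoc, hsc g, mul_assoc, hrc g, mul_assoc]

theorem VV_coset (hrc : ∀ g, g * r = r * g) (hsc : ∀ g, g * s = s * g) {a b : Q}
    (hv : a⁻¹ * b ∈ VV r s hr hs hrs) : b * b = a * a := by
  obtain ⟨v, hv', hb⟩ : ∃ v, v ∈ VV r s hr hs hrs ∧ b = a * v := ⟨_, hv, by group⟩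
  have h1 := VV_sq hv'
  have h2 := VV_comm hrc hsc hv' a
  calc b * b = a * (v * a) * v := by rw [hb]; group
    _ = a * a * (v * v) := by rw [← h2]; group
    _ = a * a := by rw [h1, mul_one]

end

theorem lemQ1 {Q : Type} [Group Q] [Finite Q] (r s ρ σ τ : Q)
    (hrc : ∀ g, g * r = r * g) (hsc : ∀ g, g * s = s * g) (hr : r * r = 1) (hs : s * s = 1)
    (hr1 : r ≠ 1) (hs1 : s ≠ 1) (hsr1 : s * r ≠ 1) (hρ : ρ * ρ = r) (hσ : σ * σ = s)
    (hτ : τ * τ = s * r) : 16 ≤ Nat.card Q := by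
  have hrs : r * s = s * r := (hrc s).symm
  have hV := card_VV (hr := hr) (hs := hs) (hrs := hrs) hr1 hs1 hsr1
  have hrs' : s ≠ r := by
    rintro rfl; exact hsr1 hr
  have h4 : 4 ≤ (VV r s hr hs hrs).index := by
    refine four_le_index _ ρ σ τ ?_ ?_ ?_ ?_ ?_ ?_
    · intro h; exact hr1 (by rw [← hρ]; exact VV_sq h)
    · intro h; exact hs1 (by rw [← hσ]; exact VV_sq h)
    · intro h; exact hsr1 (by rw [← hτ]; exact VV_sq h)
    · intro h
      have := VV_coset hrc hsc h
      rw [hσ, hρ] at this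
      exact hrs' this
    · intro h
      have := VV_coset hrc hsc h
      rw [hτ, hρ] at this
      exact hs1 (by simpa using this)
    · intro h
      have := VV_coset hrc hsc h
      rw [hτ, hσ] at this
      exact hr1 (by simpa using this)
  rw [← Subgroup.card_mul_index (VV r s hr hs hrs), hV]
  omega

theorem lemQ2 {Q : Type} [Group Q] [Finite Q] (r s ρ σ τ : Q)
    (hrc : ∀ g, g * r = r * g) (hsc : ∀ g, g * s = s * g) (hr : r * r = 1) (hs : s * s = 1)
    (hr1 : r ≠ 1) (hs1 : s ≠ 1) (hsr1 : s * r ≠ 1) (hρ : ρ * ρ = r) (hσ : σ * σ = s)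
    (hτ : τ * τ = s * r) (C : Subgroup Q) (hC : C.index = 2) (hrC : r ∈ C) (hsC : s ∈ C)
    (hρC : ρ ∉ C) (hσC : σ ∉ C) (hτC : τ ∉ C) : 32 ≤ Nat.card Q := by
  classical
  have hrs : r * s = s * r := (hrc s).symm
  have hV := card_VV (hr := hr) (hs := hs) (hrs := hrs) hr1 hs1 hsr1
  have hrs' : s ≠ r := by
    rintro rfl; exact hsr1 hr
  set V := VV r s hr hs hrs with hVdef
  have hVC : V ≤ C := by
    rintro v (rfl | rfl | rfl | rfl)
    · exact C.one_mem
    · exact hrC
    · exact hsC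
    · exact C.mul_mem hsC hrC
  have hCn : C.Normal := Subgroup.normal_of_index_eq_two hC
  -- products of two elements outside
  have hprod : ∀ a b, a ∉ C → b ∉ C → a⁻¹ * b ∈ C := by
    intro a b ha hb
    rw [Subgroup.mul_mem_iff_of_index_two hC]
    simp [ha, hb]
  have hcC : ρ⁻¹ * σ ∈ C := hprod _ _ hρC hσC
  have hdC : ρ⁻¹ * τ ∈ C := hprod _ _ hρC hτC
  have hcV : ρ⁻¹ * σ ∉ V := by
    intro h
    have := VV_coset hrc hsc h
    rw [hσ, hρ] at this
    exact hrs' this
  have hdV : ρ⁻¹ * τ ∉ V := by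
    intro h
    have := VV_coset hrc hsc h
    rw [hτ, hρ] at this
    exact hs1 (by simpa using this)
  have hcdV : σ⁻¹ * τ ∉ V := by
    intro h
    have := VV_coset hrc hsc h
    rw [hτ, hσ] at this
    exact hr1 (by simpa using this)
  have h3 : 3 ≤ (V.subgroupOf C).index := by
    refine three_le_index _ (⟨ρ⁻¹ * σ, hcC⟩ : C) (⟨ρ⁻¹ * τ, hdC⟩ : C) ?_ ?_ ?_
    · rw [Subgroup.mem_subgroupOf]; exact hcV
    · rw [Subgroup.mem_subgroupOf]; exact hdV
    · rw [Subgroup.mem_subgroupOf]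
      intro h
      apply hcdV
      have : ((⟨ρ⁻¹ * σ, hcC⟩ : C)⁻¹ * (⟨ρ⁻¹ * τ, hdC⟩ : C) : C) = (⟨σ⁻¹ * τ, by
        have : σ⁻¹ * τ = (ρ⁻¹ * σ)⁻¹ * (ρ⁻¹ * τ) := by group
        rw [this]; exact C.mul_mem (C.inv_mem hcC) hdC⟩ : C) := by
        apply Subtype.ext
        simp only [Subgroup.coe_mul, Subgroup.coe_inv]
        group
      rw [this] at h
      exact h
  have hcardC : Nat.card C = 4 * (V.subgroupOf C).index := by
    rw [← Subgroup.card_mul_index (V.subgroupOf C)]
    congr 1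
    rw [← hV]
    exact Nat.card_congr (Subgroup.subgroupOfEquivOfLe hVC).toEquiv
  have hcardQ : Nat.card Q = Nat.card C * 2 := by
    rw [← hC]; exact (Subgroup.card_mul_index C).symm
  rcases Nat.lt_or_ge (V.subgroupOf C).index 4 with hlt | hge
  · exfalso
    have h3' : (V.subgroupOf C).index = 3 := by omega
    have hVn : (V.subgroupOf C).Normal := by
      constructor
      intro n hn g
      rw [Subgroup.mem_subgroupOf] at hn ⊢
      have := VV_comm hrc hsc hn (g : Q)
      simp only [Subgroup.coe_mul, Subgroup.coe_inv]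
      rw [this]
      simpa using hn
    have hcyc : IsCyclic (C ⧸ V.subgroupOf C) := by
      haveI : Fact (Nat.Prime 3) := ⟨Nat.prime_three⟩
      apply isCyclic_of_prime_card (p := 3)
      exact h3'
    have hab : ∀ a b : C, a * b = b * a := by
      intro a b
      refine commutative_of_cyclic_center_quotient (QuotientGroup.mk' (V.subgroupOf C)) ?_ a b
      rw [QuotientGroup.ker_mk']
      intro v hv
      rw [Subgroup.mem_center_iff]
      intro g
      rw [Subgroup.mem_subgroupOf] at hv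
      apply Subtype.ext
      simp only [Subgroup.coe_mul]
      exact VV_comm hrc hsc hv (g : Q)
    set c : Q := ρ⁻¹ * σ with hc
    have hc' : ρ⁻¹ * c * ρ ∈ C := by
      have := hCn.conj_mem c hcC ρ⁻¹
      simpa using this
    have hcomm : (ρ⁻¹ * c * ρ) * c = c * (ρ⁻¹ * c * ρ) := by
      have := hab ⟨ρ⁻¹ * c * ρ, hc'⟩ ⟨c, hcC⟩
      exact congrArg Subtype.val this
    have hc3 : c ^ 3 ∈ V := by
      have := Subgroup.pow_index_mem (V.subgroupOf C) (⟨c, hcC⟩ : C)
      rw [h3', Subgroup.mem_subgroupOf] at this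
      simpa using this
    have hg : (ρ⁻¹ * c * ρ) * c = r⁻¹ * s := by
      rw [hc, ← hρ, ← hσ]; group
    have hg3 : ((ρ⁻¹ * c * ρ) * c) ^ 3 = 1 := by
      have hcm : Commute (ρ⁻¹ * c * ρ) c := hcomm
      rw [hcm.mul_pow]
      have h5 : (ρ⁻¹ * c * ρ) ^ 3 = ρ⁻¹ * c ^ 3 * ρ := by
        have : ρ⁻¹ * c * ρ = ρ⁻¹ * c * (ρ⁻¹)⁻¹ := by rw [inv_inv]
        rw [this, conj_pow, inv_inv]
      have h6 : ρ⁻¹ * c ^ 3 * ρ = c ^ 3 := by
        rw [VV_comm hrc hsc hc3 ρ⁻¹]; group
      rw [h5, h6]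
      exact VV_sq hc3
    have hg2 : ((ρ⁻¹ * c * ρ) * c) ^ 2 = 1 := by
      rw [hg, pow_two]
      have h1 : r⁻¹ = r := inv_eq_of_mul_eq_one_left hr
      rw [h1]
      have h4 : r * s * r = s := by rw [hrs, mul_assoc, hr, mul_one]
      rw [← mul_assoc, h4, hs]
    have hg1 : (ρ⁻¹ * c * ρ) * c = 1 := by
      have : ((ρ⁻¹ * c * ρ) * c) ^ 3 = ((ρ⁻¹ * c * ρ) * c) ^ 2 * ((ρ⁻¹ * c * ρ) * c) :=
        pow_succ _ _
      rw [hg3, hg2, one_mul] at this
      exact this.symm
    rw [hg1] at hg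
    apply hrs'
    have := congrArg (fun t => r * t) hg
    simpa using this.symm
  · omega

end Pool.Agent.Hhelper5.Roots
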