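import Mathlib
import Pool.Agent.Hhelper5.Roots.LemQ

set_option autoImplicit false
set_option linter.all false

namespace Pool.Agent.Hhelper5.Roots

open Subgroup

set_option maxRecDepth 100000 in
theorem perm4_a : ∀ k : Fin 4, ∀ π : Equiv.Perm (Fin 4), π k = k → π ^ 8 = 1 → π * π = 1 := by
  decide

theorem perm4_b : ∀ k l : Fin 4, k ≠ l → ∀ π : Equiv.Perm (Fin 4), π k = k → π l = l → π ≠ 1 →
    ∀ π' : Equiv.Perm (Fin 4), π' k = k → π' l = l → π' ≠ 1 → π * π' = 1 := by
  decide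

section

variable {G : Type} [Group G] (N : Subgroup G) [N.Normal]

/-- conjugation action on a normal subgroup of order 4, as permutations of `Fin 4`. -/
noncomputable def phi4 (e : N ≃ Fin 4) : G →* Equiv.Perm (Fin 4) :=
  (e.permCongrHom.toMonoidHom).comp ((MulAut.toPerm N).comp MulAut.conjNormal)

theorem phi4_apply (e : N ≃ Fin 4) (g : G) (n : N) :
    phi4 N e g (e n) = e (MulAut.conjNormal g n) := by
  show e ((MulAut.conjNormal g) (e.symm (e n))) = _
  rw [Equiv.symm_apply_apply]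

theorem phi4_eq_one (e : N ≃ Fin 4) (g : G) :
    phi4 N e g = 1 ↔ ∀ n ∈ N, g * n * g⁻¹ = n := by
  constructor
  · intro h n hn
    have h1 := phi4_apply N e g ⟨n, hn⟩
    rw [h, Equiv.Perm.one_apply] at h1
    have h2 := e.injective h1
    have h3 := congrArg Subtype.val h2
    rw [MulAut.conjNormal_apply] at h3
    exact h3.symm
  · intro h
    apply Equiv.ext
    intro k
    obtain ⟨n, rfl⟩ := e.surjective k
    rw [phi4_apply, Equiv.Perm.one_apply]
    congr 1
    apply Subtype.ext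
    rw [MulAut.conjNormal_apply]
    exact h n n.2

theorem phi4_one (e : N ≃ Fin 4) (g : G) : phi4 N e g (e 1) = e 1 := by
  rw [phi4_apply, map_one]

theorem sq_centralizes (hN : Nat.card N = 4) (y : G) (hy : y ^ 8 = 1) :
    ∀ n ∈ N, (y * y) * n * (y * y)⁻¹ = n := by
  haveI : Finite N := Nat.finite_of_card_ne_zero (by omega)
  let e : N ≃ Fin 4 := Finite.equivFinOfCardEq hN
  rw [← phi4_eq_one N e, map_mul]
  apply perm4_a (e 1)
  · exact phi4_one N e y
  · rw [← map_pow, hy, map_one]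

theorem centralizer_index_two (hN : Nat.card N = 4) (z : G) (hzN : z ∈ N) (hz1 : z ≠ 1)
    (hzc : ∀ g, g * z * g⁻¹ = z) (a : G) (ha : ¬ ∀ n ∈ N, a * n * a⁻¹ = n) :
    (Subgroup.centralizer (N : Set G)).index = 2 := by
  haveI : Finite N := Nat.finite_of_card_ne_zero (by omega)
  let e : N ≃ Fin 4 := Finite.equivFinOfCardEq hN
  have hmem : ∀ g, g ∈ Subgroup.centralizer (N : Set G) ↔ phi4 N e g = 1 := by
    intro g
    rw [phi4_eq_one, Subgroup.mem_centralizer_iff]
    constructor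
    · intro h n hn
      rw [← h n hn, mul_assoc, mul_inv_cancel, mul_one]
    · intro h n hn
      have := h n hn
      rw [mul_inv_eq_iff_eq_mul] at this
      exact this.symm
  rw [Subgroup.index_eq_two_iff_exists_notMem_and]
  refine ⟨a, ?_, ?_⟩
  · rw [hmem, phi4_eq_one]; exact ha
  · intro b
    by_cases hb : b ∈ Subgroup.centralizer (N : Set G)
    · exact Or.inr hb
    · left
      rw [hmem] at hb ⊢
      rw [map_mul]
      have hz' : ∀ g, phi4 N e g (e ⟨z, hzN⟩) = e ⟨z, hzN⟩ := by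
        intro g
        rw [phi4_apply]
        congr 1
        apply Subtype.ext
        rw [MulAut.conjNormal_apply]
        exact hzc g
      refine perm4_b (e 1) (e ⟨z, hzN⟩) ?_ _ (phi4_one N e b) (hz' b) hb _ (phi4_one N e a)
        (hz' a) ?_
      · intro h
        exact hz1 (congrArg Subtype.val (e.injective h)).symm
      · intro h
        rw [phi4_eq_one] at h
        exact ha h

end

/-- Case `|N| = 4` of Lemma N. -/
theorem lemN4 {G : Type} [Group G] [Finite G] (N : Subgroup G) [N.Normal] (hN : Nat.card N = 4)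
    (r s ρ σ τ : G) (hρ : ρ * ρ = r) (hσ : σ * σ = s) (hτ : τ * τ = s * r)
    (hs : s * s = 1) (hsr : s * r * s⁻¹ = r⁻¹) (hz1 : r * r ≠ 1) (hr4 : (r * r) * (r * r) = 1)
    (hz : r * r ∈ N) (hrN : r ∉ N) (hsN : s ∉ N) (hsrN : s * r ∉ N)
    (hrc : ∀ h, h⁻¹ * r * h * r⁻¹ ∈ N) (hsc : ∀ h, h⁻¹ * s * h * s⁻¹ ∈ N) :
    128 ≤ Nat.card G := by
  classical
  haveI : Finite N := Nat.finite_of_card_ne_zero (by omega)
  -- N is abelian
  have hNab : ∀ a ∈ N, ∀ b ∈ N, a * b = b * a := by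
    haveI : Fact (Nat.Prime 2) := ⟨Nat.prime_two⟩
    have := IsPGroup.isMulCommutative_of_card_eq_prime_sq (p := 2) (G := N) (by rw [hN]; norm_num)
    intro a ha b hb
    have h := this.is_comm.comm (⟨a, ha⟩ : N) ⟨b, hb⟩
    exact congrArg Subtype.val h
  -- (a)
  have hr8 : ρ ^ 8 = 1 := by
    have : ρ ^ 8 = ((ρ * ρ) * (ρ * ρ)) * ((ρ * ρ) * (ρ * ρ)) := by
      simp only [pow_succ, pow_zero, one_mul, mul_assoc]
    rw [this, hρ, hr4]
  have hs8 : σ ^ 8 = 1 := by
    have : σ ^ 8 = ((σ * σ) * (σ * σ)) * ((σ * σ) * (σ * σ)) := by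
      simp only [pow_succ, pow_zero, one_mul, mul_assoc]
    rw [this, hσ, hs, one_mul]
  have hcr : ∀ n ∈ N, r * n = n * r := by
    intro n hn
    have := sq_centralizes N hN ρ hr8 n hn
    rw [hρ, mul_inv_eq_iff_eq_mul] at this
    exact this
  have hcs : ∀ n ∈ N, s * n = n * s := by
    intro n hn
    have := sq_centralizes N hN σ hs8 n hn
    rw [hσ, mul_inv_eq_iff_eq_mul] at this
    exact this
  have hsr' : s * r = r⁻¹ * s := by
    rw [← hsr]; group
  -- (b)
  have hzc : ∀ h : G, h⁻¹ * (r * r) * h = r * r := by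
    intro h
    obtain ⟨n1, hn1, h1⟩ : ∃ n ∈ N, h⁻¹ * s * h = n * s := ⟨_, hsc h, by group⟩
    obtain ⟨n2, hn2, h2⟩ : ∃ n ∈ N, h⁻¹ * r * h = n * r := ⟨_, hrc h, by group⟩
    -- conjugate the relation s r s⁻¹ = r⁻¹
    have h3 : (n1 * s) * (n2 * r) * (n1 * s)⁻¹ = (n2 * r)⁻¹ := by
      rw [← h1, ← h2]
      have : h⁻¹ * s * h * (h⁻¹ * r * h) * (h⁻¹ * s * h)⁻¹ = h⁻¹ * (s * r * s⁻¹) * h := by group
      rw [this, hsr]; group
    have h4 : (n1 * s) * (n2 * r) * (n1 * s)⁻¹ = n2 * r⁻¹ := by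
      calc (n1 * s) * (n2 * r) * (n1 * s)⁻¹ = n1 * (s * n2) * r * s⁻¹ * n1⁻¹ := by group
        _ = n1 * (n2 * s) * r * s⁻¹ * n1⁻¹ := by rw [hcs n2 hn2]
        _ = (n1 * n2) * (s * r * s⁻¹) * n1⁻¹ := by group
        _ = (n2 * n1) * r⁻¹ * n1⁻¹ := by rw [hsr, hNab n1 hn1 n2 hn2]
        _ = n2 * (n1 * (n1 * r)⁻¹) := by group
        _ = n2 * (n1 * (r * n1)⁻¹) := by rw [hcr n1 hn1]
        _ = n2 * r⁻¹ := by group
    have h5 : n2 * n2 = 1 := by
      rw [h4] at h3
      have h6 : n2 * r⁻¹ = (r * n2)⁻¹ := by rw [h3, hcr n2 hn2]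
      have h7 : n2 * r⁻¹ * (r * n2) = 1 := by rw [h6]; group
      have h8 : n2 * r⁻¹ * (r * n2) = n2 * n2 := by group
      rw [← h8, h7]
    calc h⁻¹ * (r * r) * h = (h⁻¹ * r * h) * (h⁻¹ * r * h) := by group
      _ = (n2 * r) * (n2 * r) := by rw [h2]
      _ = n2 * (r * n2) * r := by group
      _ = n2 * (n2 * r) * r := by rw [hcr n2 hn2]
      _ = (n2 * n2) * (r * r) := by group
      _ = r * r := by rw [h5, one_mul]
  have hzc' : ∀ h : G, h * (r * r) * h⁻¹ = r * r := by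
    intro h
    have := hzc h⁻¹
    rwa [inv_inv] at this
  -- (c)
  have key : ∀ y d0 d1 : G, y * y = d1 → (d1⁻¹ * d0 * d1 = (r * r) * d0) →
      (y⁻¹ * d0 * y * d0⁻¹ ∈ N) → (∀ n ∈ N, d0 * n = n * d0) → (∀ h, h⁻¹ * (d0 * d0) * h = d0 * d0) →
      ¬ (∀ n ∈ N, y * n * y⁻¹ = n) := by
    intro y d0 d1 hy hd hyN hd0 hd02 hcon
    obtain ⟨v, hv, h1⟩ : ∃ n ∈ N, y⁻¹ * d0 * y = n * d0 := ⟨_, hyN, by group⟩
    have hyv : y⁻¹ * v * y = v := by
      have := hcon v hv
      calc y⁻¹ * v * y = y⁻¹ * (y * v * y⁻¹) * y := by rw [this]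
        _ = v := by group
    have h2 : v * v = r * r := by
      have h3 : d1⁻¹ * d0 * d1 = v * v * d0 := by
        calc d1⁻¹ * d0 * d1 = y⁻¹ * (y⁻¹ * d0 * y) * y := by rw [← hy]; group
          _ = y⁻¹ * (v * d0) * y := by rw [h1]
          _ = (y⁻¹ * v * y) * (y⁻¹ * d0 * y) := by group
          _ = v * v * d0 := by rw [hyv, h1]; group
      rw [hd] at h3
      exact (mul_right_cancel h3).symm
    have h4 : v * v = 1 := by
      have h5 := hd02 y
      have h6 : y⁻¹ * (d0 * d0) * y = (v * v) * (d0 * d0) := by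
        calc y⁻¹ * (d0 * d0) * y = (y⁻¹ * d0 * y) * (y⁻¹ * d0 * y) := by group
          _ = (v * d0) * (v * d0) := by rw [h1]
          _ = v * (d0 * v) * d0 := by group
          _ = v * (v * d0) * d0 := by rw [hd0 v hv]
          _ = (v * v) * (d0 * d0) := by group
      rw [h6] at h5
      exact mul_eq_right.mp h5
    exact hz1 (by rw [← h2, h4])
  -- r⁻¹ s r = z s
  have hrinv : r⁻¹ = (r * r) * r := by
    have : r⁻¹ = r⁻¹ * ((r * r) * (r * r)) := by rw [hr4, mul_one]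
    rw [this]; group
  have hzinv : (r * r)⁻¹ = r * r := inv_eq_of_mul_eq_one_left hr4
  have hρC : ¬ (∀ n ∈ N, ρ * n * ρ⁻¹ = n) := by
    refine key ρ s r hρ ?_ (hsc ρ) hcs ?_
    · calc r⁻¹ * s * r = r⁻¹ * (s * r) := by group
        _ = r⁻¹ * (r⁻¹ * s) := by rw [hsr']
        _ = (r * r)⁻¹ * s := by group
        _ = (r * r) * s := by rw [hzinv]
    · intro h; rw [hs]; group
  have hσC : ¬ (∀ n ∈ N, σ * n * σ⁻¹ = n) := by
    refine key σ r s hσ ?_ (hrc σ) hcr hzc
    have hsinv : s⁻¹ = s := inv_eq_of_mul_eq_one_left hs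
    calc s⁻¹ * r * s = s * r * s⁻¹ := by rw [hsinv]
      _ = (r * r) * r := by rw [hsr, hrinv]
  have hτC : ¬ (∀ n ∈ N, τ * n * τ⁻¹ = n) := by
    refine key τ r (s * r) hτ ?_ (hrc τ) hcr hzc
    have hsinv : s⁻¹ = s := inv_eq_of_mul_eq_one_left hs
    calc (s * r)⁻¹ * r * (s * r) = r⁻¹ * (s⁻¹ * r * s) * r := by group
      _ = r⁻¹ * (s * r * s⁻¹) * r := by rw [hsinv]
      _ = r⁻¹ * (r⁻¹) * r := by rw [hsr]
      _ = r⁻¹ := by group
      _ = (r * r) * r := hrinv
  -- (d)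
  have hCindex : (Subgroup.centralizer (N : Set G)).index = 2 :=
    centralizer_index_two N hN (r * r) hz hz1 hzc' ρ hρC
  have hNC : N ≤ Subgroup.centralizer (N : Set G) := by
    intro n hn
    rw [Subgroup.mem_centralizer_iff]
    intro m hm
    exact hNab m hm n hn
  have hmemC : ∀ g : G, (g ∈ Subgroup.centralizer (N : Set G)) → ∀ n ∈ N, g * n * g⁻¹ = n := by
    intro g hg n hn
    rw [Subgroup.mem_centralizer_iff] at hg
    rw [← hg n hn]; group
  let f : G →* G ⧸ N := QuotientGroup.mk' N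
  have hfsurj : Function.Surjective f := QuotientGroup.mk'_surjective N
  have hker : f.ker ≤ Subgroup.centralizer (N : Set G) := by
    rw [QuotientGroup.ker_mk']; exact hNC
  have hcomap : (((Subgroup.centralizer (N : Set G)).map f).comap f) =
      Subgroup.centralizer (N : Set G) := Subgroup.comap_map_eq_self hker
  have hCb : ((Subgroup.centralizer (N : Set G)).map f).index = 2 := by
    rw [← Subgroup.index_comap_of_surjective _ hfsurj, hcomap, hCindex]
  have hmap : ∀ g : G, f g ∈ (Subgroup.centralizer (N : Set G)).map f ↔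
      g ∈ Subgroup.centralizer (N : Set G) := by
    intro g
    rw [← Subgroup.mem_comap, hcomap]
  have hf1 : ∀ g : G, f g = 1 ↔ g ∈ N := by
    intro g
    exact QuotientGroup.eq_one_iff g
  have hQ : 32 ≤ Nat.card (G ⧸ N) := by
    refine lemQ2 (f r) (f s) (f ρ) (f σ) (f τ) ?_ ?_ ?_ ?_ ?_ ?_ ?_ ?_ ?_ ?_ _ hCb ?_ ?_ ?_ ?_ ?_
    · intro q
      obtain ⟨g, rfl⟩ := hfsurj q
      rw [← map_mul, ← map_mul]
      have h1 := hrc g⁻¹
      rw [inv_inv] at h1
      have h2 := (hf1 _).2 h1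
      have h3 : g * r = (g * r * g⁻¹ * r⁻¹) * (r * g) := by group
      rw [h3, map_mul, h2, one_mul]
    · intro q
      obtain ⟨g, rfl⟩ := hfsurj q
      rw [← map_mul, ← map_mul]
      have h1 := hsc g⁻¹
      rw [inv_inv] at h1
      have h2 := (hf1 _).2 h1
      have h3 : g * s = (g * s * g⁻¹ * s⁻¹) * (s * g) := by group
      rw [h3, map_mul, h2, one_mul]
    · rw [← map_mul, hf1]; exact hz
    · rw [← map_mul, hs, map_one]
    · rw [Ne, hf1]; exact hrN
    · rw [Ne, hf1]; exact hsN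
    · rw [← map_mul, Ne, hf1]; exact hsrN
    · rw [← map_mul, hρ]
    · rw [← map_mul, hσ]
    · rw [← map_mul, hτ, map_mul]
    · rw [hmap, Subgroup.mem_centralizer_iff]
      intro n hn; exact (hcr n hn).symm
    · rw [hmap, Subgroup.mem_centralizer_iff]
      intro n hn; exact (hcs n hn).symm
    · rw [hmap]; intro h; exact hρC (hmemC ρ h)
    · rw [hmap]; intro h; exact hσC (hmemC σ h)
    · rw [hmap]; intro h; exact hτC (hmemC τ h)
  have : Nat.card G = Nat.card (G ⧸ N) * 4 := by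
    rw [← hN]
    exact Subgroup.card_eq_card_quotient_mul_card_subgroup N
  omega

/-- A normal subgroup `T` of `G` of index two in `N`, not containing `z = r²`, is impossible. -/
theorem no_index_two {G : Type} [Group G] [Finite G] (N T : Subgroup G) [N.Normal] [T.Normal]
    (hTN : T ≤ N) (hind : Nat.card N = 2 * Nat.card T)
    (r s σ : G) (hσ : σ * σ = s) (hsr : s * r * s⁻¹ = r⁻¹)
    (hzT : r * r ∉ T) (hrc : ∀ h, h⁻¹ * r * h * r⁻¹ ∈ N) : False := by
  classical
  have hTpos : 0 < Nat.card T := Nat.card_pos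
  have hindex : (T.subgroupOf N).index = 2 := by
    have h1 := Subgroup.card_mul_index (T.subgroupOf N)
    have h2 : Nat.card (T.subgroupOf N) = Nat.card T :=
      Nat.card_congr (Subgroup.subgroupOfEquivOfLe hTN).toEquiv
    rw [h2, hind, mul_comm] at h1
    exact Nat.eq_of_mul_eq_mul_right hTpos h1
  have hmulT : ∀ a ∈ N, ∀ b ∈ N, (a * b ∈ T ↔ (a ∈ T ↔ b ∈ T)) := by
    intro a ha b hb
    have := Subgroup.mul_mem_iff_of_index_two hindex (a := ⟨a, ha⟩) (b := ⟨b, hb⟩)
    simpa [Subgroup.mem_subgroupOf] using this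
  obtain ⟨n, hn, h1⟩ : ∃ n ∈ N, σ⁻¹ * r * σ = n * r := ⟨_, hrc σ, by group⟩
  have hn' : σ⁻¹ * n * σ ∈ N := by
    have := (inferInstance : N.Normal).conj_mem n hn σ⁻¹
    simpa using this
  have h2 : (σ⁻¹ * n * σ) * n ∈ T := by
    rw [hmulT _ hn' _ hn]
    constructor
    · intro h
      have := (inferInstance : T.Normal).conj_mem _ h σ
      have h3 : σ * (σ⁻¹ * n * σ) * σ⁻¹ = n := by group
      rwa [h3] at this
    · intro h
      have := (inferInstance : T.Normal).conj_mem _ h σ⁻¹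
      simpa using this
  have h3 : (σ⁻¹ * n * σ) * n = r⁻¹ * r⁻¹ := by
    have h4 : s⁻¹ * r * s = r⁻¹ := by
      have : s⁻¹ * (s * r * s⁻¹)⁻¹ * s = s⁻¹ * r * s := by rw [hsr, inv_inv]
      rw [← this]; group
    have h5 : s⁻¹ * r * s = (σ⁻¹ * n * σ) * n * r := by
      calc s⁻¹ * r * s = σ⁻¹ * (σ⁻¹ * r * σ) * σ := by rw [← hσ]; group
        _ = σ⁻¹ * (n * r) * σ := by rw [h1]
        _ = (σ⁻¹ * n * σ) * (σ⁻¹ * r * σ) := by group
        _ = (σ⁻¹ * n * σ) * n * r := by rw [h1]; group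
    rw [h4] at h5
    calc σ⁻¹ * n * σ * n = (σ⁻¹ * n * σ * n * r) * r⁻¹ := by group
      _ = r⁻¹ * r⁻¹ := by rw [← h5]
  rw [h3] at h2
  apply hzT
  have := T.inv_mem h2
  have h6 : (r⁻¹ * r⁻¹)⁻¹ = r * r := by rw [mul_inv_rev, inv_inv]
  rwa [h6] at this

theorem lemN {G : Type} [Group G] [Finite G] (N : Subgroup G) [N.Normal]
    (r s ρ σ τ : G) (hρ : ρ * ρ = r) (hσ : σ * σ = s) (hτ : τ * τ = s * r)
    (hs : s * s = 1) (hsr : s * r * s⁻¹ = r⁻¹) (hz1 : r * r ≠ 1) (hr4 : (r * r) * (r * r) = 1)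
    (hz : r * r ∈ N) (hrN : r ∉ N) (hsN : s ∉ N) (hsrN : s * r ∉ N)
    (hrc : ∀ h, h⁻¹ * r * h * r⁻¹ ∈ N) (hsc : ∀ h, h⁻¹ * s * h * s⁻¹ ∈ N) :
    128 ≤ Nat.card G := by
  classical
  let f : G →* G ⧸ N := QuotientGroup.mk' N
  have hfsurj : Function.Surjective f := QuotientGroup.mk'_surjective N
  have hf1 : ∀ g : G, f g = 1 ↔ g ∈ N := by
    intro g
    exact QuotientGroup.eq_one_iff g
  have hQ : 16 ≤ Nat.card (G ⧸ N) := by
    refine lemQ1 (f r) (f s) (f ρ) (f σ) (f τ) ?_ ?_ ?_ ?_ ?_ ?_ ?_ ?_ ?_ ?_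
    · intro q
      obtain ⟨g, rfl⟩ := hfsurj q
      rw [← map_mul, ← map_mul]
      have h1 := hrc g⁻¹
      rw [inv_inv] at h1
      have h2 := (hf1 _).2 h1
      have h3 : g * r = (g * r * g⁻¹ * r⁻¹) * (r * g) := by group
      rw [h3, map_mul, h2, one_mul]
    · intro q
      obtain ⟨g, rfl⟩ := hfsurj q
      rw [← map_mul, ← map_mul]
      have h1 := hsc g⁻¹
      rw [inv_inv] at h1
      have h2 := (hf1 _).2 h1
      have h3 : g * s = (g * s * g⁻¹ * s⁻¹) * (s * g) := by group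
      rw [h3, map_mul, h2, one_mul]
    · rw [← map_mul, hf1]; exact hz
    · rw [← map_mul, hs, map_one]
    · rw [Ne, hf1]; exact hrN
    · rw [Ne, hf1]; exact hsN
    · rw [← map_mul, Ne, hf1]; exact hsrN
    · rw [← map_mul, hρ]
    · rw [← map_mul, hσ]
    · rw [← map_mul, hτ, map_mul]
  have hcard : Nat.card G = Nat.card (G ⧸ N) * Nat.card N :=
    Subgroup.card_eq_card_quotient_mul_card_subgroup N
  by_contra hlt
  push Not at hlt
  have hN8 : Nat.card N < 8 := by
    by_contra h8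
    push Not at h8
    have := Nat.mul_le_mul hQ h8
    omega
  have hord : orderOf (r * r) = 2 := by
    rw [orderOf_eq_prime_iff]
    exact ⟨by rw [pow_two]; exact hr4, hz1⟩
  have hdvd : 2 ∣ Nat.card N := by
    have h1 : orderOf (⟨r * r, hz⟩ : N) = 2 := by
      rw [← hord]
      exact (Subgroup.orderOf_mk (r * r) hz)
    rw [← h1]
    exact orderOf_dvd_natCard _
  have hpos : 0 < Nat.card N := Nat.card_pos
  have hcases : Nat.card N = 2 ∨ Nat.card N = 4 ∨ Nat.card N = 6 := by omega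
  rcases hcases with h2 | h4 | h6
  · refine no_index_two N (⊥ : Subgroup G) bot_le ?_ r s σ hσ hsr ?_ hrc
    · rw [h2, Subgroup.card_bot]
    · rw [Subgroup.mem_bot]; exact hz1
  · have := lemN4 N h4 r s ρ σ τ hρ hσ hτ hs hsr hz1 hr4 hz hrN hsN hsrN hrc hsc
    omega
  · haveI : Fact (Nat.Prime 3) := ⟨Nat.prime_three⟩
    obtain ⟨P⟩ : Nonempty (Sylow 3 N) := inferInstance
    have hP3 : Nat.card P = 3 := by
      rw [P.card_eq_multiplicity, h6]
      have : Nat.factorization 6 3 = 1 := by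
        have h66 : (6 : ℕ) = 2 * 3 := by norm_num
        rw [h66, Nat.factorization_mul (by norm_num) (by norm_num)]
        simp [Nat.Prime.factorization Nat.prime_two, Nat.Prime.factorization Nat.prime_three]
      rw [this, pow_one]
    have hPind : (P : Subgroup N).index = 2 := by
      have h1 := Subgroup.card_mul_index (P : Subgroup N)
      have h2 : Nat.card (P : Subgroup N) = 3 := hP3
      rw [h2, h6] at h1
      omega
    have hPn : (P : Subgroup N).Normal := Subgroup.normal_of_index_eq_two hPind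
    have hPc : (P : Subgroup N).Characteristic := Sylow.characteristic_of_normal P hPn
    set T : Subgroup G := (P : Subgroup N).map N.subtype with hT
    haveI hTn : T.Normal := ConjAct.normal_of_characteristic_of_normal
    have hTcard : Nat.card T = 3 := by
      rw [hT, Subgroup.card_map_of_injective N.subtype_injective]
      exact hP3
    refine no_index_two N T ?_ ?_ r s σ hσ hsr ?_ hrc
    · rw [hT]; exact Subgroup.map_subtype_le _
    · rw [h6, hTcard]
    · intro hzT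
      have h1 : orderOf (⟨r * r, hzT⟩ : T) = 2 := by
        rw [← hord]
        exact (Subgroup.orderOf_mk (r * r) hzT)
      have h2 : 2 ∣ Nat.card T := by
        rw [← h1]; exact orderOf_dvd_natCard _
      rw [hTcard] at h2
      omega

end Pool.Agent.Hhelper5.Roots
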