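import Mathlib
import Pool.Agent.Hhelper5.Roots.Comm

set_option autoImplicit false
set_option linter.all false

namespace Pool.Agent.Hhelper5.Roots

noncomputable section

open Subgroup

/-- If `x, y` commute, have order `p`, and `p ^ 2` does not divide the order of the group, then
`y` is a power of `x`. -/
theorem mem_zpowers_of_commute {Q : Type} [Group Q] [Finite Q] {p : ℕ} [Fact p.Prime]
    (hp2 : ¬ p ^ 2 ∣ Nat.card Q) {x y : Q} (hx : orderOf x = p) (hy : orderOf y = p)
    (hxy : x * y = y * x) : y ∈ zpowers x := by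
  have hX : IsPGroup p (zpowers x) := IsPGroup.of_card (n := 1) (by
    rw [Nat.card_zpowers, hx, pow_one])
  have hY : IsPGroup p (zpowers y) := IsPGroup.of_card (n := 1) (by
    rw [Nat.card_zpowers, hy, pow_one])
  have hle : zpowers y ≤ normalizer (zpowers x : Set Q) := by
    rw [zpowers_le, mem_normalizer_iff]
    intro g
    have key : ∀ z : Q, x * z = z * x → ∀ g ∈ zpowers x, z * g * z⁻¹ ∈ zpowers x := by
      intro z hz g hg
      obtain ⟨k, rfl⟩ := mem_zpowers_iff.1 hg
      have : z * x ^ k = x ^ k * z := ((show Commute z x from hz.symm).zpow_right k).eq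
      rw [this]
      simpa using hg
    constructor
    · exact key y hxy g
    · intro hg
      have hz : x * y⁻¹ = y⁻¹ * x := ((show Commute x y from hxy).inv_right).eq
      have := key y⁻¹ hz _ hg
      have h2 : y⁻¹ * (y * g * y⁻¹) * y⁻¹⁻¹ = g := by group
      rwa [h2] at this
  have hS : IsPGroup p (zpowers y ⊔ zpowers x : Subgroup Q) :=
    hY.to_sup_of_normal_right' hX hle
  obtain ⟨k, hk⟩ := IsPGroup.iff_card.1 hS
  have hk1 : k ≤ 1 := by
    by_contra hcon
    apply hp2
    have h1 : p ^ 2 ∣ p ^ k := pow_dvd_pow p (by omega)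
    rw [← hk] at h1
    exact h1.trans (Subgroup.card_subgroup_dvd_card _)
  have h2 : zpowers x = zpowers y ⊔ zpowers x := by
    apply eq_of_le_of_card_ge le_sup_right
    rw [hk, Nat.card_zpowers, hx]
    calc p ^ k ≤ p ^ 1 := Nat.pow_le_pow_right (Fact.out : p.Prime).pos hk1
      _ = p := pow_one p
  rw [h2]
  exact le_sup_left (a := zpowers y) (mem_zpowers y)

/-- **Theorem B'.** -/
theorem thmB (H : Type) [Group H] [Finite H] (p : ℕ) [Fact p.Prime] (x h : H)
    (hx : orderOf x = p) (hp2 : ¬ p ^ 2 ∣ Nat.card H) (B : ℕ) (hB : Nat.card H < B * p ^ 2)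
    (hpB : 2 * B ^ 2 < p) (hinv : (h * h) * x * (h * h)⁻¹ = x⁻¹) : IsSquare (-1 : ZMod p) := by
  classical
  haveI : Fintype H := Fintype.ofFinite H
  -- general endgame
  have endgame : ∀ (Q : Type) [Group Q] (x' h' : Q), orderOf x' = p →
      (h' * h') * x' * (h' * h')⁻¹ = x'⁻¹ → (∃ k : ℕ, h' * x' * h'⁻¹ = x' ^ k) →
      IsSquare (-1 : ZMod p) := by
    intro Q _ x' h' hx' hinv' ⟨k, hk⟩
    refine ⟨(k : ZMod p), ?_⟩
    have h1 : (h' * h') * x' * (h' * h')⁻¹ = x' ^ (k * k) := by
      have h2 : (h' * h') * x' * (h' * h')⁻¹ = h' * (h' * x' * h'⁻¹) * h'⁻¹ := by group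
      rw [h2, hk, ← conj_pow, hk, ← pow_mul]
    rw [hinv'] at h1
    have h3 : x' ^ (k * k + 1) = 1 := by
      rw [pow_succ, ← h1]; group
    have h4 := orderOf_dvd_of_pow_eq_one h3
    rw [hx', ← ZMod.natCast_eq_zero_iff] at h4
    push_cast at h4
    exact (eq_neg_of_add_eq_zero_left h4).symm
  by_cases hall : ∀ h0 : H, InN x h0
  · apply endgame H x h hx hinv
    have h1 := InN_inv hx (hall h)
    refine ⟨(nlog p x h⁻¹).val, ?_⟩
    have := conj_x hx h1
    simpa using this
  · push Not at hall
    obtain ⟨h0, hh0⟩ := hall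
    have hg : Good p x := good_of hx hp2
    obtain ⟨n, d, hd, ⟨Φ⟩⟩ := exists_wedd H
    have hNB : Nat.card (NN hx) < B * p := by
      have h1 := NN_card_mul_lt hx hp2 h0 hh0
      have h2 : Nat.card (NN hx) * p < B * p * p := by
        calc _ < _ := h1
          _ < B * p ^ 2 := hB
          _ = B * p * p := by ring
      exact Nat.lt_of_mul_lt_mul_right h2
    obtain ⟨i0, hdB, he0, hZ, hstar⟩ := exceptional Φ hx hg B hB hNB hpB
      (fun i => Nat.pos_of_ne_zero (hd i).ne)
    have hcomm := commute_main Φ hx hg B i0 hpB hdB hZ hstar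
    haveI := hd i0
    have hxne : rho Φ i0 x ≠ 1 := by
      intro h1
      have h2 : ∀ y ∈ zpowers x, Φ (MonoidAlgebra.single y 1) i0 = 1 := by
        intro y hy
        obtain ⟨j, hj⟩ : ∃ j : ℕ, x ^ j = y := ⟨_, pow_dlog hx hy⟩
        change rho Φ i0 y = 1
        rw [← hj, map_pow, h1, one_pow]
      have h3 : Φ (eP x (0 : ZMod p)) i0 = 1 := by
        rw [eP, idem, map_sum, Finset.sum_apply]
        have h4 : ∀ y : H, (Φ (if y ∈ zpowers x then
            MonoidAlgebra.single y (th x (0 : ZMod p) y⁻¹ / (Nat.card (zpowers x) : ℂ)) else 0)) i0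
            = if y ∈ zpowers x then
              ((Nat.card (zpowers x) : ℂ)⁻¹) • (1 : Matrix (Fin (d i0)) (Fin (d i0)) ℂ) else 0 := by
          intro y
          split_ifs with hy
          · have : (MonoidAlgebra.single y (th x (0 : ZMod p) y⁻¹ / (Nat.card (zpowers x) : ℂ)) :
                MonoidAlgebra ℂ H) =
                ((Nat.card (zpowers x) : ℂ)⁻¹) • MonoidAlgebra.single y (1 : ℂ) := by
              simp [th]
            rw [this, map_smul, Pi.smul_apply, h2 y hy]
          · simp
        simp_rw [h4]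
        rw [← Finset.sum_filter, Finset.sum_const, ← Nat.cast_smul_eq_nsmul ℂ, smul_smul]
        have h8 : (Finset.univ.filter (fun y => y ∈ zpowers x)).card = Nat.card (zpowers x) := by
          rw [Nat.card_eq_fintype_card, Fintype.card_subtype]
        rw [h8, mul_inv_cancel₀, one_smul]
        exact_mod_cast (Nat.card_pos (α := zpowers x)).ne'
      rw [he0] at h3
      exact zero_ne_one h3
    -- pass to the quotient by the kernel
    let K : Subgroup H := (rho Φ i0).ker
    have hKmem : ∀ g : H, g ∈ K ↔ rho Φ i0 g = 1 := fun g => MonoidHom.mem_ker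
    let Q := H ⧸ K
    let π : H →* Q := QuotientGroup.mk' K
    have hxπ : orderOf (π x) = p := by
      apply orderOf_eq_prime
      · rw [← map_pow, ← hx, pow_orderOf_eq_one, map_one]
      · intro h1
        apply hxne
        rw [← hKmem]
        exact (QuotientGroup.eq_one_iff x).1 h1
    have hyπ : orderOf (π (h * x * h⁻¹)) = p := by
      have : π (h * x * h⁻¹) = (MulAut.conj (π h)) (π x) := by simp
      rw [this, MulEquiv.orderOf_eq, hxπ]
    have hcommπ : π x * π (h * x * h⁻¹) = π (h * x * h⁻¹) * π x := by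
      rw [← map_mul, ← map_mul]
      apply (QuotientGroup.eq (s := K)).2
      rw [hKmem]
      rw [map_mul, ← hcomm h, ← map_mul, inv_mul_cancel, map_one]
    have hcardQ : ¬ p ^ 2 ∣ Nat.card Q := by
      intro h1
      exact hp2 (h1.trans (Subgroup.card_quotient_dvd_card K))
    have hmem := mem_zpowers_of_commute hcardQ hxπ hyπ hcommπ
    apply endgame Q (π x) (π h) hxπ
    · rw [← map_mul, ← map_mul, ← map_inv, ← map_mul, hinv, map_inv]
    · refine ⟨(dlog p (π x) (π (h * x * h⁻¹))).val, ?_⟩
      rw [pow_dlog hxπ hmem]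
      simp

end

end Pool.Agent.Hhelper5.Roots
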