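import Mathlib
import Pool.Agent.Hhelper5.Roots.LemN
import Pool.Agent.Hhelper5.Roots.ThmB

set_option autoImplicit false
set_option linter.all false

namespace Pool.Agent.Hhelper5.Roots

open Subgroup

/-- If `g = h²` acts with `g² = 1` and nontrivially on a normal subgroup of order `p²` and `-1` is
not a square modulo `p`, then `g` inverts it. -/
theorem inv_conj {H : Type} [Group H] [Finite H] (p : ℕ) [Fact p.Prime]
    (hm1 : ¬ IsSquare (-1 : ZMod p)) (P : Subgroup H) (hPn : P.Normal) (hP : Nat.card P = p ^ 2)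
    (h g : H) (hg : h * h = g)
    (hfour : ∀ y ∈ P, g * (g * y * g⁻¹) * g⁻¹ = y)
    (x : H) (hx : x ∈ P) (hxne : g * x * g⁻¹ ≠ x) :
    ∀ y ∈ P, g * y * g⁻¹ = y⁻¹ := by
  classical
  have hpp : p.Prime := Fact.out
  have hab : ∀ a ∈ P, ∀ b ∈ P, a * b = b * a := by
    have := IsPGroup.isMulCommutative_of_card_eq_prime_sq (p := p) (G := P) hP
    intro a ha b hb
    have h := this.is_comm.comm (⟨a, ha⟩ : P) ⟨b, hb⟩
    exact congrArg Subtype.val h
  let A : Subgroup H :=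
    { carrier := {y | y ∈ P ∧ g * y * g⁻¹ = y⁻¹}
      one_mem' := ⟨P.one_mem, by group⟩
      mul_mem' := by
        rintro a b ⟨ha, ha'⟩ ⟨hb, hb'⟩
        refine ⟨P.mul_mem ha hb, ?_⟩
        calc g * (a * b) * g⁻¹ = (g * a * g⁻¹) * (g * b * g⁻¹) := by group
          _ = a⁻¹ * b⁻¹ := by rw [ha', hb']
          _ = (b * a)⁻¹ := by rw [mul_inv_rev]
          _ = (a * b)⁻¹ := by rw [hab a ha b hb]
      inv_mem' := by
        rintro a ⟨ha, ha'⟩
        refine ⟨P.inv_mem ha, ?_⟩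
        calc g * a⁻¹ * g⁻¹ = (g * a * g⁻¹)⁻¹ := by group
          _ = (a⁻¹)⁻¹ := by rw [ha'] }
  have hmemA : ∀ y, y ∈ A ↔ y ∈ P ∧ g * y * g⁻¹ = y⁻¹ := fun y => Iff.rfl
  have hAP : A ≤ P := fun y hy => ((hmemA y).1 hy).1
  -- the element b
  set b : H := g * x * g⁻¹ * x⁻¹ with hb
  have hbP : b ∈ P := P.mul_mem (hPn.conj_mem x hx g) (P.inv_mem hx)
  have hbA : b ∈ A := by
    rw [hmemA]
    refine ⟨hbP, ?_⟩
    have h1 := hfour x hx
    calc g * b * g⁻¹ = (g * (g * x * g⁻¹) * g⁻¹) * (g * x * g⁻¹)⁻¹ := by rw [hb]; group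
      _ = x * (g * x * g⁻¹)⁻¹ := by rw [h1]
      _ = b⁻¹ := by rw [hb]; group
  have hb1 : b ≠ 1 := by
    intro h
    apply hxne
    rw [hb, mul_inv_eq_one] at h
    exact h
  have hcardA : Nat.card A ∣ p ^ 2 := by
    rw [← hP]
    exact Subgroup.card_dvd_of_le hAP
  obtain ⟨k, hk, hk'⟩ := (Nat.dvd_prime_pow hpp).1 hcardA
  have hcases : k = 0 ∨ k = 1 ∨ k = 2 := by omega
  rcases hcases with rfl | rfl | rfl
  · exfalso
    rw [pow_zero] at hk'
    have : A = ⊥ := Subgroup.card_eq_one.mp hk'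
    rw [this, Subgroup.mem_bot] at hbA
    exact hb1 hbA
  · exfalso
    rw [pow_one] at hk'
    have hord : orderOf b = p := by
      have h1 : orderOf b ∣ p := by
        rw [← hk']
        have := orderOf_dvd_natCard (⟨b, hbA⟩ : A)
        rwa [Subgroup.orderOf_mk] at this
      rcases (Nat.dvd_prime hpp).1 h1 with h2 | h2
      · exact absurd (orderOf_eq_one_iff.1 h2) hb1
      · exact h2
    have hhb : h * b * h⁻¹ ∈ A := by
      rw [hmemA]
      have hb2 := ((hmemA b).1 hbA).2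
      refine ⟨hPn.conj_mem b hbP h, ?_⟩
      calc g * (h * b * h⁻¹) * g⁻¹ = h * (g * b * g⁻¹) * h⁻¹ := by rw [← hg]; group
        _ = h * b⁻¹ * h⁻¹ := by rw [hb2]
        _ = (h * b * h⁻¹)⁻¹ := by group
    have hz : (⟨h * b * h⁻¹, hhb⟩ : A) ∈ Subgroup.zpowers (⟨b, hbA⟩ : A) := by
      apply mem_zpowers_of_prime_card hk'
      intro h
      exact hb1 (congrArg Subtype.val h)
    obtain ⟨k, hk⟩ := Subgroup.mem_zpowers_iff.1 hz
    have hk2 : b ^ k = h * b * h⁻¹ := by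
      have := congrArg Subtype.val hk
      simpa using this
    have hk3 : b ^ (k * k) = b⁻¹ := by
      have hb2 := ((hmemA b).1 hbA).2
      calc b ^ (k * k) = (b ^ k) ^ k := zpow_mul b k k
        _ = (h * b * h⁻¹) ^ k := by rw [hk2]
        _ = h * b ^ k * h⁻¹ := by rw [conj_zpow]
        _ = h * (h * b * h⁻¹) * h⁻¹ := by rw [hk2]
        _ = g * b * g⁻¹ := by rw [← hg]; group
        _ = b⁻¹ := hb2
    have hk4 : b ^ (k * k + 1) = 1 := by
      rw [zpow_add, hk3, zpow_one, inv_mul_cancel]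
    have hk5 : (p : ℤ) ∣ k * k + 1 := by
      rw [← hord]; exact orderOf_dvd_iff_zpow_eq_one.2 hk4
    apply hm1
    refine ⟨(k : ZMod p), ?_⟩
    have h6 : ((k * k + 1 : ℤ) : ZMod p) = 0 := by
      rw [ZMod.intCast_zmod_eq_zero_iff_dvd]
      exact hk5
    push_cast at h6
    linear_combination (-1 : ZMod p) * h6
  · have : A = P := by
      apply Subgroup.eq_of_le_of_card_ge hAP
      rw [hP, hk']
    intro y hy
    rw [← this] at hy
    exact ((hmemA y).1 hy).2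

theorem exists_normal_sylow {H : Type} [Group H] [Finite H] (p : ℕ) [Fact p.Prime] (B : ℕ)
    (hdvd : p ^ 2 ∣ Nat.card H) (hB : Nat.card H < B * p ^ 2) (hpB : B ≤ p) :
    ∃ P : Subgroup H, P.Normal ∧ Nat.card P = p ^ 2 ∧ ∀ x : H, orderOf x = p → x ∈ P := by
  classical
  have hpp : p.Prime := Fact.out
  have hpos : 0 < Nat.card H := Nat.card_pos
  obtain ⟨P⟩ : Nonempty (Sylow p H) := inferInstance
  have h3 : ¬ p ^ 3 ∣ Nat.card H := by
    intro h
    have h1 := Nat.le_of_dvd hpos h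
    have h2 : B * p ^ 2 ≤ p * p ^ 2 := Nat.mul_le_mul_right _ hpB
    have h4 : p ^ 3 = p * p ^ 2 := by ring
    omega
  have hf : (Nat.card H).factorization p = 2 := by
    have h1 : 2 ≤ (Nat.card H).factorization p :=
      (hpp.pow_dvd_iff_le_factorization hpos.ne').1 hdvd
    have h2 : ¬ 3 ≤ (Nat.card H).factorization p := fun h =>
      h3 ((hpp.pow_dvd_iff_le_factorization hpos.ne').2 h)
    omega
  have hPcard : Nat.card P = p ^ 2 := by
    rw [P.card_eq_multiplicity, hf]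
  have hindex : (P : Subgroup H).index < p := by
    have h1 := Subgroup.card_mul_index (P : Subgroup H)
    have h2 : Nat.card (P : Subgroup H) = p ^ 2 := hPcard
    rw [h2] at h1
    have h4 : p ^ 2 * (P : Subgroup H).index < p ^ 2 * p := by
      rw [h1]
      calc Nat.card H < B * p ^ 2 := hB
        _ ≤ p * p ^ 2 := Nat.mul_le_mul_right _ hpB
        _ = p ^ 2 * p := by ring
    exact Nat.lt_of_mul_lt_mul_left h4
  have hn1 : Nat.card (Sylow p H) = 1 := by
    have h1 := card_sylow_modEq_one p H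
    have h2 : Nat.card (Sylow p H) ∣ (P : Subgroup H).index := P.card_dvd_index
    have h4 : (P : Subgroup H).index ≠ 0 := Subgroup.index_ne_zero_of_finite
    have h5 : Nat.card (Sylow p H) ≤ (P : Subgroup H).index :=
      Nat.le_of_dvd (Nat.pos_of_ne_zero h4) h2
    have h6 : Nat.card (Sylow p H) < p := lt_of_le_of_lt h5 hindex
    rw [Nat.ModEq, Nat.mod_eq_of_lt h6, Nat.mod_eq_of_lt hpp.one_lt] at h1
    exact h1
  have hss : Subsingleton (Sylow p H) := by
    rw [Nat.card_eq_one_iff_unique] at hn1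
    exact hn1.1
  refine ⟨P, Sylow.normal_of_subsingleton P, hPcard, ?_⟩
  intro x hx
  have hxp : IsPGroup p (Subgroup.zpowers x) := by
    apply IsPGroup.of_card (n := 1)
    rw [Nat.card_zpowers, hx, pow_one]
  obtain ⟨Q, hQ⟩ := hxp.exists_le_sylow
  rw [Subsingleton.elim P Q]
  exact hQ (Subgroup.mem_zpowers x)

/-- If `a` inverts the normal subgroup `P` then commutators with `a` centralise `P`. -/
theorem comm_of_inverts {H : Type} [Group H] (P : Subgroup H) (hPn : P.Normal) (a : H)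
    (ha : ∀ y ∈ P, a * y * a⁻¹ = y⁻¹) (h : H) :
    h⁻¹ * a * h * a⁻¹ ∈ Subgroup.centralizer (P : Set H) := by
  rw [Subgroup.mem_centralizer_iff]
  intro y hy
  have hy' : a⁻¹ * y * a = y⁻¹ := by
    have h1 := ha y⁻¹ (P.inv_mem hy)
    rw [inv_inv] at h1
    calc a⁻¹ * y * a = a⁻¹ * (a * y⁻¹ * a⁻¹) * a := by rw [h1]
      _ = y⁻¹ := by group
  have h2 : h * y⁻¹ * h⁻¹ ∈ P := hPn.conj_mem _ (P.inv_mem hy) h
  have h3 := ha _ h2
  have h4 : (h⁻¹ * a * h * a⁻¹) * y * (h⁻¹ * a * h * a⁻¹)⁻¹ = y := by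
    calc (h⁻¹ * a * h * a⁻¹) * y * (h⁻¹ * a * h * a⁻¹)⁻¹
        = h⁻¹ * (a * (h * (a⁻¹ * y * a) * h⁻¹) * a⁻¹) * h := by group
      _ = h⁻¹ * (h * y⁻¹ * h⁻¹)⁻¹ * h := by rw [hy', h3]
      _ = y := by group
  rw [mul_inv_eq_iff_eq_mul] at h4
  exact h4.symm

theorem comm_of_centralizes {H : Type} [Group H] (P : Subgroup H) (hPn : P.Normal) (a : H)
    (ha : a ∈ Subgroup.centralizer (P : Set H)) (h : H) :
    h⁻¹ * a * h * a⁻¹ ∈ Subgroup.centralizer (P : Set H) := by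
  have hn : (Subgroup.centralizer (P : Set H)).Normal := inferInstance
  apply Subgroup.mul_mem _ _ (Subgroup.inv_mem _ ha)
  have := hn.conj_mem a ha h⁻¹
  simpa using this

theorem ne_inv_of_orderOf {H : Type} [Group H] {x : H} {p : ℕ} (hx : orderOf x = p) (hp : 2 < p) :
    x⁻¹ ≠ x := by
  intro h
  have h1 : x ^ 2 = 1 := by
    rw [pow_two]
    nth_rewrite 1 [← h]
    exact inv_mul_cancel x
  have h2 : orderOf x ∣ 2 := orderOf_dvd_of_pow_eq_one h1
  have := Nat.le_of_dvd (by norm_num) h2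
  omega

/-- The core lower bound. -/
theorem lower_core (H : Type) [Group H] [Finite H] (p1 p2 : ℕ) [Fact p1.Prime] [Fact p2.Prime]
    (hm1 : ¬ IsSquare (-1 : ZMod p1)) (hm2 : ¬ IsSquare (-1 : ZMod p2))
    (hb1 : 2 * 128 ^ 2 < p1) (hb2 : 2 * (128 * p1 ^ 2) ^ 2 < p2)
    (x1 x2 r s ρ σ τ : H) (hx1 : orderOf x1 = p1) (hx2 : orderOf x2 = p2)
    (hρ : ρ * ρ = r) (hσ : σ * σ = s) (hτ : τ * τ = s * r)
    (hs : s * s = 1) (hsr : s * r * s⁻¹ = r⁻¹) (hz1 : r * r ≠ 1) (hr4 : (r * r) * (r * r) = 1)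
    (hrx1 : r * x1 * r⁻¹ = x1) (hsx1 : s * x1 * s⁻¹ = x1⁻¹)
    (hrx2 : r * x2 * r⁻¹ = x2⁻¹) (hsx2 : s * x2 * s⁻¹ = x2) :
    128 * p1 ^ 2 * p2 ^ 2 ≤ Nat.card H := by
  classical
  by_contra hlt
  push Not at hlt
  have hp1p : p1.Prime := Fact.out
  have hp2p : p2.Prime := Fact.out
  have hp1pos : 0 < p1 := hp1p.pos
  have hp2pos : 0 < p2 := hp2p.pos
  have hBge : 128 * p1 ^ 2 ≤ 2 * (128 * p1 ^ 2) ^ 2 := by
    have h1 : 0 < 128 * p1 ^ 2 := by positivity
    nlinarith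
  have hBp2 : 128 * p1 ^ 2 ≤ p2 := le_of_lt (lt_of_le_of_lt hBge hb2)
  have hp12 : p1 < p2 := by
    have : p1 ≤ 128 * p1 ^ 2 := by nlinarith
    have h2 : 128 * p1 ^ 2 < p2 := lt_of_le_of_lt hBge hb2
    omega
  have hpos : 0 < Nat.card H := Nat.card_pos
  have hzinv : (r * r)⁻¹ = r * r := inv_eq_of_mul_eq_one_left hr4
  -- Step A
  have hA : p2 ^ 2 ∣ Nat.card H := by
    by_contra hA
    apply hm2
    refine thmB H p2 x2 ρ hx2 hA (128 * p1 ^ 2) hlt hb2 ?_
    rw [hρ]; exact hrx2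
  obtain ⟨P2, hP2n, hP2c, hP2x⟩ := exists_normal_sylow p2 (128 * p1 ^ 2) hA hlt hBp2
  have hx2P : x2 ∈ P2 := hP2x x2 hx2
  -- the quotient
  let f : H →* H ⧸ P2 := QuotientGroup.mk' P2
  have hfs : Function.Surjective f := QuotientGroup.mk'_surjective P2
  have hf1 : ∀ g : H, f g = 1 ↔ g ∈ P2 := fun g => QuotientGroup.eq_one_iff g
  have hcH : Nat.card H = Nat.card (H ⧸ P2) * p2 ^ 2 := by
    rw [← hP2c]
    exact Subgroup.card_eq_card_quotient_mul_card_subgroup P2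
  have hcH1 : Nat.card (H ⧸ P2) < 128 * p1 ^ 2 := by
    rw [hcH] at hlt
    exact Nat.lt_of_mul_lt_mul_right hlt
  have hfx1 : orderOf (f x1) = p1 := by
    have h1 : orderOf (f x1) ∣ p1 := by rw [← hx1]; exact orderOf_map_dvd f x1
    rcases (Nat.dvd_prime hp1p).1 h1 with h2 | h2
    · exfalso
      rw [orderOf_eq_one_iff, hf1] at h2
      have h3 := orderOf_dvd_natCard (⟨x1, h2⟩ : P2)
      rw [Subgroup.orderOf_mk, hx1, hP2c] at h3
      have h4 := hp1p.dvd_of_dvd_pow h3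
      have h5 := (Nat.prime_dvd_prime_iff_eq hp1p hp2p).1 h4
      omega
    · exact h2
  have hB : p1 ^ 2 ∣ Nat.card (H ⧸ P2) := by
    by_contra hB
    apply hm1
    refine thmB (H ⧸ P2) p1 (f x1) (f σ) hfx1 hB 128 hcH1 hb1 ?_
    rw [← map_mul, hσ, ← map_mul, ← map_inv, ← map_mul, hsx1, map_inv]
  obtain ⟨P1, hP1n, hP1c, hP1x⟩ := exists_normal_sylow p1 128 hB hcH1 (by omega)
  have hx1P : f x1 ∈ P1 := hP1x _ hfx1
  -- actions on P2
  have hx2ne : x2⁻¹ ≠ x2 := ne_inv_of_orderOf hx2 (by omega)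
  have hx1ne : (f x1)⁻¹ ≠ f x1 := ne_inv_of_orderOf hfx1 (by omega)
  have hzP2 : ∀ y ∈ P2, (r * r) * y * (r * r)⁻¹ = y := by
    by_contra hcon
    push Not at hcon
    obtain ⟨y, hy, hyne⟩ := hcon
    have h1 := inv_conj p2 hm2 P2 hP2n hP2c r (r * r) rfl (by
      intro y hy
      calc (r * r) * ((r * r) * y * (r * r)⁻¹) * (r * r)⁻¹
          = ((r * r) * (r * r)) * y * ((r * r) * (r * r))⁻¹ := by group
        _ = y := by rw [hr4]; group) y hy hyne x2 hx2P
    have h2 : (r * r) * x2 * (r * r)⁻¹ = x2 := by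
      calc (r * r) * x2 * (r * r)⁻¹ = r * (r * x2 * r⁻¹) * r⁻¹ := by group
        _ = r * x2⁻¹ * r⁻¹ := by rw [hrx2]
        _ = (r * x2 * r⁻¹)⁻¹ := by group
        _ = x2 := by rw [hrx2, inv_inv]
    rw [h2] at h1
    exact hx2ne h1.symm
  have hrP2 : ∀ y ∈ P2, r * y * r⁻¹ = y⁻¹ := by
    refine inv_conj p2 hm2 P2 hP2n hP2c ρ r hρ ?_ x2 hx2P ?_
    · intro y hy
      calc r * (r * y * r⁻¹) * r⁻¹ = (r * r) * y * (r * r)⁻¹ := by group
        _ = y := hzP2 y hy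
    · rw [hrx2]; exact hx2ne
  have hsr2 : (s * r) * (s * r) = 1 := by
    calc (s * r) * (s * r) = (s * r * s⁻¹) * (s * s) * r := by group
      _ = 1 := by rw [hsr, hs]; group
  have hsrP2 : ∀ y ∈ P2, (s * r) * y * (s * r)⁻¹ = y⁻¹ := by
    refine inv_conj p2 hm2 P2 hP2n hP2c τ (s * r) hτ ?_ x2 hx2P ?_
    · intro y hy
      calc (s * r) * ((s * r) * y * (s * r)⁻¹) * (s * r)⁻¹
          = ((s * r) * (s * r)) * y * ((s * r) * (s * r))⁻¹ := by group
        _ = y := by rw [hsr2]; group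
    · have : (s * r) * x2 * (s * r)⁻¹ = x2⁻¹ := by
        calc (s * r) * x2 * (s * r)⁻¹ = s * (r * x2 * r⁻¹) * s⁻¹ := by group
          _ = (s * x2 * s⁻¹)⁻¹ := by rw [hrx2]; group
          _ = x2⁻¹ := by rw [hsx2]
      rw [this]; exact hx2ne
  have hsP2 : s ∈ Subgroup.centralizer (P2 : Set H) := by
    rw [Subgroup.mem_centralizer_iff]
    intro y hy
    have hy1 : r⁻¹ * y * r = y⁻¹ := by
      have h1 := hrP2 y⁻¹ (P2.inv_mem hy)
      rw [inv_inv] at h1
      calc r⁻¹ * y * r = r⁻¹ * (r * y⁻¹ * r⁻¹) * r := by rw [h1]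
        _ = y⁻¹ := by group
    have h2 : s * y * s⁻¹ = y := by
      calc s * y * s⁻¹ = (s * r) * (r⁻¹ * y * r) * (s * r)⁻¹ := by group
        _ = (s * r) * y⁻¹ * (s * r)⁻¹ := by rw [hy1]
        _ = (y⁻¹)⁻¹ := hsrP2 _ (P2.inv_mem hy)
        _ = y := inv_inv y
    rw [mul_inv_eq_iff_eq_mul] at h2
    exact h2.symm
  -- actions on P1
  have hfs2 : f s * f s = 1 := by rw [← map_mul, hs, map_one]
  have hfsr2 : f (s * r) * f (s * r) = 1 := by rw [← map_mul, hsr2, map_one]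
  have hsP1 : ∀ y ∈ P1, f s * y * (f s)⁻¹ = y⁻¹ := by
    refine inv_conj p1 hm1 P1 hP1n hP1c (f σ) (f s) (by rw [← map_mul, hσ]) ?_ (f x1) hx1P ?_
    · intro y hy
      calc f s * (f s * y * (f s)⁻¹) * (f s)⁻¹ = (f s * f s) * y * (f s * f s)⁻¹ := by group
        _ = y := by rw [hfs2]; group
    · rw [← map_inv, ← map_mul, ← map_mul, hsx1, map_inv]; exact hx1ne
  have hsrP1 : ∀ y ∈ P1, f (s * r) * y * (f (s * r))⁻¹ = y⁻¹ := by
    refine inv_conj p1 hm1 P1 hP1n hP1c (f τ) (f (s * r)) (by rw [← map_mul, hτ]) ?_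
      (f x1) hx1P ?_
    · intro y hy
      calc f (s * r) * (f (s * r) * y * (f (s * r))⁻¹) * (f (s * r))⁻¹
          = (f (s * r) * f (s * r)) * y * (f (s * r) * f (s * r))⁻¹ := by group
        _ = y := by rw [hfsr2]; group
    · rw [← map_inv, ← map_mul, ← map_mul]
      have : (s * r) * x1 * (s * r)⁻¹ = x1⁻¹ := by
        calc (s * r) * x1 * (s * r)⁻¹ = s * (r * x1 * r⁻¹) * s⁻¹ := by group
          _ = x1⁻¹ := by rw [hrx1, hsx1]
      rw [this, map_inv]; exact hx1ne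
  have hrP1 : f r ∈ Subgroup.centralizer (P1 : Set (H ⧸ P2)) := by
    rw [Subgroup.mem_centralizer_iff]
    intro y hy
    have h2 : f r * y * (f r)⁻¹ = y := by
      have h3 : f r = (f s)⁻¹ * f (s * r) := by rw [map_mul]; group
      have h4 : (f s)⁻¹ = f s := inv_eq_of_mul_eq_one_left hfs2
      calc f r * y * (f r)⁻¹ = (f s)⁻¹ * (f (s * r) * y * (f (s * r))⁻¹) * ((f s)⁻¹)⁻¹ := by
            rw [h3]; group
        _ = f s * y⁻¹ * (f s)⁻¹ := by rw [hsrP1 y hy, h4, h4]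
        _ = (y⁻¹)⁻¹ := hsP1 _ (P1.inv_mem hy)
        _ = y := inv_inv y
    rw [mul_inv_eq_iff_eq_mul] at h2
    exact h2.symm
  -- P1 abelian
  have hP1ab : ∀ q ∈ P1, q ∈ Subgroup.centralizer (P1 : Set (H ⧸ P2)) := by
    have := IsPGroup.isMulCommutative_of_card_eq_prime_sq (p := p1) (G := P1) hP1c
    intro a ha
    rw [Subgroup.mem_centralizer_iff]
    intro b hb
    have h := this.is_comm.comm (⟨b, hb⟩ : P1) ⟨a, ha⟩
    exact congrArg Subtype.val h
  -- Q1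
  set Q1 : Subgroup H := P1.comap f with hQ1
  haveI hQ1n : Q1.Normal := hP1n.comap f
  have hQ1ind : Q1.index = P1.index := Subgroup.index_comap_of_surjective P1 hfs
  have hH1card : p1 ^ 2 * P1.index = Nat.card (H ⧸ P2) := by
    rw [← hP1c]; exact Subgroup.card_mul_index P1
  have hQ1card : Nat.card Q1 = p1 ^ 2 * p2 ^ 2 := by
    have h1 := Subgroup.card_mul_index Q1
    have h2 : P1.index ≠ 0 := Subgroup.index_ne_zero_of_finite
    rw [hQ1ind, hcH, ← hH1card] at h1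
    have h3 : Nat.card Q1 * P1.index = (p1 ^ 2 * p2 ^ 2) * P1.index := by rw [h1]; ring
    exact Nat.eq_of_mul_eq_mul_right (Nat.pos_of_ne_zero h2) h3
  have hp1odd : ¬ 2 ∣ p1 := by
    intro h
    have := (Nat.prime_dvd_prime_iff_eq Nat.prime_two hp1p).1 h
    omega
  have hp2odd : ¬ 2 ∣ p2 := by
    intro h
    have := (Nat.prime_dvd_prime_iff_eq Nat.prime_two hp2p).1 h
    omega
  have hQ1odd : ¬ 2 ∣ Nat.card Q1 := by
    rw [hQ1card]
    intro h
    rcases (Nat.Prime.dvd_mul Nat.prime_two).1 h with h | h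
    · exact hp1odd (Nat.prime_two.dvd_of_dvd_pow h)
    · exact hp2odd (Nat.prime_two.dvd_of_dvd_pow h)
  have hHb : Nat.card (H ⧸ Q1) < 128 := by
    have h1 : Nat.card (H ⧸ Q1) = P1.index := hQ1ind
    rw [h1]
    rw [← hH1card, mul_comm] at hcH1
    exact Nat.lt_of_mul_lt_mul_right hcH1
  let g : H →* H ⧸ Q1 := QuotientGroup.mk' Q1
  have hgs : Function.Surjective g := QuotientGroup.mk'_surjective Q1
  have hg1 : ∀ a : H, g a = 1 ↔ a ∈ Q1 := fun a => QuotientGroup.eq_one_iff a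
  -- N hat
  set Nh : Subgroup H := Subgroup.centralizer (P2 : Set H) ⊓
    (Subgroup.centralizer (P1 : Set (H ⧸ P2))).comap f with hNh
  haveI hNhn : Nh.Normal := by
    haveI h1 : (Subgroup.centralizer (P2 : Set H)).Normal := inferInstance
    haveI h2 : ((Subgroup.centralizer (P1 : Set (H ⧸ P2))).comap f).Normal := by
      have h3 : (Subgroup.centralizer (P1 : Set (H ⧸ P2))).Normal := inferInstance
      exact h3.comap f
    rw [hNh]; infer_instance
  have hmemNh : ∀ a, a ∈ Nh ↔ a ∈ Subgroup.centralizer (P2 : Set H) ∧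
      f a ∈ Subgroup.centralizer (P1 : Set (H ⧸ P2)) := by
    intro a
    rw [hNh, Subgroup.mem_inf, Subgroup.mem_comap]
  set N : Subgroup (H ⧸ Q1) := Nh.map g with hN
  haveI hNn : N.Normal := hNhn.map g hgs
  have hmemN : ∀ a : H, g a ∈ N → ∃ n ∈ Nh, ∃ q ∈ Q1, a = n * q := by
    intro a ha
    rw [hN, Subgroup.mem_map] at ha
    obtain ⟨n, hn, hna⟩ := ha
    refine ⟨n, hn, n⁻¹ * a, ?_, by group⟩
    rw [← hg1, map_mul, map_inv, hna, inv_mul_cancel]
  -- z
  have hzord : orderOf (r * r) = 2 := by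
    rw [orderOf_eq_prime_iff]
    exact ⟨by rw [pow_two]; exact hr4, hz1⟩
  have hzQ1 : r * r ∉ Q1 := by
    intro hz
    apply hQ1odd
    have h1 : orderOf (⟨r * r, hz⟩ : Q1) = 2 := by
      rw [← hzord]; exact Subgroup.orderOf_mk (r * r) hz
    rw [← h1]; exact orderOf_dvd_natCard _
  have hzNh : r * r ∈ Nh := by
    rw [hmemNh]
    constructor
    · rw [Subgroup.mem_centralizer_iff]
      intro y hy
      have := hzP2 y hy
      rw [mul_inv_eq_iff_eq_mul] at this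
      exact this.symm
    · rw [map_mul]
      exact Subgroup.mul_mem _ hrP1 hrP1
  -- s-type elements are not in N
  have hnotP1 : ∀ a : H, (∀ y ∈ P1, f a * y * (f a)⁻¹ = y⁻¹) → g a ∉ N := by
    intro a ha hgN
    obtain ⟨n, hn, q, hq, haq⟩ := hmemN a hgN
    have h1 : f a ∈ Subgroup.centralizer (P1 : Set (H ⧸ P2)) := by
      rw [haq, map_mul]
      exact Subgroup.mul_mem _ ((hmemNh n).1 hn).2 (hP1ab _ hq)
    have h2 := ha (f x1) hx1P
    rw [Subgroup.mem_centralizer_iff] at h1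
    have h3 := h1 (f x1) hx1P
    rw [← h3, mul_assoc, mul_inv_cancel, mul_one] at h2
    exact hx1ne h2.symm
  have hrnot : g r ∉ N := by
    intro hgN
    obtain ⟨n, hn, q, hq, haq⟩ := hmemN r hgN
    -- q acts as inversion on P2
    have hnc := ((hmemNh n).1 hn).1
    rw [Subgroup.mem_centralizer_iff] at hnc
    have hqinv : ∀ y ∈ P2, q * y * q⁻¹ = y⁻¹ := by
      intro y hy
      have h1 : q * y * q⁻¹ ∈ P2 := hP2n.conj_mem y hy q
      have h2 := hrP2 y hy
      rw [haq] at h2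
      have h3 := hnc _ h1
      calc q * y * q⁻¹ = (q * y * q⁻¹) * n * n⁻¹ := by group
        _ = n * (q * y * q⁻¹) * n⁻¹ := by rw [h3]
        _ = (n * q) * y * (n * q)⁻¹ := by group
        _ = y⁻¹ := h2
    -- odd powers invert
    have hpow : ∀ k : ℕ, q ^ (2 * k + 1) * x2 * (q ^ (2 * k + 1))⁻¹ = x2⁻¹ := by
      intro k
      induction k with
      | zero => simpa using hqinv x2 hx2P
      | succ k ih =>
        have h1 : q ^ (2 * (k + 1) + 1) = q * (q * q ^ (2 * k + 1)) := by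
          rw [← pow_succ', ← pow_succ']
          congr 1
        rw [h1]
        calc q * (q * q ^ (2 * k + 1)) * x2 * (q * (q * q ^ (2 * k + 1)))⁻¹
            = q * (q * (q ^ (2 * k + 1) * x2 * (q ^ (2 * k + 1))⁻¹) * q⁻¹) * q⁻¹ := by group
          _ = q * (q * x2⁻¹ * q⁻¹) * q⁻¹ := by rw [ih]
          _ = (q * x2 * q⁻¹)⁻¹⁻¹ := by
              rw [hqinv _ (P2.inv_mem hx2P), inv_inv, hqinv x2 hx2P, inv_inv]
          _ = x2⁻¹ := by rw [hqinv x2 hx2P, inv_inv]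
    obtain ⟨k, hk⟩ : ∃ k, Nat.card Q1 = 2 * k + 1 := by
      refine ⟨Nat.card Q1 / 2, ?_⟩
      omega
    have hq1 : q ^ (Nat.card Q1) = 1 := by
      have h6 : (⟨q, hq⟩ : Q1) ^ (Nat.card Q1) = 1 := pow_card_eq_one'
      have h7 := congrArg Subtype.val h6
      rw [Subgroup.coe_pow] at h7
      exact h7
    have h5 := hpow k
    rw [← hk, hq1] at h5
    apply hx2ne
    rw [← h5]; group
  -- apply Lemma N
  have := lemN N (g r) (g s) (g ρ) (g σ) (g τ) (by rw [← map_mul, hρ]) (by rw [← map_mul, hσ])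
    (by rw [← map_mul, hτ, map_mul]) (by rw [← map_mul, hs, map_one])
    (by rw [← map_mul, ← map_inv, ← map_mul, hsr, map_inv])
    (by rw [← map_mul, Ne, hg1]; exact hzQ1)
    (by rw [← map_mul, ← map_mul, hr4, map_one])
    (by rw [← map_mul, hN]; exact Subgroup.mem_map_of_mem g hzNh)
    hrnot (hnotP1 s hsP1) (by rw [← map_mul]; exact hnotP1 (s * r) hsrP1)
    (by
      intro h
      obtain ⟨a, rfl⟩ := hgs h
      rw [← map_inv, ← map_mul, ← map_mul, ← map_inv, ← map_mul, hN]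
      apply Subgroup.mem_map_of_mem
      rw [hmemNh]
      refine ⟨comm_of_inverts P2 hP2n r hrP2 a, ?_⟩
      simp only [map_mul, map_inv]
      exact comm_of_centralizes P1 hP1n (f r) hrP1 (f a))
    (by
      intro h
      obtain ⟨a, rfl⟩ := hgs h
      rw [← map_inv, ← map_mul, ← map_mul, ← map_inv, ← map_mul, hN]
      apply Subgroup.mem_map_of_mem
      rw [hmemNh]
      refine ⟨comm_of_centralizes P2 hP2n s hsP2 a, ?_⟩
      simp only [map_mul, map_inv]
      exact comm_of_inverts P1 hP1n (f s) hsP1 (f a))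
  omega

end Pool.Agent.Hhelper5.Roots
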