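import Mathlib
import Pool.Agent.Hhelper5.Roots.Lower

set_option autoImplicit false
set_option linter.all false

namespace Pool.Agent.Hhelper5.Roots

open Subgroup

/-- The action of `{±1}` on an abelian group: `-1` acts by inversion. -/
def signAut (A : Type) [CommGroup A] : ℤˣ →* MulAut A where
  toFun e :=
    { toFun := fun a => a ^ (e : ℤ)
      invFun := fun a => a ^ (e : ℤ)
      left_inv := by
        intro a
        rcases Int.units_eq_one_or e with rfl | rfl <;> simp
      right_inv := by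
        intro a
        rcases Int.units_eq_one_or e with rfl | rfl <;> simp
      map_mul' := by
        intro a b
        rcases Int.units_eq_one_or e with rfl | rfl <;> simp [mul_comm] }
  map_one' := by
    ext a; simp
  map_mul' := by
    intro e f
    ext a
    rcases Int.units_eq_one_or e with rfl | rfl <;> rcases Int.units_eq_one_or f with rfl | rfl <;>
      simp

/-- `r ↦ 1`, `s ↦ -1`. -/
def chi1 : DihedralGroup 4 →* ℤˣ where
  toFun d := match d with
    | DihedralGroup.r _ => 1
    | DihedralGroup.sr _ => -1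
  map_one' := rfl
  map_mul' := by
    rintro (i | i) (j | j) <;> rfl

/-- `r ↦ -1`, `s ↦ 1`. -/
def chi2 : DihedralGroup 4 →* ℤˣ where
  toFun d := match d with
    | DihedralGroup.r i => (-1) ^ (ZMod.val i)
    | DihedralGroup.sr i => (-1) ^ (ZMod.val i)
  map_one' := rfl
  map_mul' := by
    rintro (i | i) (j | j) <;> revert i j <;> decide

/-- The action of `D₄` on `Z_{p₁} × Z_{p₂}`. -/
def act (p1 p2 : ℕ) :
    DihedralGroup 4 →* MulAut (Multiplicative (ZMod p1) × Multiplicative (ZMod p2)) where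
  toFun d := MulEquiv.prodCongr (signAut (Multiplicative (ZMod p1)) (chi1 d))
    (signAut (Multiplicative (ZMod p2)) (chi2 d))
  map_one' := by
    apply MulEquiv.ext
    intro a
    show (signAut _ (chi1 1) a.1, signAut _ (chi2 1) a.2) = a
    rw [map_one, map_one, map_one, map_one]
    rfl
  map_mul' := by
    intro a b
    apply MulEquiv.ext
    intro x
    show (signAut _ (chi1 (a * b)) x.1, signAut _ (chi2 (a * b)) x.2) =
      (signAut _ (chi1 a) (signAut _ (chi1 b) x.1), signAut _ (chi2 a) (signAut _ (chi2 b) x.2))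
    rw [map_mul, map_mul, map_mul, map_mul]
    rfl

/-- The group `(Z_{p₁} × Z_{p₂}) ⋊ D₄` of order `8 p₁ p₂`. -/
abbrev GG (p1 p2 : ℕ) : Type :=
  (Multiplicative (ZMod p1) × Multiplicative (ZMod p2)) ⋊[act p1 p2] DihedralGroup 4

instance (p1 p2 : ℕ) [NeZero p1] [NeZero p2] : Finite (GG p1 p2) := by
  haveI : Finite ((Multiplicative (ZMod p1) × Multiplicative (ZMod p2)) × DihedralGroup 4) :=
    inferInstance
  exact Finite.of_equiv _ SemidirectProduct.equivProd.symm

theorem card_GG (p1 p2 : ℕ) [NeZero p1] [NeZero p2] : Nat.card (GG p1 p2) = 8 * p1 * p2 := by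
  rw [SemidirectProduct.card, Nat.card_prod, DihedralGroup.nat_card]
  have h1 : Nat.card (Multiplicative (ZMod p1)) = p1 := by
    rw [Nat.card_congr (Multiplicative.toAdd), Nat.card_zmod]
  have h2 : Nat.card (Multiplicative (ZMod p2)) = p2 := by
    rw [Nat.card_congr (Multiplicative.toAdd), Nat.card_zmod]
  rw [h1, h2]; ring

/-- The lower bound for the groups `GG p1 p2`. -/
theorem lower_GG (p1 p2 : ℕ) [Fact p1.Prime] [Fact p2.Prime]
    (hm1 : ¬ IsSquare (-1 : ZMod p1)) (hm2 : ¬ IsSquare (-1 : ZMod p2))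
    (hb1 : 2 * 128 ^ 2 < p1) (hb2 : 2 * (128 * p1 ^ 2) ^ 2 < p2)
    (H : Type) [Group H] [Finite H] (ι : GG p1 p2 →* H) (hι : Function.Injective ι)
    (hroot : ∀ g, ∃ h : H, h ^ 2 = ι g) :
    2 * (Nat.card (GG p1 p2)) ^ 2 ≤ Nat.card H := by
  set X1 : GG p1 p2 := SemidirectProduct.inl (Multiplicative.ofAdd 1, 1) with hX1
  set X2 : GG p1 p2 := SemidirectProduct.inl (1, Multiplicative.ofAdd 1) with hX2
  set R : GG p1 p2 := SemidirectProduct.inr (DihedralGroup.r 1) with hR
  set S : GG p1 p2 := SemidirectProduct.inr (DihedralGroup.sr 0) with hS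
  obtain ⟨ρ, hρ⟩ := hroot R
  obtain ⟨σ, hσ⟩ := hroot S
  obtain ⟨τ, hτ⟩ := hroot (S * R)
  have hconj : ∀ (d : DihedralGroup 4) (n : Multiplicative (ZMod p1) × Multiplicative (ZMod p2)),
      (SemidirectProduct.inr d : GG p1 p2) * SemidirectProduct.inl n *
        (SemidirectProduct.inr d)⁻¹ = SemidirectProduct.inl (act p1 p2 d n) := by
    intro d n
    rw [SemidirectProduct.inl_aut, map_inv]
  have hact : ∀ (d : DihedralGroup 4) (a : Multiplicative (ZMod p1)) (b : Multiplicative (ZMod p2)),
      act p1 p2 d (a, b) = (a ^ (chi1 d : ℤ), b ^ (chi2 d : ℤ)) := by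
    intro d a b; rfl
  have c1r : chi1 (DihedralGroup.r 1) = 1 := rfl
  have c1s : chi1 (DihedralGroup.sr 0) = -1 := rfl
  have c2r : chi2 (DihedralGroup.r 1) = -1 := by decide
  have c2s : chi2 (DihedralGroup.sr 0) = 1 := by decide
  have hordX1 : orderOf X1 = p1 := by
    rw [hX1, orderOf_injective _ SemidirectProduct.inl_injective, Prod.orderOf]
    simp [ZMod.addOrderOf_one]
  have hordX2 : orderOf X2 = p2 := by
    rw [hX2, orderOf_injective _ SemidirectProduct.inl_injective, Prod.orderOf]
    simp [ZMod.addOrderOf_one]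
  have hRX1 : R * X1 * R⁻¹ = X1 := by
    rw [hR, hX1, hconj, hact, c1r, c2r]; simp
  have hSX1 : S * X1 * S⁻¹ = X1⁻¹ := by
    rw [hS, hX1, hconj, hact, c1s, c2s, ← map_inv]; simp
  have hRX2 : R * X2 * R⁻¹ = X2⁻¹ := by
    rw [hR, hX2, hconj, hact, c1r, c2r, ← map_inv]; simp
  have hSX2 : S * X2 * S⁻¹ = X2 := by
    rw [hS, hX2, hconj, hact, c1s, c2s]; simp
  have hSS : S * S = 1 := by
    rw [hS, ← map_mul]; rfl
  have hSR : S * R * S⁻¹ = R⁻¹ := by
    rw [hS, hR, ← map_mul, ← map_inv, ← map_mul, ← map_inv]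
    congr 1
  have hRR : R * R ≠ 1 := by
    rw [hR, ← map_mul]
    intro h
    have h1 : (DihedralGroup.r 1 * DihedralGroup.r 1 : DihedralGroup 4) = 1 := by
      apply SemidirectProduct.inr_injective (φ := act p1 p2)
      rw [h, map_one]
    revert h1
    decide
  have hR4 : (R * R) * (R * R) = 1 := by
    rw [hR, ← map_mul, ← map_mul]
    have : ((DihedralGroup.r 1 * DihedralGroup.r 1) * (DihedralGroup.r 1 * DihedralGroup.r 1) :
      DihedralGroup 4) = 1 := by decide
    rw [this, map_one]
  have := lower_core H p1 p2 hm1 hm2 hb1 hb2 (ι X1) (ι X2) (ι R) (ι S) ρ σ τ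
    (by rw [orderOf_injective ι hι, hordX1]) (by rw [orderOf_injective ι hι, hordX2])
    (by rw [← pow_two, hρ]) (by rw [← pow_two, hσ]) (by rw [← pow_two, hτ, map_mul])
    (by rw [← map_mul, hSS, map_one])
    (by rw [← map_inv, ← map_mul, ← map_mul, hSR, map_inv])
    (by rw [← map_mul, Ne, ← map_one ι]; exact fun h => hRR (hι h))
    (by rw [← map_mul, ← map_mul, hR4, map_one])
    (by rw [← map_inv, ← map_mul, ← map_mul, hRX1])
    (by rw [← map_inv, ← map_mul, ← map_mul, hSX1, map_inv])
    (by rw [← map_inv, ← map_mul, ← map_mul, hRX2, map_inv])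
    (by rw [← map_inv, ← map_mul, ← map_mul, hSX2])
  rw [card_GG]
  calc 2 * (8 * p1 * p2) ^ 2 = 128 * p1 ^ 2 * p2 ^ 2 := by ring
    _ ≤ Nat.card H := this

/-- The upper bound `2|G|²`. -/
theorem upper (G : Type) [Group G] [Finite G] :
    ∃ (H : Type) (_ : Group H) (_ : Finite H), Nat.card H = 2 * (Nat.card G) ^ 2 ∧
      ∃ ι : G →* H, Function.Injective ι ∧ ∀ g, ∃ h : H, h ^ 2 = ι g := by
  classical
  let C := Multiplicative (ZMod 2)
  let H := RegularWreathProduct G C
  refine ⟨H, inferInstance, inferInstance, ?_, ?_⟩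
  · rw [RegularWreathProduct.card]
    have h1 : Nat.card C = 2 := by
      rw [Nat.card_congr (Multiplicative.toAdd), Nat.card_zmod]
    rw [h1, mul_comm]
  · let ι : G →* H :=
      { toFun := fun g => ⟨fun _ => g, 1⟩
        map_one' := rfl
        map_mul' := by
          intro a b
          apply RegularWreathProduct.ext
          · rfl
          · exact (mul_one _).symm }
    refine ⟨ι, ?_, ?_⟩
    · intro a b hab
      have := congrArg (fun h : H => h.left 1) hab
      exact this
    · intro g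
      refine ⟨⟨fun c => if c = 1 then g else 1, Multiplicative.ofAdd 1⟩, ?_⟩
      rw [pow_two]
      have hcases : ∀ c : C, c = 1 ∨ c = Multiplicative.ofAdd 1 := by
        intro c
        have : ∀ c : ZMod 2, c = 0 ∨ c = 1 := by decide
        exact this c
      have hne : (Multiplicative.ofAdd 1 : C) ≠ 1 := by decide
      have hinv : (Multiplicative.ofAdd 1 : C)⁻¹ = Multiplicative.ofAdd 1 := by decide
      have hmul : (Multiplicative.ofAdd 1 : C) * Multiplicative.ofAdd 1 = 1 := by decide
      apply RegularWreathProduct.ext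
      · funext c
        rw [RegularWreathProduct.mul_left]
        show (if c = 1 then g else 1) *
          (if (Multiplicative.ofAdd 1 : C)⁻¹ * c = 1 then g else 1) = g
        rcases hcases c with rfl | rfl
        · rw [if_pos rfl, mul_one, if_neg, mul_one]
          rw [hinv]; exact hne
        · rw [if_neg hne, one_mul, inv_mul_cancel, if_pos rfl]
      · exact hmul

theorem exists_prime_3 (n : ℕ) : ∃ p, n < p ∧ p.Prime ∧ ¬ IsSquare (-1 : ZMod p) := by
  have h3 : IsUnit (3 : ZMod 4) := by decide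
  obtain ⟨p, hpn, hp, hpm⟩ := Nat.forall_exists_prime_gt_and_eq_mod h3 n
  refine ⟨p, hpn, hp, ?_⟩
  haveI : Fact p.Prime := ⟨hp⟩
  rw [ZMod.exists_sq_eq_neg_one_iff]
  have h4 : ((p : ℕ) : ZMod 4) = ((3 : ℕ) : ZMod 4) := by rw [hpm]; rfl
  rw [ZMod.natCast_eq_natCast_iff'] at h4
  simpa using h4

end Pool.Agent.Hhelper5.Roots
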